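import Mathlib

/-!
# Adelic torus orbits: definitions

`D1 R` is the group of norm one Hamilton quaternions over the commutative ring `R`
(the `R`-points of the simply connected semisimple group `D^1` over `ℚ`, a form of `SL_2`).
-/

set_option autoImplicit false

noncomputable section

namespace AdTorus

open Topology Filter RestrictedProduct

instance primesFact (p : Nat.Primes) : Fact (p : ℕ).Prime := ⟨p.2⟩

/-- Multiplication of Hamilton quaternions `q 0 + q 1 i + q 2 j + q 3 k`. -/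
def qmul {R : Type} [CommRing R] (x y : Fin 4 → R) : Fin 4 → R :=
  ![x 0 * y 0 - x 1 * y 1 - x 2 * y 2 - x 3 * y 3,
    x 0 * y 1 + x 1 * y 0 + x 2 * y 3 - x 3 * y 2,
    x 0 * y 2 - x 1 * y 3 + x 2 * y 0 + x 3 * y 1,
    x 0 * y 3 + x 1 * y 2 - x 2 * y 1 + x 3 * y 0]

/-- Conjugation of Hamilton quaternions. -/
def qconj {R : Type} [CommRing R] (x : Fin 4 → R) : Fin 4 → R :=
  ![x 0, - x 1, - x 2, - x 3]

/-- The (reduced) norm. -/
def qnorm {R : Type} [CommRing R] (x : Fin 4 → R) : R :=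
  x 0 ^ 2 + x 1 ^ 2 + x 2 ^ 2 + x 3 ^ 2

/-- Norm one Hamilton quaternions over `R`. -/
structure D1 (R : Type) [CommRing R] where
  /-- the coordinates -/
  val : Fin 4 → R
  nrm : qnorm val = 1

namespace D1

variable {R S : Type} [CommRing R] [CommRing S]

@[ext] theorem ext' {x y : D1 R} (h : ∀ j, x.val j = y.val j) : x = y := by
  cases x; cases y; congr; funext j; exact h j

instance : Mul (D1 R) := ⟨fun x y => ⟨qmul x.val y.val, by
  have hx := x.nrm
  have hy := y.nrm
  simp only [qnorm] at hx hy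
  simp only [qnorm, qmul, Matrix.cons_val_zero, Matrix.cons_val_one, Matrix.cons_val]
  linear_combination (y.val 0 ^ 2 + y.val 1 ^ 2 + y.val 2 ^ 2 + y.val 3 ^ 2) * hx + hy⟩⟩

instance : One (D1 R) := ⟨⟨![1, 0, 0, 0], by simp [qnorm]⟩⟩

instance : Inv (D1 R) := ⟨fun x => ⟨qconj x.val, by
  have hx := x.nrm
  simp only [qnorm] at hx
  simp only [qnorm, qconj, Matrix.cons_val_zero, Matrix.cons_val_one, Matrix.cons_val]
  linear_combination hx⟩⟩

theorem mul_val (x y : D1 R) : (x * y).val = qmul x.val y.val := rfl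
theorem one_val : (1 : D1 R).val = ![1, 0, 0, 0] := rfl
theorem inv_val (x : D1 R) : (x⁻¹).val = qconj x.val := rfl

instance : Group (D1 R) := Group.ofLeftAxioms
  (by
    intro x y z
    ext j
    simp only [mul_val, qmul]
    fin_cases j <;> simp <;> ring)
  (by
    intro x
    ext j
    simp only [mul_val, one_val, qmul]
    fin_cases j <;> simp)
  (by
    intro x
    have hx := x.nrm
    simp only [qnorm] at hx
    ext j
    simp only [mul_val, one_val, inv_val, qmul, qconj]
    fin_cases j <;> simp <;> first | linear_combination hx | ring)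

/-- Functoriality of `D1`. -/
def map (f : R →+* S) : D1 R →* D1 S where
  toFun x := ⟨fun j => f (x.val j), by
    have hx := congrArg f x.nrm
    simp only [qnorm, map_add, map_pow, map_one] at hx
    simpa only [qnorm] using hx⟩
  map_one' := by
    ext j
    simp only [one_val]
    fin_cases j <;> simp
  map_mul' x y := by
    ext j
    simp only [mul_val, qmul]
    fin_cases j <;> simp

theorem map_val (f : R →+* S) (x : D1 R) (j : Fin 4) : (map f x).val j = f (x.val j) := rfl

instance [TopologicalSpace R] : TopologicalSpace (D1 R) :=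
  TopologicalSpace.induced D1.val inferInstance

theorem isEmbedding_val [TopologicalSpace R] : IsEmbedding (D1.val : D1 R → (Fin 4 → R)) :=
  ⟨⟨rfl⟩, fun _ _ h => ext' fun j => congrFun h j⟩

theorem continuous_coord [TopologicalSpace R] (j : Fin 4) :
    Continuous (fun x : D1 R => x.val j) :=
  (continuous_apply j).comp isEmbedding_val.continuous

instance [TopologicalSpace R] [T2Space R] : T2Space (D1 R) := isEmbedding_val.t2Space

instance [TopologicalSpace R] [SecondCountableTopology R] : SecondCountableTopology (D1 R) :=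
  isEmbedding_val.secondCountableTopology

theorem continuous_iff' [TopologicalSpace R] {Y : Type*} [TopologicalSpace Y] {f : Y → D1 R} :
    Continuous f ↔ ∀ j, Continuous fun y => (f y).val j := by
  rw [isEmbedding_val.continuous_iff, continuous_pi_iff]; rfl

instance [TopologicalSpace R] [IsTopologicalRing R] : IsTopologicalGroup (D1 R) where
  continuous_mul := by
    rw [continuous_iff']
    intro j
    have h1 : ∀ k : Fin 4, Continuous (fun x : D1 R × D1 R => x.1.val k) := fun k =>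
      (continuous_coord k).comp continuous_fst
    have h2 : ∀ k : Fin 4, Continuous (fun x : D1 R × D1 R => x.2.val k) := fun k =>
      (continuous_coord k).comp continuous_snd
    simp only [mul_val, qmul]
    fin_cases j <;> simp <;> fun_prop
  continuous_inv := by
    rw [continuous_iff']
    intro j
    simp only [inv_val, qconj]
    have h1 : ∀ k : Fin 4, Continuous (fun x : D1 R => x.val k) := fun k => continuous_coord k
    fin_cases j
    · exact h1 0
    · exact (h1 1).neg
    · exact (h1 2).neg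
    · exact (h1 3).neg

end D1

/-- The subgroup `D^1(ℤ_p)` of `D^1(ℚ_p)`: norm one quaternions with `p`-adically integral
coordinates. -/
def Kp (p : ℕ) [Fact p.Prime] : Subgroup (D1 ℚ_[p]) where
  carrier := {q | ∀ j, ‖q.val j‖ ≤ 1}
  mul_mem' := by
    intro x y hx hy j
    have hm : ∀ a b : ℚ_[p], ‖a‖ ≤ 1 → ‖b‖ ≤ 1 → ‖a * b‖ ≤ 1 := fun a b ha hb => by
      rw [norm_mul]; exact mul_le_one₀ ha (norm_nonneg _) hb
    have ha : ∀ a b : ℚ_[p], ‖a‖ ≤ 1 → ‖b‖ ≤ 1 → ‖a + b‖ ≤ 1 := fun a b ha hb =>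
      (Padic.nonarchimedean a b).trans (max_le ha hb)
    have hs : ∀ a b : ℚ_[p], ‖a‖ ≤ 1 → ‖b‖ ≤ 1 → ‖a - b‖ ≤ 1 := fun a b ha' hb => by
      rw [sub_eq_add_neg]; exact ha _ _ ha' (by rwa [norm_neg])
    simp only [D1.mul_val, qmul]
    fin_cases j <;> simp
    · exact hs _ _ (hs _ _ (hs _ _ (hm _ _ (hx 0) (hy 0)) (hm _ _ (hx 1) (hy 1)))
        (hm _ _ (hx 2) (hy 2))) (hm _ _ (hx 3) (hy 3))
    · exact hs _ _ (ha _ _ (ha _ _ (hm _ _ (hx 0) (hy 1)) (hm _ _ (hx 1) (hy 0)))
        (hm _ _ (hx 2) (hy 3))) (hm _ _ (hx 3) (hy 2))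
    · exact ha _ _ (ha _ _ (hs _ _ (hm _ _ (hx 0) (hy 2)) (hm _ _ (hx 1) (hy 3)))
        (hm _ _ (hx 2) (hy 0))) (hm _ _ (hx 3) (hy 1))
    · exact ha _ _ (hs _ _ (ha _ _ (hm _ _ (hx 0) (hy 3)) (hm _ _ (hx 1) (hy 2)))
        (hm _ _ (hx 2) (hy 1))) (hm _ _ (hx 3) (hy 0))
  one_mem' := by
    intro j
    simp only [D1.one_val]
    fin_cases j <;> simp
  inv_mem' := by
    intro x hx j
    simp only [D1.inv_val, qconj]
    fin_cases j
    · simpa using hx 0
    · simpa using hx 1
    · simpa using hx 2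
    · simpa using hx 3

/-- The group `D^1(ℚ_p)`, for a prime `p`. -/
abbrev DQ (p : Nat.Primes) : Type := D1 ℚ_[p]

instance instGroupDQ (p : Nat.Primes) : Group (DQ p) := inferInstance
instance instTopDQ (p : Nat.Primes) : TopologicalSpace (DQ p) := inferInstance

/-- The subgroup `D^1(ℤ_p)` of `D^1(ℚ_p)`, for a prime `p`. -/
abbrev KQ (p : Nat.Primes) : Subgroup (DQ p) := Kp p

/-- The finite adelic points of `D^1`: the restricted product of the groups `D^1(ℚ_p)` with
respect to the compact open subgroups `D^1(ℤ_p)`. -/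
abbrev D1f : Type := Πʳ p : Nat.Primes, [DQ p, KQ p]

instance instGroupD1f : Group D1f := inferInstance
instance instMonoidD1f : Monoid D1f := inferInstance
instance instMulOneClassD1f : MulOneClass D1f := inferInstance
instance instMulOneD1f : MulOne D1f := inferInstance
instance instTopD1f : TopologicalSpace D1f := inferInstance

/-- The adelic points of `D^1`: `D^1(ℝ)` times the restricted product of the groups
`D^1(ℚ_p)` with respect to the compact open subgroups `D^1(ℤ_p)`. -/
abbrev D1A : Type := D1 ℝ × D1f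

instance instGroupD1A : Group D1A := inferInstance
instance instMonoidD1A : Monoid D1A := inferInstance
instance instMulOneClassD1A : MulOneClass D1A := inferInstance
instance instMulOneD1A : MulOne D1A := inferInstance
instance instTopD1A : TopologicalSpace D1A := inferInstance

/-- The inclusion `D^1(ℚ) → D^1(ℚ_p)`. -/
abbrev mapQ (p : Nat.Primes) : D1 ℚ →* DQ p := D1.map (algebraMap ℚ ℚ_[p])

theorem isOpen_Kp (p : ℕ) [Fact p.Prime] : IsOpen (Kp p : Set (D1 ℚ_[p])) := by
  have : (Kp p : Set (D1 ℚ_[p])) = ⋂ j : Fin 4, {q | q.val j ∈ Metric.closedBall (0 : ℚ_[p]) 1} := by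
    ext q
    simp only [Set.mem_iInter]
    exact forall_congr' fun j => (mem_closedBall_zero_iff (a := q.val j) (r := 1)).symm
  rw [this]
  exact isOpen_iInter_of_finite fun j =>
    (IsUltrametricDist.isOpen_closedBall (0 : ℚ_[p]) one_ne_zero).preimage (D1.continuous_coord j)

instance : Fact (∀ p : Nat.Primes, IsOpen (Kp p : Set (D1 ℚ_[p]))) := ⟨fun p => isOpen_Kp p⟩

theorem eventually_mem_Kp (x : D1 ℚ) :
    ∀ᶠ p : Nat.Primes in cofinite, mapQ p x ∈ KQ p := by
  have h : ∀ q : ℚ, ∀ᶠ p : Nat.Primes in cofinite, ‖(algebraMap ℚ ℚ_[p] q)‖ ≤ 1 := by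
    intro q
    have hfin : {p : Nat.Primes | (p : ℕ) ∣ q.den}.Finite := by
      refine Set.Finite.of_finite_image (f := fun p : Nat.Primes => (p : ℕ)) ?_
        (Subtype.val_injective.injOn)
      refine (Nat.divisors q.den).finite_toSet.subset ?_
      rintro _ ⟨p, hp, rfl⟩
      simp only [Finset.mem_coe, Nat.mem_divisors]
      exact ⟨hp, q.den_nz⟩
    filter_upwards [hfin.compl_mem_cofinite] with p hp
    have hp' : ¬ ((p : ℕ) ∣ q.den) := fun h => hp h
    rw [eq_ratCast]
    exact Padic.norm_rat_le_one hp'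
  filter_upwards [h (x.val 0), h (x.val 1), h (x.val 2), h (x.val 3)] with p h0 h1 h2 h3
  intro j
  rw [D1.map_val]
  fin_cases j
  · exact h0
  · exact h1
  · exact h2
  · exact h3

/-- The diagonal map `D^1(ℚ) → D^1(𝔸)` on elements. -/
def dgFun (x : D1 ℚ) : D1A :=
  (D1.map (algebraMap ℚ ℝ) x, ⟨fun p => mapQ p x, eventually_mem_Kp x⟩)

theorem dgFun_one : dgFun 1 = 1 := by
  refine Prod.ext (map_one _) ?_
  apply Subtype.ext
  funext p
  exact map_one _

theorem dgFun_mul (x y : D1 ℚ) : dgFun (x * y) = dgFun x * dgFun y := by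
  refine Prod.ext (map_mul _ _ _) ?_
  apply Subtype.ext
  funext p
  exact map_mul _ _ _

/-- The diagonal embedding `D^1(ℚ) → D^1(𝔸)`. -/
def dg : D1 ℚ →* D1A where
  toFun := dgFun
  map_one' := dgFun_one
  map_mul' := dgFun_mul

/-- `G(𝔸)` for `G = D^1 × D^1`. -/
abbrev GA : Type := D1A × D1A

instance instGroupGA : Group GA := inferInstance
instance instMonoidGA : Monoid GA := inferInstance
instance instMulOneClassGA : MulOneClass GA := inferInstance
instance instMulOneGA : MulOne GA := inferInstance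
instance instTopGA : TopologicalSpace GA := inferInstance

/-- `G(ℚ)`, diagonally embedded in `G(𝔸)`. -/
def GQ : Subgroup GA := (dg.prodMap dg).range

/-- The space `X = G(𝔸) / G(ℚ)`. -/
abbrev X : Type := GA ⧸ GQ

instance : MeasurableSpace X := borel X
instance : BorelSpace X := ⟨rfl⟩

/-- The real component `G(𝔸) → G(ℝ)`. -/
def compR : GA →* D1 ℝ × D1 ℝ := (MonoidHom.fst _ _).prodMap (MonoidHom.fst _ _)

/-- The `p`-component `D^1(𝔸) → D^1(ℚ_p)`. -/
def comp1 (p : Nat.Primes) : D1A →* DQ p where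
  toFun x := x.2 p
  map_one' := rfl
  map_mul' x y := by
    rw [Prod.snd_mul, RestrictedProduct.mul_apply]

/-- The `p`-component `G(𝔸) → G(ℚ_p)`. -/
def compP (p : Nat.Primes) : GA →* DQ p × DQ p := (comp1 p).prodMap (comp1 p)

/-- The adelic points of a subgroup functor `Z` of `G = D^1 × D^1`: elements of `G(𝔸)` all of
whose components lie in `Z`. -/
def adelic (Z : ∀ (R : Type) [Field R] [Algebra ℚ R], Set (D1 R × D1 R)) : Set GA :=
  {x | compR x ∈ Z ℝ ∧ ∀ p : Nat.Primes, compP p x ∈ Z ℚ_[p]}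

/-- The torus `T_m` of `D^1`: the norm one elements of `ℚ(m i + j) ≅ ℚ(√(-(m^2+1)))`, that is, the
elements `a + b (m i + j)` of `D^1`. -/
def torus (m : ℕ) (R : Type) [CommRing R] : Subgroup (D1 R) where
  carrier := {t | t.val 3 = 0 ∧ t.val 1 = m * t.val 2}
  mul_mem' := by
    rintro a b ⟨ha3, ha1⟩ ⟨hb3, hb1⟩
    constructor
    · simp [D1.mul_val, qmul, ha3, ha1, hb3, hb1]; ring
    · simp [D1.mul_val, qmul, ha3, ha1, hb3, hb1]; ring
  one_mem' := by simp [D1.one_val]
  inv_mem' := by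
    rintro a ⟨ha3, ha1⟩
    constructor
    · simp [D1.inv_val, qconj, ha3]
    · simp [D1.inv_val, qconj, ha1]

theorem torus_comm {m : ℕ} {R : Type} [CommRing R] {a b : D1 R} (ha : a ∈ torus m R)
    (hb : b ∈ torus m R) : a * b = b * a := by
  obtain ⟨ha3, ha1⟩ := ha
  obtain ⟨hb3, hb1⟩ := hb
  ext j
  simp only [D1.mul_val, qmul, ha3, ha1, hb3, hb1]
  fin_cases j <;> simp <;> ring

/-- The torus `T_{m,n} = {(t, t^n) : t ∈ T_m}` of `G = D^1 × D^1`. -/
def torusPow (m n : ℕ) (R : Type) [CommRing R] : Subgroup (D1 R × D1 R) where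
  carrier := {x | x.1 ∈ torus m R ∧ x.2 = x.1 ^ n}
  mul_mem' := by
    rintro a b ⟨ha, ha'⟩ ⟨hb, hb'⟩
    refine ⟨mul_mem ha hb, ?_⟩
    have hc : Commute a.1 b.1 := torus_comm ha hb
    simp only [Prod.snd_mul, Prod.fst_mul, ha', hb', hc.mul_pow]
  one_mem' := by simp [one_mem]
  inv_mem' := by
    rintro a ⟨ha, ha'⟩
    exact ⟨inv_mem ha, by simp [ha']⟩

/-- The adelic points `T_{m,n}(𝔸)`. -/
def TA (m n : ℕ) : Subgroup GA :=
  (torusPow m n ℝ).comap compR ⊓ ⨅ p : Nat.Primes, (torusPow m n ℚ_[p]).comap (compP p)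

theorem coe_TA (m n : ℕ) :
    (TA m n : Set GA) = adelic (fun R _ _ => (torusPow m n R : Set (D1 R × D1 R))) := by
  ext x
  simp only [TA, adelic, SetLike.mem_coe, Subgroup.mem_inf, Subgroup.mem_comap,
    Subgroup.mem_iInf]
  rfl

/-- The adelic torus subset `g [T(𝔸)] = {g t G(ℚ) : t ∈ T(𝔸)}` of `X`, for any subset `T(𝔸)`
of `G(𝔸)`. -/
def orbitSet (g : GA) (T : Set GA) : Set X := (fun t => (QuotientGroup.mk (g * t) : X)) '' T

/-- The quotient `T(𝔸)/T(ℚ)` for a subgroup `T = T(𝔸)` of `G(𝔸)`; `T(ℚ) = T(𝔸) ∩ G(ℚ)`. -/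
abbrev TQ (T : Subgroup GA) : Type := T ⧸ (GQ.subgroupOf T)

instance instTopTQ (T : Subgroup GA) : TopologicalSpace (TQ T) := inferInstance
instance instMeasTQ (T : Subgroup GA) : MeasurableSpace (TQ T) := borel (TQ T)

/-- The map `T(𝔸)/T(ℚ) → X`, `t T(ℚ) ↦ g t G(ℚ)`. -/
def orbMap (T : Subgroup GA) (g : GA) : TQ T → X :=
  Quotient.lift (fun t : T => (QuotientGroup.mk (g * t) : X)) (by
    intro a b hab
    rw [← Quotient.eq_iff_equiv] at hab
    have h := QuotientGroup.eq.1 hab
    refine QuotientGroup.eq.2 ?_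
    have h2 : ((a : GA))⁻¹ * (b : GA) ∈ GQ := h
    simpa [mul_assoc] using h2)

/-- `ν` is the uniform measure on `g [T(𝔸)]`: the push-forward of the `T(𝔸)`-invariant (Haar)
probability measure on `T(𝔸)/T(ℚ)` under `t T(ℚ) ↦ g t G(ℚ)`. -/
def IsUniformMeasure (T : Subgroup GA) (g : GA) (ν : MeasureTheory.Measure X) : Prop :=
  ∃ m : MeasureTheory.Measure (TQ T), MeasureTheory.IsProbabilityMeasure m ∧
    (∀ t : T, m.map (fun q => t • q) = m) ∧ ν = m.map (orbMap T g)

/-- `μ` is a weak-* limit (along a subsequence) of the sequence `ν`. -/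
def IsWeakLimit (ν : ℕ → MeasureTheory.Measure X) (μ : MeasureTheory.Measure X) : Prop :=
  ∃ φ : ℕ → ℕ, StrictMono φ ∧ ∀ f : X → ℝ, Continuous f → HasCompactSupport f →
    Tendsto (fun k => ∫ x, f x ∂(ν (φ k))) atTop (𝓝 (∫ x, f x ∂μ))

/-- The zero set in `G(R) = D^1(R) × D^1(R)` of a set of polynomials with rational coefficients
in the eight coordinates. -/
def zeroSet (S : Set (MvPolynomial (Fin 4 ⊕ Fin 4) ℚ)) (R : Type) [CommRing R] [Algebra ℚ R] :
    Set (D1 R × D1 R) :=
  {x | ∀ f ∈ S, MvPolynomial.aeval (Sum.elim x.1.val x.2.val) f = 0}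

/-- `S` defines a `ℚ`-subgroup of `G = D^1 × D^1`: the complex zero set is a subgroup. -/
def IsQSubgroup (S : Set (MvPolynomial (Fin 4 ⊕ Fin 4) ℚ)) : Prop :=
  ∃ H : Subgroup (D1 ℂ × D1 ℂ), (H : Set (D1 ℂ × D1 ℂ)) = zeroSet S ℂ

end AdTorus
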