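import Pool.Agent.AdTorus.Defs

set_option autoImplicit false

noncomputable section

namespace AdTorus

open Topology Filter RestrictedProduct

/-- The compact open subgroup `D^1(ℝ) × ∏ D^1(ℤ_p)` of `D^1(𝔸)`. -/
def KA : Subgroup D1A := ⨅ p : Nat.Primes, (Kp p).comap (comp1 p)

theorem mem_KA {x : D1A} : x ∈ KA ↔ ∀ p : Nat.Primes, x.2 p ∈ Kp p := by
  simp only [KA, Subgroup.mem_iInf, Subgroup.mem_comap]; rfl

/-- The level three subgroup of `D^1(ℤ_3)`. -/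
def Kp3 : Subgroup (D1 ℚ_[3]) where
  carrier := {q | q ∈ Kp 3 ∧ ‖q.val 0 - 1‖ < 1 ∧ ‖q.val 1‖ < 1 ∧ ‖q.val 2‖ < 1 ∧ ‖q.val 3‖ < 1}
  mul_mem' := by
    rintro x y ⟨hx, hx0, hx1, hx2, hx3⟩ ⟨hy, hy0, hy1, hy2, hy3⟩
    have hm : ∀ a b : ℚ_[3], ‖a‖ < 1 → ‖b‖ ≤ 1 → ‖a * b‖ < 1 := fun a b ha hb => by
      rw [norm_mul]; exact (mul_le_of_le_one_right (norm_nonneg _) hb).trans_lt ha
    have hm' : ∀ a b : ℚ_[3], ‖a‖ ≤ 1 → ‖b‖ < 1 → ‖a * b‖ < 1 := fun a b ha hb => by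
      rw [mul_comm]; exact hm _ _ hb ha
    have ha : ∀ a b : ℚ_[3], ‖a‖ < 1 → ‖b‖ < 1 → ‖a + b‖ < 1 := fun a b ha hb =>
      (Padic.nonarchimedean a b).trans_lt (max_lt ha hb)
    have hs : ∀ a b : ℚ_[3], ‖a‖ < 1 → ‖b‖ < 1 → ‖a - b‖ < 1 := fun a b ha' hb => by
      rw [sub_eq_add_neg]; exact ha _ _ ha' (by rwa [norm_neg])
    refine ⟨mul_mem hx hy, ?_, ?_, ?_, ?_⟩
    · have e : (x * y).val 0 - 1 = (x.val 0 - 1) * y.val 0 + (y.val 0 - 1)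
          - x.val 1 * y.val 1 - x.val 2 * y.val 2 - x.val 3 * y.val 3 := by
        simp [D1.mul_val, qmul]; ring
      rw [e]
      exact hs _ _ (hs _ _ (hs _ _ (ha _ _ (hm _ _ hx0 (hy 0)) hy0) (hm _ _ hx1 (hy 1)))
        (hm _ _ hx2 (hy 2))) (hm _ _ hx3 (hy 3))
    · have e : (x * y).val 1 = x.val 0 * y.val 1 + x.val 1 * y.val 0 + x.val 2 * y.val 3
          - x.val 3 * y.val 2 := by simp [D1.mul_val, qmul]
      rw [e]
      exact hs _ _ (ha _ _ (ha _ _ (hm' _ _ (hx 0) hy1) (hm _ _ hx1 (hy 0))) (hm _ _ hx2 (hy 3)))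
        (hm _ _ hx3 (hy 2))
    · have e : (x * y).val 2 = x.val 0 * y.val 2 - x.val 1 * y.val 3 + x.val 2 * y.val 0
          + x.val 3 * y.val 1 := by simp [D1.mul_val, qmul]
      rw [e]
      exact ha _ _ (ha _ _ (hs _ _ (hm' _ _ (hx 0) hy2) (hm _ _ hx1 (hy 3))) (hm _ _ hx2 (hy 0)))
        (hm _ _ hx3 (hy 1))
    · have e : (x * y).val 3 = x.val 0 * y.val 3 + x.val 1 * y.val 2 - x.val 2 * y.val 1
          + x.val 3 * y.val 0 := by simp [D1.mul_val, qmul]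
      rw [e]
      exact ha _ _ (hs _ _ (ha _ _ (hm' _ _ (hx 0) hy3) (hm _ _ hx1 (hy 2))) (hm _ _ hx2 (hy 1)))
        (hm _ _ hx3 (hy 0))
  one_mem' := by
    refine ⟨one_mem _, ?_, ?_, ?_, ?_⟩ <;> simp [D1.one_val]
  inv_mem' := by
    rintro x ⟨hx, hx0, hx1, hx2, hx3⟩
    refine ⟨inv_mem hx, ?_, ?_, ?_, ?_⟩
    · simpa [D1.inv_val, qconj] using hx0
    · simpa [D1.inv_val, qconj] using hx1
    · simpa [D1.inv_val, qconj] using hx2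
    · simpa [D1.inv_val, qconj] using hx3

/-- The prime three. -/
def three : Nat.Primes := ⟨3, Nat.prime_three⟩

/-- The level three open subgroup of `D^1(𝔸)`. -/
def K3 : Subgroup D1A := KA ⊓ (Kp3).comap (comp1 three)

/-- `T_m(𝔸)` inside `D^1(𝔸)`. -/
def T1A (m : ℕ) : Subgroup D1A :=
  (torus m ℝ).comap (MonoidHom.fst _ _) ⊓ ⨅ p : Nat.Primes, (torus m ℚ_[p]).comap (comp1 p)

/-- The clopen set of points of `X` whose second coordinate has level three class one. -/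
def E : Set X := {q | ∃ y : GA, (QuotientGroup.mk y : X) = q ∧ ∃ k ∈ K3, ∃ γ : D1 ℚ, y.2 = k * dg γ}

/-- The complex torus element `s e₊ + s⁻¹ e₋` of `T_m(ℂ)`. -/
def tau (m : ℕ) (s : ℂˣ) : D1 ℂ where
  val := ![((s : ℂ) + (s : ℂ)⁻¹) / 2,
    m * (((s : ℂ) - (s : ℂ)⁻¹) / (2 * Complex.I * (Real.sqrt (m ^ 2 + 1) : ℂ))),
    ((s : ℂ) - (s : ℂ)⁻¹) / (2 * Complex.I * (Real.sqrt (m ^ 2 + 1) : ℂ)), 0]
  nrm := by
    have h1 : ((Real.sqrt (m ^ 2 + 1) : ℂ)) ^ 2 = (m : ℂ) ^ 2 + 1 := by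
      rw [← Complex.ofReal_pow, Real.sq_sqrt (by positivity)]; push_cast; ring
    have h2 : ((Real.sqrt (m ^ 2 + 1) : ℂ)) ≠ 0 := by
      rw [Ne, Complex.ofReal_eq_zero]; exact (Real.sqrt_pos.2 (by positivity)).ne'
    have h3 : (s : ℂ) ≠ 0 := s.ne_zero
    set c : ℂ := (Real.sqrt (m ^ 2 + 1) : ℂ) with hc
    simp only [qnorm, Matrix.cons_val_zero, Matrix.cons_val_one, Matrix.cons_val]
    have h4 : (((s : ℂ) - (s : ℂ)⁻¹) / (2 * Complex.I * c)) ^ 2 * ((m : ℂ) ^ 2 + 1) =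
        - (((s : ℂ) - (s : ℂ)⁻¹) / 2) ^ 2 := by
      rw [← h1, div_pow, mul_pow, mul_pow, Complex.I_sq]
      field_simp
    have h5 : (s : ℂ) * (s : ℂ)⁻¹ = 1 := mul_inv_cancel₀ h3
    linear_combination h4 + h5

/-- The real torus element `(cos θ, m sin θ / c, sin θ / c, 0)`, `c = √(m^2+1)`. -/
def tR (m : ℕ) (θ : ℝ) : D1 ℝ where
  val := ![Real.cos θ, m * (Real.sin θ / Real.sqrt (m ^ 2 + 1)),
    Real.sin θ / Real.sqrt (m ^ 2 + 1), 0]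
  nrm := by
    have h1 : (Real.sqrt (m ^ 2 + 1)) ^ 2 = (m : ℝ) ^ 2 + 1 := Real.sq_sqrt (by positivity)
    have h2 : Real.sqrt ((m : ℝ) ^ 2 + 1) ≠ 0 := (Real.sqrt_pos.2 (by positivity)).ne'
    simp only [qnorm, Matrix.cons_val_zero, Matrix.cons_val_one, Matrix.cons_val]
    have h4 : (Real.sin θ / Real.sqrt ((m : ℝ) ^ 2 + 1)) ^ 2 * ((m : ℝ) ^ 2 + 1) =
        Real.sin θ ^ 2 := by
      have h5 : ((m : ℝ) ^ 2 + 1) ≠ 0 := by positivity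
      rw [div_pow, h1, div_mul_cancel₀ _ h5]
    linear_combination h4 + Real.sin_sq_add_cos_sq θ

end AdTorus
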