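import Pool.Agent.AdTorus.MJ16

set_option autoImplicit false

noncomputable section

namespace AdTorus

open Topology Filter RestrictedProduct MeasureTheory

theorem tau_mem_torus (m : ℕ) (s : ℂˣ) : tau m s ∈ torus m ℂ := by
  refine ⟨?_, ?_⟩ <;> simp [tau]

theorem sqrtC_sq (m : ℕ) : ((Real.sqrt (m ^ 2 + 1) : ℂ)) ^ 2 = (m : ℂ) ^ 2 + 1 := by
  rw [← Complex.ofReal_pow, Real.sq_sqrt (by positivity)]; push_cast; ring

theorem sqrtC_ne (m : ℕ) : ((Real.sqrt (m ^ 2 + 1) : ℂ)) ≠ 0 := by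
  rw [Ne, Complex.ofReal_eq_zero]; exact (Real.sqrt_pos.2 (by positivity)).ne'

theorem tau_injective (m : ℕ) : Function.Injective (tau m) := by
  intro s t h
  have h0 : (tau m s).val 0 = (tau m t).val 0 := by rw [h]
  have h2 : (tau m s).val 2 = (tau m t).val 2 := by rw [h]
  simp only [tau, Matrix.cons_val_zero, Matrix.cons_val] at h0 h2
  have hc := sqrtC_ne m
  have hI : (2 * Complex.I * (Real.sqrt (m ^ 2 + 1) : ℂ)) ≠ 0 :=
    mul_ne_zero (mul_ne_zero two_ne_zero Complex.I_ne_zero) hc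
  have h3 : (s : ℂ) - (s : ℂ)⁻¹ = (t : ℂ) - (t : ℂ)⁻¹ := by
    exact (div_left_inj' hI).1 h2
  have h4 : (s : ℂ) + (s : ℂ)⁻¹ = (t : ℂ) + (t : ℂ)⁻¹ := by
    linear_combination 2 * h0
  apply Units.ext
  linear_combination (1 / 2 : ℂ) * h3 + (1 / 2 : ℂ) * h4

theorem tau_surj (m : ℕ) (t : D1 ℂ) (ht : t ∈ torus m ℂ) : ∃ s : ℂˣ, tau m s = t := by
  obtain ⟨h3, h1⟩ := ht
  have hn := t.nrm
  simp only [qnorm] at hn
  rw [h3, h1] at hn
  have hc2 := sqrtC_sq m
  have hc := sqrtC_ne m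
  set c : ℂ := (Real.sqrt (m ^ 2 + 1) : ℂ) with hcdef
  have hprod : (t.val 0 + t.val 2 * Complex.I * c) * (t.val 0 - t.val 2 * Complex.I * c) = 1 := by
    linear_combination hn + t.val 2 ^ 2 * hc2 - t.val 2 ^ 2 * c ^ 2 * Complex.I_sq
  let s : ℂˣ := ⟨t.val 0 + t.val 2 * Complex.I * c, t.val 0 - t.val 2 * Complex.I * c, hprod, by
    rw [mul_comm]; exact hprod⟩
  have hs : (s : ℂ) = t.val 0 + t.val 2 * Complex.I * c := rfl
  have hsi : (s : ℂ)⁻¹ = t.val 0 - t.val 2 * Complex.I * c := by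
    rw [← Units.val_inv_eq_inv_val]; rfl
  have hI := Complex.I_ne_zero
  have hb : ((s : ℂ) - (s : ℂ)⁻¹) / (2 * Complex.I * c) = t.val 2 := by
    rw [hsi, hs, div_eq_iff (mul_ne_zero (mul_ne_zero two_ne_zero hI) hc)]
    ring
  refine ⟨s, ?_⟩
  ext j
  fin_cases j
  · change ((s : ℂ) + (s : ℂ)⁻¹) / 2 = t.val 0
    rw [hsi, hs]; ring
  · change m * (((s : ℂ) - (s : ℂ)⁻¹) / (2 * Complex.I * c)) = t.val 1
    rw [hb, h1]
  · change ((s : ℂ) - (s : ℂ)⁻¹) / (2 * Complex.I * c) = t.val 2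
    exact hb
  · change (0 : ℂ) = t.val 3
    rw [h3]

/-- Over `ℂ` the group `T_{m,n}` is `ℂˣ`, parametrised by Laurent polynomials. -/
theorem torus_iso (m n : ℕ) : ∃ e : ℂˣ ≃* torusPow m n ℂ, ∀ s : ℂˣ,
    ((e s : torusPow m n ℂ) : D1 ℂ × D1 ℂ) = (tau m s, tau m s ^ n) := by
  let f : ℂˣ →* torusPow m n ℂ :=
    { toFun := fun s => ⟨(tau m s, tau m s ^ n), tau_mem_torus m s, rfl⟩
      map_one' := by
        apply Subtype.ext
        simp [J16.tau_one]
      map_mul' := fun s t => by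
        apply Subtype.ext
        have hc : Commute (tau m s) (tau m t) := torus_comm (tau_mem_torus m s) (tau_mem_torus m t)
        simp [J16.tau_mul, hc.mul_pow] }
  have hf : Function.Bijective f := by
    constructor
    · intro s t h
      apply tau_injective m
      have := congrArg (fun x : torusPow m n ℂ => x.1.1) h
      exact this
    · rintro ⟨⟨x, y⟩, hx, hy⟩
      obtain ⟨s, hs⟩ := tau_surj m x hx
      refine ⟨s, Subtype.ext ?_⟩
      change (tau m s, tau m s ^ n) = (x, y)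
      rw [hs]
      exact Prod.ext rfl hy.symm
  exact ⟨MulEquiv.ofBijective f hf, fun s => rfl⟩

end AdTorus
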