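import Pool.Agent.AdTorus.Defs2

set_option autoImplicit false

noncomputable section

namespace AdTorus

open Topology Filter RestrictedProduct MeasureTheory

namespace B1


/-- matrix of determinant one -/
def mk2 (x y z w : ℂ) (h : x * w - y * z = 1) : Matrix.SpecialLinearGroup (Fin 2) ℂ :=
  ⟨!![x, y; z, w], by rw [Matrix.det_fin_two_of]; exact h⟩

theorem mk2_val (x y z w : ℂ) (h : x * w - y * z = 1) : (mk2 x y z w h).1 = !![x, y; z, w] := rfl

theorem exists_sq (c : ℂ) : ∃ b : ℂ, b * b = c := by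
  obtain ⟨b, hb⟩ := IsAlgClosed.exists_pow_nat_eq c (n := 2) (by norm_num)
  exact ⟨b, by rw [← hb]; ring⟩

theorem gen_step (A : Subgroup (Matrix.SpecialLinearGroup (Fin 2) ℂ)) (p q r : ℂ)
    (hq : q ≠ 0) (hr : r ≠ 0)
    (hD : ∀ g : Matrix.SpecialLinearGroup (Fin 2) ℂ, g.1 0 1 = 0 → g.1 1 0 = 0 → g ∈ A)
    (hT : ∀ g : Matrix.SpecialLinearGroup (Fin 2) ℂ,
      (∃ a b : ℂ, g.1 = !![a + b * p, b * q; b * r, a - b * p]) → g ∈ A)
    (z1 z2 z3 z4 : ℂ) (h : z1 * z4 - z2 * z3 = 1) (h1 : z1 ≠ 0) (h2 : z2 ≠ 0) (h3 : z3 ≠ 0)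
    (h4 : z4 ≠ 0) : mk2 z1 z2 z3 z4 h ∈ A := by
  obtain ⟨b, hb⟩ := exists_sq (z2 * z3 / (q * r))
  obtain ⟨a, ha⟩ := exists_sq (1 + b * b * (p * p + q * r))
  have hqr : q * r ≠ 0 := mul_ne_zero hq hr
  have hb2 : b * b * (q * r) = z2 * z3 := by rw [hb]; field_simp
  have hb0 : b ≠ 0 := by
    intro h0
    rw [h0] at hb2
    have : z2 * z3 ≠ 0 := mul_ne_zero h2 h3
    apply this
    rw [← hb2]; ring
  have hy14 : (a + b * p) * (a - b * p) = z1 * z4 := by linear_combination ha + hb2 - h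
  have hy14' : (a + b * p) * (a - b * p) ≠ 0 := by rw [hy14]; exact mul_ne_zero h1 h4
  have hy1 : a + b * p ≠ 0 := left_ne_zero_of_mul hy14'
  have hy2 : b * q ≠ 0 := mul_ne_zero hb0 hq
  have hdet : (a + b * p) * (a - b * p) - b * q * (b * r) = 1 := by
    linear_combination ha
  have hyA : mk2 (a + b * p) (b * q) (b * r) (a - b * p) hdet ∈ A := hT _ ⟨a, b, rfl⟩
  obtain ⟨s, hs⟩ := exists_sq ((z1 / (a + b * p)) * (z2 / (b * q)))
  have hu : z1 / (a + b * p) ≠ 0 := div_ne_zero h1 hy1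
  have hw : z2 / (b * q) ≠ 0 := div_ne_zero h2 hy2
  have hs0 : s ≠ 0 := by
    intro h0
    rw [h0, zero_mul] at hs
    exact (mul_ne_zero hu hw) hs.symm
  set u := z1 / (a + b * p) with hudef
  set w := z2 / (b * q) with hwdef
  have hu1 : u * (a + b * p) = z1 := by rw [hudef]; field_simp
  have hw1 : w * (b * q) = z2 := by rw [hwdef]; field_simp
  set t := u / s with htdef
  have ht0 : t ≠ 0 := div_ne_zero hu hs0
  have hst : s * t = u := by rw [htdef]; field_simp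
  have hswt : s = w * t := by
    have : s * s = w * (s * t) := by rw [hst, hs]; ring
    have h5 : s * (s - w * t) = 0 := by linear_combination this
    rcases mul_eq_zero.1 h5 with h6 | h6
    · exact absurd h6 hs0
    · linear_combination h6
  have hD1 : mk2 s 0 0 s⁻¹ (by rw [mul_inv_cancel₀ hs0]; ring) ∈ A := hD _ rfl rfl
  have hD2 : mk2 t 0 0 t⁻¹ (by rw [mul_inv_cancel₀ ht0]; ring) ∈ A := hD _ rfl rfl
  have hprod : mk2 z1 z2 z3 z4 h = mk2 s 0 0 s⁻¹ (by rw [mul_inv_cancel₀ hs0]; ring) *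
      mk2 (a + b * p) (b * q) (b * r) (a - b * p) hdet *
      mk2 t 0 0 t⁻¹ (by rw [mul_inv_cancel₀ ht0]; ring) := by
    apply Subtype.ext
    rw [Matrix.SpecialLinearGroup.coe_mul, Matrix.SpecialLinearGroup.coe_mul, mk2_val, mk2_val,
      mk2_val, mk2_val, Matrix.mul_fin_two, Matrix.mul_fin_two]
    have e1 : z1 = (s * (a + b * p) + 0 * (b * r)) * t + (s * (b * q) + 0 * (a - b * p)) * 0 := by
      rw [← hu1, ← hst]; ring
    have e2 : z2 = (s * (a + b * p) + 0 * (b * r)) * 0 + (s * (b * q) + 0 * (a - b * p)) * t⁻¹ := by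
      rw [← hw1]
      have : s * (b * q) * t⁻¹ = w * (b * q) := by
        rw [hswt]; field_simp
      linear_combination -this
    have e3 : z3 = (0 * (a + b * p) + s⁻¹ * (b * r)) * t + (0 * (b * q) + s⁻¹ * (a - b * p)) * 0 := by
      have h6 : z2 * z3 = z2 * (s⁻¹ * (b * r) * t) := by
        have h7 : z2 * (s⁻¹ * (b * r) * t) = b * b * (q * r) * (w * t * s⁻¹) := by
          rw [← hw1]; ring
        rw [h7, ← hswt, mul_inv_cancel₀ hs0, mul_one, hb2]
      have h8 := mul_left_cancel₀ h2 h6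
      linear_combination h8
    have e4 : z4 = (0 * (a + b * p) + s⁻¹ * (b * r)) * 0 + (0 * (b * q) + s⁻¹ * (a - b * p)) * t⁻¹ := by
      have h6 : z1 * z4 = z1 * (s⁻¹ * (a - b * p) * t⁻¹) := by
        have h7 : z1 * (s⁻¹ * (a - b * p) * t⁻¹) =
            (a + b * p) * (a - b * p) * ((s * t) * (s⁻¹ * t⁻¹)) := by
          rw [← hu1, ← hst]; ring
        have h9 : (s * t) * (s⁻¹ * t⁻¹) = 1 := by field_simp
        rw [h7, h9, mul_one, hy14]
      have h8 := mul_left_cancel₀ h1 h6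
      linear_combination h8
    rw [← e1, ← e2, ← e3, ← e4]
  rw [hprod]
  exact A.mul_mem (A.mul_mem hD1 hyA) hD2

/-- A subgroup of `SL(2,ℂ)` containing all diagonal matrices and all determinant one elements of
`ℂ[W]`, `W = (p q; r -p)` with `q, r ≠ 0`, is everything. -/
theorem sl2_gen (A : Subgroup (Matrix.SpecialLinearGroup (Fin 2) ℂ)) (p q r : ℂ)
    (hq : q ≠ 0) (hr : r ≠ 0)
    (hD : ∀ g : Matrix.SpecialLinearGroup (Fin 2) ℂ, g.1 0 1 = 0 → g.1 1 0 = 0 → g ∈ A)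
    (hT : ∀ g : Matrix.SpecialLinearGroup (Fin 2) ℂ,
      (∃ a b : ℂ, g.1 = !![a + b * p, b * q; b * r, a - b * p]) → g ∈ A) : A = ⊤ := by
  rw [eq_top_iff]
  intro z _
  obtain ⟨z1, hz1⟩ : ∃ c, c = z.1 0 0 := ⟨_, rfl⟩
  obtain ⟨z2, hz2⟩ : ∃ c, c = z.1 0 1 := ⟨_, rfl⟩
  obtain ⟨z3, hz3⟩ : ∃ c, c = z.1 1 0 := ⟨_, rfl⟩
  obtain ⟨z4, hz4⟩ : ∃ c, c = z.1 1 1 := ⟨_, rfl⟩
  have hdet : z1 * z4 - z2 * z3 = 1 := by
    have h := z.2
    rw [Matrix.det_fin_two] at h
    rw [hz1, hz2, hz3, hz4]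
    exact h
  have hzval : z.1 = !![z1, z2; z3, z4] := by
    rw [hz1, hz2, hz3, hz4]
    exact Matrix.eta_fin_two _
  obtain ⟨y, hy⟩ := Infinite.exists_notMem_finset ({0, -z1 / z2, -z3 / z4} : Finset ℂ)
  simp only [Finset.mem_insert, Finset.mem_singleton, not_or] at hy
  obtain ⟨hy0, hy1, hy2⟩ := hy
  have hc1 : z1 + z2 * y ≠ 0 := by
    intro h0
    by_cases h2 : z2 = 0
    · rw [h2] at h0 hdet
      have : z1 = 0 := by linear_combination h0
      rw [this] at hdet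
      simp at hdet
    · apply hy1
      rw [eq_div_iff h2]
      linear_combination h0
  have hc2 : z3 + z4 * y ≠ 0 := by
    intro h0
    by_cases h2 : z4 = 0
    · rw [h2] at h0 hdet
      have : z3 = 0 := by linear_combination h0
      rw [this] at hdet
      simp at hdet
    · apply hy2
      rw [eq_div_iff h2]
      linear_combination h0
  obtain ⟨x, hx⟩ := Infinite.exists_notMem_finset
    ({0, -1 / y, -z2 / (z1 + z2 * y), -z4 / (z3 + z4 * y)} : Finset ℂ)
  simp only [Finset.mem_insert, Finset.mem_singleton, not_or] at hx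
  obtain ⟨hx0, hx1, hx2, hx3⟩ := hx
  have hc3 : 1 + x * y ≠ 0 := by
    intro h0
    apply hx1
    rw [eq_div_iff hy0]
    linear_combination h0
  have hc4 : x * (z1 + z2 * y) + z2 ≠ 0 := by
    intro h0
    apply hx2
    rw [eq_div_iff hc1]
    linear_combination h0
  have hc5 : x * (z3 + z4 * y) + z4 ≠ 0 := by
    intro h0
    apply hx3
    rw [eq_div_iff hc2]
    linear_combination h0
  have hd1 : (z1 + z2 * y) * (x * (z3 + z4 * y) + z4) -
      (x * (z1 + z2 * y) + z2) * (z3 + z4 * y) = 1 := by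
    linear_combination hdet
  have hd2 : (1 + x * y) * 1 - (-x) * (-y) = 1 := by ring
  have hm1 := gen_step A p q r hq hr hD hT _ _ _ _ hd1 hc1 hc4 hc2 hc5
  have hm2 := gen_step A p q r hq hr hD hT _ _ _ _ hd2 hc3 (neg_ne_zero.2 hx0)
    (neg_ne_zero.2 hy0) one_ne_zero
  have hprod : z = mk2 _ _ _ _ hd1 * mk2 _ _ _ _ hd2 := by
    apply Subtype.ext
    rw [Matrix.SpecialLinearGroup.coe_mul, mk2_val, mk2_val, Matrix.mul_fin_two, hzval]
    congr 1
    funext i
    fin_cases i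
    · funext j
      fin_cases j
      · simp; ring
      · simp; ring
    · funext j
      fin_cases j
      · simp; ring
      · simp; ring
  rw [hprod]
  exact A.mul_mem hm1 hm2


end B1

end AdTorus
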