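import Pool.Agent.AdTorus.Defs2

set_option autoImplicit false

noncomputable section

namespace AdTorus

open Topology Filter RestrictedProduct MeasureTheory

namespace B2



/-- quaternion coordinates of a complex two by two matrix -/
def psiM (M : Matrix (Fin 2) (Fin 2) ℂ) : Fin 4 → ℂ :=
  ![(M 0 0 + M 1 1) / 2, -(Complex.I * (M 0 0 - M 1 1)) / 2, (M 0 1 - M 1 0) / 2,
    -(Complex.I * (M 0 1 + M 1 0)) / 2]

/-- the homomorphism to the norm one quaternions -/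
def psiH : Matrix.SpecialLinearGroup (Fin 2) ℂ →* D1 ℂ := MonoidHom.mk' (fun M => ⟨psiM M.1, by
    have hdet : M.1 0 0 * M.1 1 1 - M.1 0 1 * M.1 1 0 = 1 := by
      have := M.2
      rwa [Matrix.det_fin_two] at this
    simp only [qnorm, psiM, Matrix.cons_val_zero, Matrix.cons_val_one, Matrix.cons_val]
    linear_combination hdet + ((M.1 0 0 - M.1 1 1) ^ 2 / 4 + (M.1 0 1 + M.1 1 0) ^ 2 / 4) * Complex.I_sq⟩) (by
    intro M N
    apply D1.ext'
    intro j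
    rw [D1.mul_val]
    simp only [psiM, qmul, Matrix.SpecialLinearGroup.coe_mul, Matrix.mul_apply, Fin.sum_univ_two]
    fin_cases j
    · simp only [Fin.zero_eta, Matrix.cons_val_zero, Matrix.cons_val_one, Matrix.cons_val]
      linear_combination (((M.1 0 0 - M.1 1 1) * (N.1 0 0 - N.1 1 1) +
        (M.1 0 1 + M.1 1 0) * (N.1 0 1 + N.1 1 0)) / 4) * Complex.I_sq
    · simp only [Fin.mk_one, Matrix.cons_val_zero, Matrix.cons_val_one, Matrix.cons_val]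
      ring
    · simp only [Fin.reduceFinMk, Matrix.cons_val_zero, Matrix.cons_val_one, Matrix.cons_val]
      linear_combination (((M.1 0 0 - M.1 1 1) * (N.1 0 1 + N.1 1 0) -
        (M.1 0 1 + M.1 1 0) * (N.1 0 0 - N.1 1 1)) / 4) * Complex.I_sq
    · simp only [Fin.reduceFinMk, Matrix.cons_val_zero, Matrix.cons_val_one, Matrix.cons_val]
      ring)

theorem psiH_val (M : Matrix.SpecialLinearGroup (Fin 2) ℂ) : (psiH M).val = psiM M.1 := rfl

theorem psiH_surj (q : D1 ℂ) : ∃ M, psiH M = q := by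
  have hq := q.nrm
  simp only [qnorm] at hq
  refine ⟨⟨!![q.val 0 + Complex.I * q.val 1, q.val 2 + Complex.I * q.val 3;
    -q.val 2 + Complex.I * q.val 3, q.val 0 - Complex.I * q.val 1], ?_⟩, ?_⟩
  · rw [Matrix.det_fin_two_of]
    linear_combination hq - (q.val 1 ^ 2 + q.val 3 ^ 2) * Complex.I_sq
  · apply D1.ext'
    intro j
    rw [psiH_val]
    simp only [psiM, Matrix.of_apply, Matrix.cons_val_zero, Matrix.cons_val_one, Matrix.cons_val]
    fin_cases j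
    · simp only [Fin.zero_eta, Matrix.cons_val_zero, Matrix.cons_val_one, Matrix.cons_val]
      ring
    · simp only [Fin.mk_one, Matrix.cons_val_zero, Matrix.cons_val_one, Matrix.cons_val]
      linear_combination (-q.val 1) * Complex.I_sq
    · simp only [Fin.reduceFinMk, Matrix.cons_val_zero, Matrix.cons_val_one, Matrix.cons_val]
      ring
    · simp only [Fin.reduceFinMk, Matrix.cons_val_zero, Matrix.cons_val_one, Matrix.cons_val]
      linear_combination (-q.val 3) * Complex.I_sq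

theorem psiM_of (a b : ℂ) (u : Fin 3 → ℂ) (M : Matrix (Fin 2) (Fin 2) ℂ)
    (h00 : M 0 0 = a + b * (Complex.I * u 0)) (h01 : M 0 1 = b * (u 1 + Complex.I * u 2))
    (h10 : M 1 0 = b * (-u 1 + Complex.I * u 2)) (h11 : M 1 1 = a - b * (Complex.I * u 0)) :
    psiM M = ![a, b * u 0, b * u 1, b * u 2] := by
  unfold psiM
  rw [h00, h01, h10, h11]
  funext j
  fin_cases j
  · simp only [Fin.zero_eta, Matrix.cons_val_zero, Matrix.cons_val_one, Matrix.cons_val]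
    ring
  · simp only [Fin.mk_one, Matrix.cons_val_zero, Matrix.cons_val_one, Matrix.cons_val]
    linear_combination (-(b * u 0)) * Complex.I_sq
  · simp only [Fin.reduceFinMk, Matrix.cons_val_zero, Matrix.cons_val_one, Matrix.cons_val]
    ring
  · simp only [Fin.reduceFinMk, Matrix.cons_val_zero, Matrix.cons_val_one, Matrix.cons_val]
    linear_combination (-(b * u 2)) * Complex.I_sq

theorem conj_entries (x0 x1 y0 y1 : ℂ) (hdet : x0 * y1 - y0 * x1 = 1)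
    (g h : Matrix.SpecialLinearGroup (Fin 2) ℂ) (hg : g.1 = !![x0, y0; x1, y1]) :
    (g * h * g⁻¹).1 0 0 = (x0 * h.1 0 0 + y0 * h.1 1 0) * y1 - (x0 * h.1 0 1 + y0 * h.1 1 1) * x1 ∧
    (g * h * g⁻¹).1 0 1 = -(x0 * h.1 0 0 + y0 * h.1 1 0) * y0 + (x0 * h.1 0 1 + y0 * h.1 1 1) * x0 ∧
    (g * h * g⁻¹).1 1 0 = (x1 * h.1 0 0 + y1 * h.1 1 0) * y1 - (x1 * h.1 0 1 + y1 * h.1 1 1) * x1 ∧
    (g * h * g⁻¹).1 1 1 = -(x1 * h.1 0 0 + y1 * h.1 1 0) * y0 + (x1 * h.1 0 1 + y1 * h.1 1 1) * x0 := by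
  have e : (g * h * g⁻¹).1 = g.1 * h.1 * g.1.adjugate := by
    rw [Matrix.SpecialLinearGroup.coe_mul, Matrix.SpecialLinearGroup.coe_mul,
      Matrix.SpecialLinearGroup.coe_inv]
  rw [e, hg, Matrix.adjugate_fin_two_of]
  refine ⟨?_, ?_, ?_, ?_⟩ <;>
  · simp only [Matrix.mul_apply, Fin.sum_univ_two, Matrix.of_apply, Matrix.cons_val_zero,
      Matrix.cons_val_one, Matrix.cons_val, Matrix.cons_val']
    ring


theorem gen_D1
    (sl2_gen : ∀ (A : Subgroup (Matrix.SpecialLinearGroup (Fin 2) ℂ)) (p q r : ℂ),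
      q ≠ 0 → r ≠ 0 →
      (∀ g : Matrix.SpecialLinearGroup (Fin 2) ℂ, g.1 0 1 = 0 → g.1 1 0 = 0 → g ∈ A) →
      (∀ g : Matrix.SpecialLinearGroup (Fin 2) ℂ,
        (∃ a b : ℂ, g.1 = !![a + b * p, b * q; b * r, a - b * p]) → g ∈ A) → A = ⊤)
    (A : Subgroup (D1 ℂ)) (u v : Fin 3 → ℂ)
    (hu : u 0 ^ 2 + u 1 ^ 2 + u 2 ^ 2 ≠ 0)
    (huv : (u 0 * v 0 + u 1 * v 1 + u 2 * v 2) ^ 2 ≠
      (u 0 ^ 2 + u 1 ^ 2 + u 2 ^ 2) * (v 0 ^ 2 + v 1 ^ 2 + v 2 ^ 2))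
    (hA : ∀ g : D1 ℂ, (∃ a b : ℂ, g.val = ![a, b * u 0, b * u 1, b * u 2]) → g ∈ A)
    (hA' : ∀ g : D1 ℂ, (∃ a b : ℂ, g.val = ![a, b * v 0, b * v 1, b * v 2]) → g ∈ A) :
    A = ⊤ := by
  obtain ⟨z, hz⟩ := IsAlgClosed.exists_pow_nat_eq (-(u 0 ^ 2 + u 1 ^ 2 + u 2 ^ 2)) (show 0 < 2 by norm_num)
  have hz0 : z ≠ 0 := by
    rintro rfl
    apply hu
    linear_combination hz
  obtain ⟨l, hl, hl0, hal⟩ : ∃ l : ℂ, l ^ 2 = -(u 0 ^ 2 + u 1 ^ 2 + u 2 ^ 2) ∧ l ≠ 0 ∧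
      Complex.I * u 0 + l ≠ 0 := by
    by_cases h : Complex.I * u 0 + z = 0
    · refine ⟨-z, by rw [neg_sq]; exact hz, neg_ne_zero.mpr hz0, ?_⟩
      intro h2
      apply hz0
      have : 2 * z = 0 := by linear_combination h - h2
      exact (mul_eq_zero.mp this).resolve_left two_ne_zero
    · exact ⟨z, hz, hz0, h⟩
  obtain ⟨α, hα⟩ : ∃ α, α = Complex.I * u 0 := ⟨_, rfl⟩
  obtain ⟨β, hβ⟩ : ∃ β, β = u 1 + Complex.I * u 2 := ⟨_, rfl⟩
  obtain ⟨γ, hγ⟩ : ∃ γ, γ = -u 1 + Complex.I * u 2 := ⟨_, rfl⟩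
  obtain ⟨α', hα'⟩ : ∃ α', α' = Complex.I * v 0 := ⟨_, rfl⟩
  obtain ⟨β', hβ'⟩ : ∃ β', β' = v 1 + Complex.I * v 2 := ⟨_, rfl⟩
  obtain ⟨γ', hγ'⟩ : ∃ γ', γ' = -v 1 + Complex.I * v 2 := ⟨_, rfl⟩
  have hW : α ^ 2 + β * γ = l ^ 2 := by
    rw [hα, hβ, hγ, hl]
    linear_combination (u 0 ^ 2 + u 2 ^ 2) * Complex.I_sq
  have hV : α' ^ 2 + β' * γ' = -(v 0 ^ 2 + v 1 ^ 2 + v 2 ^ 2) := by
    rw [hα', hβ', hγ']
    linear_combination (v 0 ^ 2 + v 2 ^ 2) * Complex.I_sq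
  have hWV : α * α' + (β * γ' + γ * β') / 2 = -(u 0 * v 0 + u 1 * v 1 + u 2 * v 2) := by
    rw [hα', hβ', hγ', hα, hβ, hγ]
    linear_combination (u 0 * v 0 + u 2 * v 2) * Complex.I_sq
  rw [← hα] at hal
  obtain ⟨x0, x1, y0, y1, hdet, e1, e3, e4⟩ : ∃ x0 x1 y0 y1 : ℂ, x0 * y1 - y0 * x1 = 1 ∧
      α = l * (x0 * y1 + y0 * x1) ∧ β = -2 * l * (x0 * y0) ∧ γ = 2 * l * (x1 * y1) := by
    refine ⟨α + l, γ, -β / (2 * l * (α + l)), 1 / (2 * l), ?_, ?_, ?_, ?_⟩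
    · field_simp
      linear_combination hW
    · field_simp
      linear_combination hW
    · field_simp
    · field_simp
  have hg : Matrix.det !![x0, y0; x1, y1] = 1 := by
    rw [Matrix.det_fin_two_of]
    exact hdet
  obtain ⟨g, hgd⟩ : ∃ g : Matrix.SpecialLinearGroup (Fin 2) ℂ, g.1 = !![x0, y0; x1, y1] :=
    ⟨⟨_, hg⟩, rfl⟩
  obtain ⟨p, hp⟩ : ∃ p, p = y1 * (α' * x0 + β' * x1) - y0 * (γ' * x0 - α' * x1) := ⟨_, rfl⟩
  obtain ⟨q, hq⟩ : ∃ q, q = 2 * α' * y0 * y1 + β' * y1 ^ 2 - γ' * y0 ^ 2 := ⟨_, rfl⟩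
  obtain ⟨r, hr⟩ : ∃ r, r = -2 * α' * x0 * x1 - β' * x1 ^ 2 + γ' * x0 ^ 2 := ⟨_, rfl⟩
  have hlp : l * p = -(u 0 * v 0 + u 1 * v 1 + u 2 * v 2) := by
    rw [← hWV, e1, e3, e4, hp]
    ring
  have hpqr : p ^ 2 + q * r = -(v 0 ^ 2 + v 1 ^ 2 + v 2 ^ 2) := by
    rw [← hV, hp, hq, hr]
    linear_combination ((α' ^ 2 + β' * γ') * (x0 * y1 - y0 * x1 + 1)) * hdet
  have hqr : l ^ 2 * (q * r) = (u 0 ^ 2 + u 1 ^ 2 + u 2 ^ 2) * (v 0 ^ 2 + v 1 ^ 2 + v 2 ^ 2) -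
      (u 0 * v 0 + u 1 * v 1 + u 2 * v 2) ^ 2 := by
    linear_combination l ^ 2 * hpqr - (v 0 ^ 2 + v 1 ^ 2 + v 2 ^ 2) * hl -
      (l * p - (u 0 * v 0 + u 1 * v 1 + u 2 * v 2)) * hlp
  have hqr0 : q * r ≠ 0 := by
    intro h0
    rw [h0, mul_zero] at hqr
    apply huv
    linear_combination hqr
  have htop := sl2_gen (A.comap (psiH.comp (MulAut.conj g).toMonoidHom)) p q r
    (left_ne_zero_of_mul hqr0) (right_ne_zero_of_mul hqr0)
    (by
      intro h h01 h10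
      rw [Subgroup.mem_comap]
      apply hA
      obtain ⟨c00, c01, c10, c11⟩ := conj_entries x0 x1 y0 y1 hdet g h hgd
      rw [h01, h10] at c00 c01 c10 c11
      refine ⟨(h.1 0 0 + h.1 1 1) / 2, (h.1 0 0 - h.1 1 1) / (2 * l), ?_⟩
      show psiM ((g * h * g⁻¹).1) = _
      apply psiM_of
      · rw [c00, ← hα, e1]
        field_simp
        linear_combination (h.1 0 0 + h.1 1 1) * hdet
      · rw [c01, ← hβ, e3]
        field_simp
        ring
      · rw [c10, ← hγ, e4]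
        field_simp
        ring
      · rw [c11, ← hα, e1]
        field_simp
        linear_combination (h.1 0 0 + h.1 1 1) * hdet)
    (by
      intro h hh
      obtain ⟨a, b, hab⟩ := hh
      have k00 : h.1 0 0 = a + b * p := by rw [hab]; rfl
      have k01 : h.1 0 1 = b * q := by rw [hab]; rfl
      have k10 : h.1 1 0 = b * r := by rw [hab]; rfl
      have k11 : h.1 1 1 = a - b * p := by rw [hab]; rfl
      rw [Subgroup.mem_comap]
      apply hA'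
      obtain ⟨c00, c01, c10, c11⟩ := conj_entries x0 x1 y0 y1 hdet g h hgd
      rw [k00, k01, k10, k11, hp, hq, hr] at c00 c01 c10 c11
      refine ⟨a, b, ?_⟩
      show psiM ((g * h * g⁻¹).1) = _
      apply psiM_of
      · rw [c00, ← hα']
        linear_combination (a + b * α' * (x0 * y1 - y0 * x1 + 1)) * hdet
      · rw [c01, ← hβ']
        linear_combination (b * β' * (x0 * y1 - y0 * x1 + 1)) * hdet
      · rw [c10, ← hγ']
        linear_combination (b * γ' * (x0 * y1 - y0 * x1 + 1)) * hdet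
      · rw [c11, ← hα']
        linear_combination (a - b * α' * (x0 * y1 - y0 * x1 + 1)) * hdet)
  rw [eq_top_iff]
  intro x _
  obtain ⟨M, hM⟩ := psiH_surj x
  have hmem : g⁻¹ * M * g ∈ (A.comap (psiH.comp (MulAut.conj g).toMonoidHom)) := by
    rw [htop]
    trivial
  rw [Subgroup.mem_comap] at hmem
  have he : (psiH.comp (MulAut.conj g).toMonoidHom) (g⁻¹ * M * g) = x := by
    show psiH (g * (g⁻¹ * M * g) * g⁻¹) = x
    rw [← hM]
    congr 1
    group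
  rwa [he] at hmem


end B2

end AdTorus
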