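import Pool.Agent.AdTorus.Defs2

set_option autoImplicit false

noncomputable section

namespace AdTorus

open Topology Filter RestrictedProduct MeasureTheory

namespace B3




/-- auxiliary: the vector part of `x (0, m, 1, 0) x⁻¹`. -/
def gen_tau_u {R : Type} [CommRing R] (x : Fin 4 → R) (m : R) : Fin 3 → R :=
  fun i => qmul (qmul x ![0, m, 1, 0]) (qconj x) i.succ

theorem gen_tau_conj {R : Type} [CommRing R] (x : Fin 4 → R) (m a b : R) :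
    qmul (qmul x ![a, m * b, b, 0]) (qconj x) =
      ![a * qnorm x, b * gen_tau_u x m 0, b * gen_tau_u x m 1, b * gen_tau_u x m 2] := by
  funext j
  fin_cases j <;> simp [qmul, qconj, qnorm, gen_tau_u] <;> ring

theorem gen_tau_norm {R : Type} [CommRing R] (x : Fin 4 → R) (m : R) :
    gen_tau_u x m 0 ^ 2 + gen_tau_u x m 1 ^ 2 + gen_tau_u x m 2 ^ 2 =
      (m ^ 2 + 1) * qnorm x ^ 2 := by
  simp [qmul, qconj, qnorm, gen_tau_u]
  ring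

theorem gen_tau_cast {R S : Type} [CommRing R] [CommRing S] (f : R →+* S) (x : Fin 4 → R) (m : R)
    (i : Fin 3) : gen_tau_u (fun j => f (x j)) (f m) i = f (gen_tau_u x m i) := by
  fin_cases i <;> simp [qmul, qconj, gen_tau_u]

theorem gen_tau_mem (A : Subgroup (D1 ℂ)) (m : ℕ) (γ : D1 ℚ)
    (h1 : ∀ s : ℂˣ, D1.map (algebraMap ℚ ℂ) γ * tau m s * (D1.map (algebraMap ℚ ℂ) γ)⁻¹ ∈ A)
    (g : D1 ℂ) (hg : ∃ a b : ℂ, g.val = ![a,
      b * gen_tau_u (D1.map (algebraMap ℚ ℂ) γ).val m 0,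
      b * gen_tau_u (D1.map (algebraMap ℚ ℂ) γ).val m 1,
      b * gen_tau_u (D1.map (algebraMap ℚ ℂ) γ).val m 2]) : g ∈ A := by
  obtain ⟨a, b, hab⟩ := hg
  have hn := gen_tau_norm (D1.map (algebraMap ℚ ℂ) γ).val (m : ℂ)
  rw [(D1.map (algebraMap ℚ ℂ) γ).nrm, one_pow, mul_one] at hn
  have hgn := g.nrm
  rw [hab] at hgn
  simp only [qnorm, Matrix.cons_val_zero, Matrix.cons_val_one, Matrix.cons_val] at hgn
  have hab1 : a ^ 2 + b ^ 2 * ((m : ℂ) ^ 2 + 1) = 1 := by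
    rw [← hn]
    linear_combination hgn
  obtain ⟨c, hc⟩ : ∃ c : ℂ, c = (Real.sqrt (m ^ 2 + 1) : ℂ) := ⟨_, rfl⟩
  have hc2 : c ^ 2 = (m : ℂ) ^ 2 + 1 := by
    rw [hc, ← Complex.ofReal_pow, Real.sq_sqrt (by positivity)]
    push_cast
    ring
  have hc0 : c ≠ 0 := by
    rw [hc, Ne, Complex.ofReal_eq_zero]
    exact (Real.sqrt_pos.2 (by positivity)).ne'
  have hI : Complex.I ≠ 0 := Complex.I_ne_zero
  have hss : (a + b * c * Complex.I) * (a - b * c * Complex.I) = 1 := by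
    have : (a + b * c * Complex.I) * (a - b * c * Complex.I) =
        a ^ 2 - b ^ 2 * c ^ 2 * Complex.I ^ 2 := by ring
    rw [this, Complex.I_sq, hc2]
    linear_combination hab1
  obtain ⟨s, hs⟩ : ∃ s : ℂˣ, (s : ℂ) = a + b * c * Complex.I :=
    ⟨⟨a + b * c * Complex.I, a - b * c * Complex.I, hss, by rw [mul_comm]; exact hss⟩, rfl⟩
  have hsi : (s : ℂ)⁻¹ = a - b * c * Complex.I := by
    rw [hs]
    exact inv_eq_of_mul_eq_one_right hss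
  have htau : (tau m s).val = ![a, (m : ℂ) * b, b, 0] := by
    show ![((s : ℂ) + (s : ℂ)⁻¹) / 2,
      m * (((s : ℂ) - (s : ℂ)⁻¹) / (2 * Complex.I * (Real.sqrt (m ^ 2 + 1) : ℂ))),
      ((s : ℂ) - (s : ℂ)⁻¹) / (2 * Complex.I * (Real.sqrt (m ^ 2 + 1) : ℂ)), 0] = _
    rw [← hc, hsi, hs]
    have e1 : (a + b * c * Complex.I + (a - b * c * Complex.I)) / 2 = a := by ring
    have e2 : (a + b * c * Complex.I - (a - b * c * Complex.I)) / (2 * Complex.I * c) = b := by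
      field_simp
      ring
    rw [e1, e2]
  have hfin : g = D1.map (algebraMap ℚ ℂ) γ * tau m s * (D1.map (algebraMap ℚ ℂ) γ)⁻¹ := by
    apply D1.ext'
    intro j
    rw [D1.mul_val, D1.mul_val, D1.inv_val, htau, gen_tau_conj,
      (D1.map (algebraMap ℚ ℂ) γ).nrm, mul_one, hab]
  rw [hfin]
  exact h1 s




theorem gen_tau
    (gen_D1 : ∀ (A : Subgroup (D1 ℂ)) (u v : Fin 3 → ℂ),
      u 0 ^ 2 + u 1 ^ 2 + u 2 ^ 2 ≠ 0 →
      (u 0 * v 0 + u 1 * v 1 + u 2 * v 2) ^ 2 ≠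
        (u 0 ^ 2 + u 1 ^ 2 + u 2 ^ 2) * (v 0 ^ 2 + v 1 ^ 2 + v 2 ^ 2) →
      (∀ g : D1 ℂ, (∃ a b : ℂ, g.val = ![a, b * u 0, b * u 1, b * u 2]) → g ∈ A) →
      (∀ g : D1 ℂ, (∃ a b : ℂ, g.val = ![a, b * v 0, b * v 1, b * v 2]) → g ∈ A) →
      A = ⊤)
    (A : Subgroup (D1 ℂ)) (m m' : ℕ) (γ γ' : D1 ℚ)
    (hsq : ¬ IsSquare ((m ^ 2 + 1) * (m' ^ 2 + 1)))
    (h1 : ∀ s : ℂˣ, D1.map (algebraMap ℚ ℂ) γ * tau m s * (D1.map (algebraMap ℚ ℂ) γ)⁻¹ ∈ A)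
    (h2 : ∀ s : ℂˣ, D1.map (algebraMap ℚ ℂ) γ' * tau m' s * (D1.map (algebraMap ℚ ℂ) γ')⁻¹ ∈ A) :
    A = ⊤ := by
  have hn := gen_tau_norm (D1.map (algebraMap ℚ ℂ) γ).val (m : ℂ)
  rw [(D1.map (algebraMap ℚ ℂ) γ).nrm, one_pow, mul_one] at hn
  have hn' := gen_tau_norm (D1.map (algebraMap ℚ ℂ) γ').val (m' : ℂ)
  rw [(D1.map (algebraMap ℚ ℂ) γ').nrm, one_pow, mul_one] at hn'
  refine gen_D1 A (gen_tau_u (D1.map (algebraMap ℚ ℂ) γ).val m)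
    (gen_tau_u (D1.map (algebraMap ℚ ℂ) γ').val m') ?_ ?_
    (gen_tau_mem A m γ h1) (gen_tau_mem A m' γ' h2)
  · rw [hn]
    have : ((m : ℂ) ^ 2 + 1) = ((m ^ 2 + 1 : ℕ) : ℂ) := by push_cast; ring
    rw [this]
    exact Nat.cast_ne_zero.2 (Nat.succ_ne_zero (m ^ 2))
  · rw [hn, hn']
    intro heq
    apply hsq
    have hcast : ∀ (x : D1 ℚ) (k : ℕ) (i : Fin 3),
        gen_tau_u (D1.map (algebraMap ℚ ℂ) x).val (k : ℂ) i =
          ((gen_tau_u x.val (k : ℚ) i : ℚ) : ℂ) := by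
      intro x k i
      have e := gen_tau_cast (algebraMap ℚ ℂ) x.val (k : ℚ) i
      rw [map_natCast] at e
      exact e
    rw [hcast, hcast, hcast, hcast, hcast, hcast] at heq
    have h3 : ((gen_tau_u γ.val (m : ℚ) 0 * gen_tau_u γ'.val (m' : ℚ) 0 +
        gen_tau_u γ.val (m : ℚ) 1 * gen_tau_u γ'.val (m' : ℚ) 1 +
        gen_tau_u γ.val (m : ℚ) 2 * gen_tau_u γ'.val (m' : ℚ) 2) ^ 2 : ℚ) =
        (((m ^ 2 + 1) * (m' ^ 2 + 1) : ℕ) : ℚ) := by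
      have h4 : (((gen_tau_u γ.val (m : ℚ) 0 * gen_tau_u γ'.val (m' : ℚ) 0 +
        gen_tau_u γ.val (m : ℚ) 1 * gen_tau_u γ'.val (m' : ℚ) 1 +
        gen_tau_u γ.val (m : ℚ) 2 * gen_tau_u γ'.val (m' : ℚ) 2) ^ 2 : ℚ) : ℂ) =
        ((((m ^ 2 + 1) * (m' ^ 2 + 1) : ℕ) : ℚ) : ℂ) := by
        push_cast
        exact heq
      exact_mod_cast h4
    rw [← Rat.isSquare_natCast_iff, ← h3, sq]
    exact ⟨_, rfl⟩


end B3

end AdTorus
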