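import Pool.Agent.AdTorus.Defs2

set_option autoImplicit false

noncomputable section

namespace AdTorus

open Topology Filter RestrictedProduct MeasureTheory

namespace B4



theorem fermat_not_square {i j : ℕ} (hij : i ≠ j) :
    ¬ IsSquare (((2 ^ 2 ^ i) ^ 2 + 1) * ((2 ^ 2 ^ j) ^ 2 + 1)) := by
  have hF : ∀ i : ℕ, (2 ^ 2 ^ i) ^ 2 + 1 = Nat.fermatNumber (i + 1) := by
    intro i
    rw [Nat.fermatNumber, ← pow_mul, pow_succ]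
  rintro ⟨r, hr⟩
  have hco : Nat.Coprime ((2 ^ 2 ^ i) ^ 2 + 1) ((2 ^ 2 ^ j) ^ 2 + 1) := by
    rw [hF, hF]
    exact Nat.coprime_fermatNumber_fermatNumber (by omega)
  have hunit : IsUnit (GCDMonoid.gcd ((2 ^ 2 ^ i) ^ 2 + 1) ((2 ^ 2 ^ j) ^ 2 + 1)) := by
    have : GCDMonoid.gcd ((2 ^ 2 ^ i) ^ 2 + 1) ((2 ^ 2 ^ j) ^ 2 + 1) =
      Nat.gcd ((2 ^ 2 ^ i) ^ 2 + 1) ((2 ^ 2 ^ j) ^ 2 + 1) := rfl
    rw [this, hco]
    exact isUnit_one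
  obtain ⟨d, hd⟩ := exists_eq_pow_of_mul_eq_pow hunit (k := 2) (c := r) (by rw [hr, sq])
  have hx : 0 < 2 ^ 2 ^ i := by positivity
  have h1 : 2 ^ 2 ^ i < d := by
    by_contra h
    push Not at h
    have := Nat.pow_le_pow_left h 2
    omega
  have h2 : (2 ^ 2 ^ i + 1) ^ 2 ≤ d ^ 2 := Nat.pow_le_pow_left h1 2
  nlinarith


end B4

end AdTorus
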