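import Pool.Agent.AdTorus.Defs2

set_option autoImplicit false

noncomputable section

namespace AdTorus

open Topology Filter RestrictedProduct MeasureTheory

namespace J1


/-- Matrix of the left multiplication by `y`. -/
def lmat {R : Type} [CommRing R] (y : Fin 4 → R) : Matrix (Fin 4) (Fin 4) R :=
  !![y 0, - y 1, - y 2, - y 3;
     y 1, y 0, - y 3, y 2;
     y 2, y 3, y 0, - y 1;
     y 3, - y 2, y 1, y 0]

theorem lmat_mulVec {R : Type} [CommRing R] (y z : Fin 4 → R) :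
    (lmat y).mulVec z = qmul y z := by
  funext i
  fin_cases i <;>
    simp [lmat, qmul, Matrix.mulVec, dotProduct, Fin.sum_univ_four] <;> ring

theorem lmat_mul {R : Type} [CommRing R] (y : Fin 4 → R) (h : qnorm y = 0) :
    (lmat y).transpose * lmat y = 0 := by
  have h' : y 0 ^ 2 + y 1 ^ 2 + y 2 ^ 2 + y 3 ^ 2 = 0 := h
  ext i j
  fin_cases i <;> fin_cases j <;>
    simp [lmat, Matrix.mul_apply, Fin.sum_univ_four] <;> first | (linear_combination h') | ring

theorem lmat_rank {p : ℕ} [Fact p.Prime] (y : Fin 4 → ZMod p) (h : qnorm y = 0) :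
    (lmat y).rank ≤ 2 := by
  have h1 := Matrix.rank_add_rank_le_card_of_mul_eq_zero (lmat_mul y h)
  rw [Matrix.rank_transpose] at h1
  simp only [Fintype.card_fin] at h1
  omega

theorem range_card {p : ℕ} [Fact p.Prime] (y : Fin 4 → ZMod p) (h : qnorm y = 0) :
    Nat.card (LinearMap.range (lmat y).mulVecLin) ≤ p ^ 2 := by
  have h1 : Nat.card (LinearMap.range (lmat y).mulVecLin) =
      p ^ Module.finrank (ZMod p) (LinearMap.range (lmat y).mulVecLin) := by
    classical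
    have : Fintype (LinearMap.range (lmat y).mulVecLin) := Fintype.ofFinite _
    rw [Nat.card_eq_fintype_card, Module.card_eq_pow_finrank (K := ZMod p), ZMod.card]
  rw [h1]
  have h2 : Module.finrank (ZMod p) (LinearMap.range (lmat y).mulVecLin) ≤ 2 := lmat_rank y h
  exact Nat.pow_le_pow_right (Fact.out : p.Prime).pos h2

theorem qmul_cast {p : ℕ} (x y : Fin 4 → ℤ) (j : Fin 4) :
    ((qmul x y j : ℤ) : ZMod p) = qmul (fun i => ((x i : ℤ) : ZMod p)) (fun i => ((y i : ℤ) : ZMod p)) j := by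
  fin_cases j <;> simp [qmul]

theorem qmul_norm (y a : Fin 4 → ℤ) (j : Fin 4) :
    qmul (qmul y (qconj a)) a j = qnorm a * y j := by
  fin_cases j <;> simp [qmul, qconj, qnorm] <;> ring

/-- Box-principle step: some nonzero small `a` with `y * conj a ≡ 0 mod p`, `p ∣ N a`, `N a < 4p`. -/
theorem exists_small (p : ℕ) (hp : p.Prime) (hodd : p ≠ 2) (y : Fin 4 → ℤ)
    (hy : (p : ℤ) ∣ qnorm y) (hprim : ∃ j, ¬ (p : ℤ) ∣ y j) :
    ∃ a : Fin 4 → ℤ, a ≠ 0 ∧ (∀ j, (p : ℤ) ∣ qmul y (qconj a) j) ∧ (p : ℤ) ∣ qnorm a ∧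
      qnorm a ≤ 4 * ((Nat.sqrt p : ℕ) : ℤ) ^ 2 := by
  classical
  have : Fact p.Prime := ⟨hp⟩
  set B := Nat.sqrt p with hB
  set yb : Fin 4 → ZMod p := fun i => ((y i : ℤ) : ZMod p) with hyb
  have hyb0 : qnorm yb = 0 := by
    have h1 := (ZMod.intCast_zmod_eq_zero_iff_dvd (qnorm y) p).2 hy
    simpa [qnorm, hyb] using h1
  -- the map
  let c : (Fin 4 → Fin (B + 1)) → (Fin 4 → ZMod p) := fun u i => ((u i : ℕ) : ZMod p)
  let f : (Fin 4 → Fin (B + 1)) → LinearMap.range (lmat yb).mulVecLin := fun u =>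
    ⟨(lmat yb).mulVecLin (qconj (c u)), LinearMap.mem_range_self _ _⟩
  have : Fintype (LinearMap.range (lmat yb).mulVecLin) := Fintype.ofFinite _
  have hcard : Fintype.card (LinearMap.range (lmat yb).mulVecLin) <
      Fintype.card (Fin 4 → Fin (B + 1)) := by
    have h1 := range_card yb hyb0
    rw [Nat.card_eq_fintype_card] at h1
    have h2 : Fintype.card (Fin 4 → Fin (B + 1)) = (B + 1) ^ 4 := by simp
    have h3 : p < (B + 1) * (B + 1) := Nat.lt_succ_sqrt p
    rw [h2]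
    calc Fintype.card (LinearMap.range (lmat yb).mulVecLin) ≤ p ^ 2 := h1
      _ < ((B + 1) * (B + 1)) ^ 2 := Nat.pow_lt_pow_left h3 (by norm_num)
      _ = (B + 1) ^ 4 := by ring
  obtain ⟨u, v, huv, hfuv⟩ := Fintype.exists_ne_map_eq_of_card_lt f hcard
  have hval : (lmat yb).mulVecLin (qconj (c u)) = (lmat yb).mulVecLin (qconj (c v)) :=
    congrArg Subtype.val hfuv
  set a : Fin 4 → ℤ := fun i => ((u i : ℕ) : ℤ) - ((v i : ℕ) : ℤ) with ha
  have ha0 : a ≠ 0 := by
    intro h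
    apply huv
    funext i
    have h1 := congrFun h i
    simp only [ha, Pi.zero_apply] at h1
    apply Fin.ext
    omega
  have hdiv : ∀ j, (p : ℤ) ∣ qmul y (qconj a) j := by
    intro j
    rw [← ZMod.intCast_zmod_eq_zero_iff_dvd, qmul_cast]
    have h1 : (fun i => ((qconj a i : ℤ) : ZMod p)) = qconj (c u) - qconj (c v) := by
      funext i
      fin_cases i <;> simp [qconj, ha, c] <;> ring
    rw [h1, ← lmat_mulVec]
    have h2 : (lmat yb).mulVec (qconj (c u) - qconj (c v)) = 0 := by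
      rw [Matrix.mulVec_sub]
      simp only [Matrix.mulVecLin_apply] at hval
      rw [hval, sub_self]
    have h3 := congrFun h2 j
    simpa [hyb] using h3
  refine ⟨a, ha0, hdiv, ?_, ?_⟩
  · obtain ⟨j, hj⟩ := hprim
    have h1 : (p : ℤ) ∣ qnorm a * y j := by
      rw [← qmul_norm]
      have hd := hdiv
      obtain ⟨k0, hk0⟩ := hd 0
      obtain ⟨k1, hk1⟩ := hd 1
      obtain ⟨k2, hk2⟩ := hd 2
      obtain ⟨k3, hk3⟩ := hd 3
      fin_cases j
      · refine ⟨k0 * a 0 - k1 * a 1 - k2 * a 2 - k3 * a 3, ?_⟩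
        show qmul y (qconj a) 0 * a 0 - qmul y (qconj a) 1 * a 1 - qmul y (qconj a) 2 * a 2 -
          qmul y (qconj a) 3 * a 3 = _
        rw [hk0, hk1, hk2, hk3]; ring
      · refine ⟨k0 * a 1 + k1 * a 0 + k2 * a 3 - k3 * a 2, ?_⟩
        show qmul y (qconj a) 0 * a 1 + qmul y (qconj a) 1 * a 0 + qmul y (qconj a) 2 * a 3 -
          qmul y (qconj a) 3 * a 2 = _
        rw [hk0, hk1, hk2, hk3]; ring
      · refine ⟨k0 * a 2 - k1 * a 3 + k2 * a 0 + k3 * a 1, ?_⟩
        show qmul y (qconj a) 0 * a 2 - qmul y (qconj a) 1 * a 3 + qmul y (qconj a) 2 * a 0 +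
          qmul y (qconj a) 3 * a 1 = _
        rw [hk0, hk1, hk2, hk3]; ring
      · refine ⟨k0 * a 3 + k1 * a 2 - k2 * a 1 + k3 * a 0, ?_⟩
        show qmul y (qconj a) 0 * a 3 + qmul y (qconj a) 1 * a 2 - qmul y (qconj a) 2 * a 1 +
          qmul y (qconj a) 3 * a 0 = _
        rw [hk0, hk1, hk2, hk3]; ring
    exact ((Nat.prime_iff_prime_int.1 hp).dvd_or_dvd h1).resolve_right hj
  · have hb : ∀ i, a i ^ 2 ≤ (B : ℤ) ^ 2 := by
      intro i
      have h1 : ((u i : ℕ) : ℤ) ≤ B := by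
        have := (u i).2
        exact_mod_cast Nat.lt_succ_iff.1 this
      have h2 : ((v i : ℕ) : ℤ) ≤ B := by
        have := (v i).2
        exact_mod_cast Nat.lt_succ_iff.1 this
      have h3 : (0 : ℤ) ≤ ((u i : ℕ) : ℤ) := Nat.cast_nonneg _
      have h4 : (0 : ℤ) ≤ ((v i : ℕ) : ℤ) := Nat.cast_nonneg _
      have h5 : |a i| ≤ (B : ℤ) := by
        rw [abs_le]
        simp only [ha]
        constructor <;> linarith
      calc a i ^ 2 = |a i| ^ 2 := (sq_abs _).symm
        _ ≤ (B : ℤ) ^ 2 := by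
          have := abs_nonneg (a i)
          gcongr
    unfold qnorm
    linarith [hb 0, hb 1, hb 2, hb 3]


end J1

end AdTorus
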