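import Pool.Agent.AdTorus.Defs2

set_option autoImplicit false

noncomputable section

namespace AdTorus

open Topology Filter RestrictedProduct MeasureTheory

namespace J10



theorem exists_uniform_ext (a b : GA) (h1 : compR a = compR b)
    (h2 : ∀ p : Nat.Primes, compP p a = compP p b) : a = b := by
  obtain ⟨⟨a1, a2⟩, ⟨a3, a4⟩⟩ := a
  obtain ⟨⟨b1, b2⟩, ⟨b3, b4⟩⟩ := b
  have e1 : a1 = b1 := congrArg Prod.fst h1
  have e2 : a3 = b3 := congrArg Prod.snd h1
  have e3 : a2 = b2 := by
    apply Subtype.ext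
    funext p
    exact congrArg Prod.fst (h2 p)
  have e4 : a4 = b4 := by
    apply Subtype.ext
    funext p
    exact congrArg Prod.snd (h2 p)
  rw [e1, e2, e3, e4]

theorem exists_uniform_pow {m n : ℕ} {R : Type} [CommRing R] {x y : D1 R × D1 R}
    (hx : x ∈ torusPow m n R) (hy : y ∈ torusPow m n R) : x * y = y * x := by
  obtain ⟨hx1, hx2⟩ := hx
  obtain ⟨hy1, hy2⟩ := hy
  have hc : Commute x.1 y.1 := torus_comm hx1 hy1
  apply Prod.ext
  · exact hc
  · show x.2 * y.2 = y.2 * x.2
    rw [hx2, hy2]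
    exact hc.pow_pow n n

theorem exists_uniform_comm {m n : ℕ} {a b : GA} (ha : a ∈ TA m n) (hb : b ∈ TA m n) :
    a * b = b * a := by
  simp only [TA, Subgroup.mem_inf, Subgroup.mem_comap, Subgroup.mem_iInf] at ha hb
  apply exists_uniform_ext
  · rw [map_mul, map_mul]
    exact exists_uniform_pow ha.1 hb.1
  · intro p
    rw [map_mul, map_mul]
    exact exists_uniform_pow (ha.2 p) (hb.2 p)

theorem exists_uniform (m n : ℕ) (hc : CompactSpace (TA m n ⧸ GQ.subgroupOf (TA m n))) :
    ∃ ν : Measure X, IsProbabilityMeasure ν ∧ IsUniformMeasure (TA m n) 1 ν ∧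
      ∀ B : Set X, MeasurableSet B → (∀ t ∈ TA m n, (QuotientGroup.mk t : X) ∈ B) → ν B = 1 := by
  haveI hN : (GQ.subgroupOf (TA m n)).Normal := ⟨fun a ha g => by
    have h1 : g * a = a * g := Subtype.ext (exists_uniform_comm g.2 a.2)
    have h2 : g * a * g⁻¹ = a := by rw [h1, mul_inv_cancel_right]
    rw [h2]
    exact ha⟩
  haveI iB : BorelSpace (TA m n ⧸ GQ.subgroupOf (TA m n)) := ⟨rfl⟩
  obtain ⟨m0, hm0⟩ : ∃ m0 : Measure (TA m n ⧸ GQ.subgroupOf (TA m n)),
      m0 = Measure.haarMeasure ⊤ := ⟨_, rfl⟩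
  haveI hinv : m0.IsMulLeftInvariant := by
    rw [hm0]
    infer_instance
  have htot : m0 Set.univ = 1 := by
    rw [hm0]
    exact Measure.haarMeasure_self (K₀ := (⊤ : TopologicalSpace.PositiveCompacts
      (TA m n ⧸ GQ.subgroupOf (TA m n))))
  haveI hprob : IsProbabilityMeasure m0 := ⟨htot⟩
  have hcont : Continuous (orbMap (TA m n) 1) := by
    unfold orbMap
    apply Continuous.quotient_lift
    exact QuotientGroup.continuous_mk.comp (continuous_const.mul continuous_subtype_val)
  have hmeas : Measurable (orbMap (TA m n) 1) := hcont.measurable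
  refine ⟨m0.map (orbMap (TA m n) 1), Measure.isProbabilityMeasure_map hmeas.aemeasurable,
    ⟨m0, hprob, ?_, rfl⟩, ?_⟩
  · intro t
    exact map_mul_left_eq_self m0 (QuotientGroup.mk t : TA m n ⧸ GQ.subgroupOf (TA m n))
  · intro B hB hT
    rw [Measure.map_apply hmeas hB]
    have huniv : orbMap (TA m n) 1 ⁻¹' B = Set.univ := by
      rw [Set.eq_univ_iff_forall]
      intro q
      induction q using QuotientGroup.induction_on with
      | H t =>
        show (QuotientGroup.mk (1 * (t : GA)) : X) ∈ B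
        rw [one_mul]
        exact hT t t.2
    rw [huniv, htot]


end J10

end AdTorus
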