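import Pool.Agent.AdTorus.Defs2

set_option autoImplicit false

noncomputable section

namespace AdTorus

open Topology Filter RestrictedProduct MeasureTheory

namespace J11



theorem exists_weak_limit_gen {Y : Type*} [TopologicalSpace Y] [CompactSpace Y] [T2Space Y]
    [SecondCountableTopology Y] [MeasurableSpace Y] [BorelSpace Y] (ν : ℕ → Measure Y)
    (hν : ∀ i, IsProbabilityMeasure (ν i)) (B : Set Y) (hB : IsClopen B) (hνB : ∀ i, ν i B = 1) :
    ∃ μ : Measure Y, IsProbabilityMeasure μ ∧ (∃ φ : ℕ → ℕ, StrictMono φ ∧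
      ∀ f : Y → ℝ, Continuous f → Tendsto (fun k => ∫ x, f x ∂(ν (φ k))) atTop (𝓝 (∫ x, f x ∂μ)))
      ∧ μ B = 1 := by
  haveI : TopologicalSpace.MetrizableSpace Y := TopologicalSpace.metrizableSpace_of_t3_secondCountable Y
  letI : MetricSpace Y := TopologicalSpace.metrizableSpaceMetric Y
  let P : ℕ → ProbabilityMeasure Y := fun i => ⟨ν i, hν i⟩
  obtain ⟨μ, φ, hφ, hlim⟩ := CompactSpace.tendsto_subseq P
  have key : ∀ f : Y → ℝ, Continuous f →
      Tendsto (fun k => ∫ x, f x ∂(ν (φ k))) atTop (𝓝 (∫ x, f x ∂(μ : Measure Y))) := by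
    intro f hf
    have := (ProbabilityMeasure.tendsto_iff_forall_integral_tendsto.1 hlim)
      (BoundedContinuousFunction.mkOfCompact ⟨f, hf⟩)
    exact this
  refine ⟨(μ : Measure Y), μ.2, ⟨φ, hφ, key⟩, ?_⟩
  have hc : Continuous (B.indicator (fun _ => (1:ℝ))) :=
    continuous_const.indicator (by simp [hB.frontier_eq])
  have h4 := key _ hc
  have h5 : ∀ ρ : Measure Y, ∫ x, B.indicator (fun _ => (1:ℝ)) x ∂ρ = ρ.real B := by
    intro ρ
    rw [integral_indicator hB.isOpen.measurableSet]; simp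
  simp only [h5] at h4
  have h6 : (fun k => (ν (φ k)).real B) = fun _ => (1:ℝ) := by
    funext k; simp [Measure.real, hνB]
  rw [h6] at h4
  have h7 : (μ : Measure Y).real B = 1 := (tendsto_nhds_unique h4 tendsto_const_nhds)
  have h8 : (μ : Measure Y) B ≠ ⊤ := measure_ne_top _ _
  rw [Measure.real] at h7
  rw [← ENNReal.ofReal_toReal h8, h7, ENNReal.ofReal_one]

theorem exists_weak_limit (h1 : CompactSpace X) (h2 : T2Space X)
    (h3 : SecondCountableTopology X) (ν : ℕ → Measure X)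
    (hν : ∀ i, IsProbabilityMeasure (ν i)) (B : Set X) (hB : IsClopen B) (hνB : ∀ i, ν i B = 1) :
    ∃ μ : Measure X, IsProbabilityMeasure μ ∧ IsWeakLimit ν μ ∧ μ B = 1 := by
  obtain ⟨μ, h4, ⟨φ, h5, h6⟩, h7⟩ := exists_weak_limit_gen ν hν B hB hνB
  exact ⟨μ, h4, ⟨φ, h5, fun f hf _ => h6 f hf⟩, h7⟩


end J11

end AdTorus
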