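import Pool.Agent.AdTorus.Defs2

set_option autoImplicit false

noncomputable section

namespace AdTorus

open Topology Filter RestrictedProduct MeasureTheory

namespace J12


theorem isOpen_of_invariant {G : Type*} [Group G] [TopologicalSpace G] [IsTopologicalGroup G]
    (K : Subgroup G) (hK : IsOpen (K : Set G)) (S : Set G) (hS : ∀ k ∈ K, ∀ z ∈ S, k * z ∈ S) :
    IsOpen S := by
  rw [isOpen_iff_mem_nhds]
  intro z hz
  have h1 : IsOpen ((fun y : G => y * z⁻¹) ⁻¹' (K : Set G)) :=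
    hK.preimage (continuous_id.mul continuous_const)
  refine Filter.mem_of_superset (h1.mem_nhds ?_) ?_
  · simp [one_mem]
  · intro y hy
    have := hS _ hy z hz
    simpa using this

theorem isClopen_of_invariant {G : Type*} [Group G] [TopologicalSpace G] [IsTopologicalGroup G]
    (K : Subgroup G) (hK : IsOpen (K : Set G)) (S : Set G) (hS : ∀ k ∈ K, ∀ z ∈ S, k * z ∈ S) :
    IsClopen S := by
  refine ⟨⟨isOpen_of_invariant K hK _ ?_⟩, isOpen_of_invariant K hK S hS⟩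
  intro k hk z hz hkz
  apply hz
  have := hS _ (inv_mem hk) _ hkz
  simpa using this

theorem mk_mem_E {y : GA} : (QuotientGroup.mk y : X) ∈ E ↔ ∃ k ∈ K3, ∃ γ : D1 ℚ, y.2 = k * dg γ := by
  constructor
  · rintro ⟨y', hy', k, hk, γ, h⟩
    have h1 := QuotientGroup.eq.1 hy'
    obtain ⟨⟨a, b⟩, hab⟩ := h1
    have h2 : y = y' * (dg.prodMap dg) (a, b) := by rw [hab]; group
    refine ⟨k, hk, γ * b, ?_⟩
    rw [h2, Prod.snd_mul, h, map_mul, mul_assoc]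
    rfl
  · rintro ⟨k, hk, γ, h⟩
    exact ⟨y, rfl, k, hk, γ, h⟩

theorem isClopen_E (isOpen_K3 : IsOpen (K3 : Set D1A)) : IsClopen E := by
  have hq : Topology.IsQuotientMap (QuotientGroup.mk : GA → X) :=
    QuotientGroup.isQuotientMap_mk GQ
  rw [← hq.isClopen_preimage]
  have h1 : (QuotientGroup.mk : GA → X) ⁻¹' E =
      Prod.snd ⁻¹' {z : D1A | ∃ k ∈ K3, ∃ γ : D1 ℚ, z = k * dg γ} := by
    ext y
    exact mk_mem_E
  rw [h1]
  refine IsClopen.preimage ?_ continuous_snd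
  refine isClopen_of_invariant K3 isOpen_K3 _ ?_
  rintro k hk z ⟨k', hk', γ, rfl⟩
  exact ⟨k * k', mul_mem hk hk', γ, by rw [mul_assoc]⟩

theorem norm_half3 : ‖((1 : ℚ_[3]) / 2)‖ = 1 := by
  have h2 : ‖((2 : ℕ) : ℚ_[3])‖ = 1 := Padic.norm_natCast_eq_one_iff.2 (by decide)
  rw [norm_div, norm_one]
  have h3 : ‖(2 : ℚ_[3])‖ = 1 := by exact_mod_cast h2
  rw [h3]; norm_num

/-- the quaternion `(1+i+j+k)/2` -/
def q0 : D1 ℚ_[3] := ⟨fun _ => 1 / 2, by simp only [qnorm]; norm_num⟩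

theorem q0_mem : q0 ∈ Kp 3 := fun j => norm_half3.le

theorem left_congr {u q : D1 ℚ_[3]} (hu : u ∈ Kp3) (hq : q ∈ Kp 3) (j : Fin 4) :
    ‖(u * q).val j - q.val j‖ < 1 := by
  obtain ⟨hu', hu0, hu1, hu2, hu3⟩ := hu
  have hm : ∀ a b : ℚ_[3], ‖a‖ < 1 → ‖b‖ ≤ 1 → ‖a * b‖ < 1 := fun a b ha hb => by
    rw [norm_mul]; exact (mul_le_of_le_one_right (norm_nonneg _) hb).trans_lt ha
  have ha : ∀ a b : ℚ_[3], ‖a‖ < 1 → ‖b‖ < 1 → ‖a + b‖ < 1 := fun a b ha hb =>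
    (Padic.nonarchimedean a b).trans_lt (max_lt ha hb)
  have hs : ∀ a b : ℚ_[3], ‖a‖ < 1 → ‖b‖ < 1 → ‖a - b‖ < 1 := fun a b ha' hb => by
    rw [sub_eq_add_neg]; exact ha _ _ ha' (by rwa [norm_neg])
  fin_cases j
  · have e : (u * q).val 0 - q.val 0 = (u.val 0 - 1) * q.val 0 - u.val 1 * q.val 1
        - u.val 2 * q.val 2 - u.val 3 * q.val 3 := by
      simp [D1.mul_val, qmul]; ring
    show ‖(u * q).val 0 - q.val 0‖ < 1
    rw [e]
    exact hs _ _ (hs _ _ (hs _ _ (hm _ _ hu0 (hq 0)) (hm _ _ hu1 (hq 1))) (hm _ _ hu2 (hq 2)))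
      (hm _ _ hu3 (hq 3))
  · have e : (u * q).val 1 - q.val 1 = (u.val 0 - 1) * q.val 1 + u.val 1 * q.val 0
        + u.val 2 * q.val 3 - u.val 3 * q.val 2 := by
      simp [D1.mul_val, qmul]; ring
    show ‖(u * q).val 1 - q.val 1‖ < 1
    rw [e]
    exact hs _ _ (ha _ _ (ha _ _ (hm _ _ hu0 (hq 1)) (hm _ _ hu1 (hq 0))) (hm _ _ hu2 (hq 3)))
      (hm _ _ hu3 (hq 2))
  · have e : (u * q).val 2 - q.val 2 = (u.val 0 - 1) * q.val 2 - u.val 1 * q.val 3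
        + u.val 2 * q.val 0 + u.val 3 * q.val 1 := by
      simp [D1.mul_val, qmul]; ring
    show ‖(u * q).val 2 - q.val 2‖ < 1
    rw [e]
    exact ha _ _ (ha _ _ (hs _ _ (hm _ _ hu0 (hq 2)) (hm _ _ hu1 (hq 3))) (hm _ _ hu2 (hq 0)))
      (hm _ _ hu3 (hq 1))
  · have e : (u * q).val 3 - q.val 3 = (u.val 0 - 1) * q.val 3 + u.val 1 * q.val 2
        - u.val 2 * q.val 1 + u.val 3 * q.val 0 := by
      simp [D1.mul_val, qmul]; ring
    show ‖(u * q).val 3 - q.val 3‖ < 1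
    rw [e]
    exact ha _ _ (hs _ _ (ha _ _ (hm _ _ hu0 (hq 3)) (hm _ _ hu1 (hq 2))) (hm _ _ hu2 (hq 1)))
      (hm _ _ hu3 (hq 0))

theorem right_congr {u q : D1 ℚ_[3]} (hu : u ∈ Kp3) (hq : q ∈ Kp 3) (j : Fin 4) :
    ‖(q * u).val j - q.val j‖ < 1 := by
  obtain ⟨hu', hu0, hu1, hu2, hu3⟩ := hu
  have hm : ∀ a b : ℚ_[3], ‖a‖ ≤ 1 → ‖b‖ < 1 → ‖a * b‖ < 1 := fun a b ha hb => by
    rw [norm_mul]; exact (mul_le_of_le_one_left (norm_nonneg _) ha).trans_lt hb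
  have ha : ∀ a b : ℚ_[3], ‖a‖ < 1 → ‖b‖ < 1 → ‖a + b‖ < 1 := fun a b ha hb =>
    (Padic.nonarchimedean a b).trans_lt (max_lt ha hb)
  have hs : ∀ a b : ℚ_[3], ‖a‖ < 1 → ‖b‖ < 1 → ‖a - b‖ < 1 := fun a b ha' hb => by
    rw [sub_eq_add_neg]; exact ha _ _ ha' (by rwa [norm_neg])
  fin_cases j
  · have e : (q * u).val 0 - q.val 0 = q.val 0 * (u.val 0 - 1) - q.val 1 * u.val 1
        - q.val 2 * u.val 2 - q.val 3 * u.val 3 := by
      simp [D1.mul_val, qmul]; ring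
    show ‖(q * u).val 0 - q.val 0‖ < 1
    rw [e]
    exact hs _ _ (hs _ _ (hs _ _ (hm _ _ (hq 0) hu0) (hm _ _ (hq 1) hu1)) (hm _ _ (hq 2) hu2))
      (hm _ _ (hq 3) hu3)
  · have e : (q * u).val 1 - q.val 1 = q.val 1 * (u.val 0 - 1) + q.val 0 * u.val 1
        + q.val 2 * u.val 3 - q.val 3 * u.val 2 := by
      simp [D1.mul_val, qmul]; ring
    show ‖(q * u).val 1 - q.val 1‖ < 1
    rw [e]
    exact hs _ _ (ha _ _ (ha _ _ (hm _ _ (hq 1) hu0) (hm _ _ (hq 0) hu1)) (hm _ _ (hq 2) hu3))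
      (hm _ _ (hq 3) hu2)
  · have e : (q * u).val 2 - q.val 2 = q.val 2 * (u.val 0 - 1) - q.val 1 * u.val 3
        + q.val 0 * u.val 2 + q.val 3 * u.val 1 := by
      simp [D1.mul_val, qmul]; ring
    show ‖(q * u).val 2 - q.val 2‖ < 1
    rw [e]
    exact ha _ _ (ha _ _ (hs _ _ (hm _ _ (hq 2) hu0) (hm _ _ (hq 1) hu3)) (hm _ _ (hq 0) hu2))
      (hm _ _ (hq 3) hu1)
  · have e : (q * u).val 3 - q.val 3 = q.val 3 * (u.val 0 - 1) + q.val 1 * u.val 2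
        - q.val 2 * u.val 1 + q.val 0 * u.val 3 := by
      simp [D1.mul_val, qmul]; ring
    show ‖(q * u).val 3 - q.val 3‖ < 1
    rw [e]
    exact ha _ _ (hs _ _ (ha _ _ (hm _ _ (hq 3) hu0) (hm _ _ (hq 1) hu2)) (hm _ _ (hq 2) hu1))
      (hm _ _ (hq 0) hu3)

theorem den_eq_one {q : ℚ} (h : ∀ p : Nat.Primes, ‖(q : ℚ_[p])‖ ≤ 1) : q.den = 1 := by
  by_contra hne
  obtain ⟨p, hp, hpd⟩ := Nat.exists_prime_and_dvd hne
  haveI : Fact p.Prime := ⟨hp⟩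
  have h1 : ‖(q : ℚ_[p])‖ ≤ 1 := h ⟨p, hp⟩
  have h2 : ‖((q.den : ℕ) : ℚ_[p])‖ < 1 := Padic.norm_natCast_lt_one_iff.2 hpd
  have h3 : ((q.num : ℤ) : ℚ_[p]) = (q : ℚ_[p]) * ((q.den : ℕ) : ℚ_[p]) := by
    have := Rat.mul_den_eq_num q
    have h4 : ((q * (q.den : ℚ) : ℚ) : ℚ_[p]) = ((q.num : ℚ) : ℚ_[p]) := by rw [this]
    push_cast at h4
    exact h4.symm
  have h5 : ‖((q.num : ℤ) : ℚ_[p])‖ < 1 := by
    rw [h3, norm_mul]
    exact (mul_le_of_le_one_left (norm_nonneg _) h1).trans_lt h2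
  have h6 : (p : ℤ) ∣ q.num := Padic.norm_intCast_lt_one_iff.1 h5
  have h7 := q.reduced
  have h8 : p ∣ q.num.natAbs := Int.natCast_dvd.1 h6
  exact hp.one_lt.ne' (Nat.dvd_one.1 (h7 ▸ Nat.dvd_gcd h8 hpd))

/-- the same as an element of the group at `three` -/
def q0' : D1 ℚ_[(three : ℕ)] := q0

/-- the component at three -/
def c3 : D1A →* D1 ℚ_[3] := comp1 three

/-- the family -/
def fam : ∀ p : Nat.Primes, D1 ℚ_[(p : ℕ)] :=
  Pi.mulSingle (M := fun p : Nat.Primes => D1 ℚ_[(p : ℕ)]) three q0'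

theorem fam_three : fam three = q0' :=
  Pi.mulSingle_eq_same (M := fun p : Nat.Primes => D1 ℚ_[(p : ℕ)]) three q0'

theorem fam_ne {p : Nat.Primes} (hp : p ≠ three) : fam p = 1 :=
  Pi.mulSingle_eq_of_ne (M := fun p : Nat.Primes => D1 ℚ_[(p : ℕ)]) hp q0'

/-- the shift -/
def gsh : D1A := (1, ⟨fam, by
  have : {p : Nat.Primes | p ≠ three} ∈ (cofinite : Filter Nat.Primes) := by
    rw [Filter.mem_cofinite]
    have : {p : Nat.Primes | p ≠ three}ᶜ = {three} := by ext p; simp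
    rw [this]; exact Set.finite_singleton _
  filter_upwards [this] with p hp
  rw [fam_ne hp]
  exact one_mem _⟩)

theorem gsh_three : c3 gsh = q0 := fam_three

theorem gsh_ne {p : Nat.Primes} (hp : p ≠ three) : comp1 p gsh = 1 := fam_ne hp

theorem comp1_dg (p : Nat.Primes) (c : D1 ℚ) : comp1 p (dg c) = D1.map (algebraMap ℚ ℚ_[p]) c := rfl

theorem mem_K3 {k : D1A} : k ∈ K3 ↔ (∀ p : Nat.Primes, comp1 p k ∈ Kp p) ∧ c3 k ∈ Kp3 := by
  constructor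
  · rintro ⟨h1, h2⟩
    exact ⟨mem_KA.1 h1, h2⟩
  · rintro ⟨h1, h2⟩
    exact ⟨mem_KA.2 h1, h2⟩

theorem exists_shift : ∃ g : GA, ∀ x ∈ E, g • x ∉ E := by
  refine ⟨(1, gsh), ?_⟩
  rintro x hx hgx
  obtain ⟨y, rfl⟩ := QuotientGroup.mk_surjective x
  obtain ⟨k, hk, a, ha⟩ := mk_mem_E.1 hx
  have hgx' : (QuotientGroup.mk (((1, gsh) : GA) * y) : X) ∈ E := hgx
  obtain ⟨k', hk', b, hb⟩ := mk_mem_E.1 hgx'
  rw [Prod.snd_mul, ha] at hb
  have hc : dg (b * a⁻¹) = k'⁻¹ * gsh * k := by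
    have h1 : gsh * (k * dg a) = k' * dg b := hb
    rw [map_mul, map_inv]
    have h2 : dg b = k'⁻¹ * (gsh * (k * dg a)) := by rw [h1]; group
    rw [h2]; group
  set c := b * a⁻¹ with hcdef
  have hk1 := mem_K3.1 hk
  have hk1' := mem_K3.1 hk'
  have hcp : ∀ p : Nat.Primes, comp1 p (dg c) ∈ Kp p := by
    intro p
    rw [hc, map_mul, map_mul, map_inv]
    refine mul_mem (mul_mem (inv_mem (hk1'.1 p)) ?_) (hk1.1 p)
    by_cases hp : p = three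
    · subst hp
      have h7 : c3 gsh ∈ Kp 3 := by rw [gsh_three]; exact q0_mem
      exact h7
    · rw [gsh_ne hp]
      exact one_mem _
  have hden : ∀ j, (c.val j).den = 1 := by
    intro j
    apply den_eq_one
    intro p
    have := hcp p j
    rw [comp1_dg, D1.map_val, eq_ratCast] at this
    exact this
  have h3 : ∀ j, ‖((c.val j : ℚ) : ℚ_[3]) - 1 / 2‖ < 1 := by
    intro j
    have e1 : c3 (dg c) = (c3 k')⁻¹ * (q0 * c3 k) := by
      rw [hc, map_mul, map_mul, map_inv, gsh_three, mul_assoc]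
    have e2 : (c3 (dg c)).val j = ((c.val j : ℚ) : ℚ_[3]) := by
      have h8 : c3 (dg c) = D1.map (algebraMap ℚ ℚ_[3]) c := rfl
      rw [h8, D1.map_val, eq_ratCast]
    have h4 : ‖((c3 k')⁻¹ * (q0 * c3 k)).val j - (q0 * c3 k).val j‖ < 1 :=
      left_congr (inv_mem hk1'.2) (mul_mem q0_mem (hk1.1 three)) j
    have h5 : ‖(q0 * c3 k).val j - q0.val j‖ < 1 := right_congr hk1.2 q0_mem j
    rw [← e1, e2] at h4
    have h6 : ((c.val j : ℚ) : ℚ_[3]) - 1 / 2 = (((c.val j : ℚ) : ℚ_[3]) - (q0 * c3 k).val j)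
        + ((q0 * c3 k).val j - q0.val j) := by
      have : q0.val j = 1 / 2 := rfl
      rw [this]; ring
    rw [h6]
    exact (Padic.nonarchimedean _ _).trans_lt (max_lt h4 h5)
  have hne : ∀ j, c.val j ≠ 0 := by
    intro j h0
    have := h3 j
    rw [h0, Rat.cast_zero, zero_sub, norm_neg, norm_half3] at this
    exact lt_irrefl _ this
  have hsq : ∀ j, (1 : ℚ) ≤ c.val j ^ 2 := by
    intro j
    have h4 : ((c.val j).num : ℚ) = c.val j := Rat.coe_int_num_of_den_eq_one (hden j)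
    have h5 : (c.val j).num ≠ 0 := Rat.num_ne_zero.2 (hne j)
    rw [← h4]
    have h6 : (1 : ℤ) ≤ (c.val j).num ^ 2 := by
      have : 0 < (c.val j).num ^ 2 := by positivity
      omega
    exact_mod_cast h6
  have hn := c.nrm
  simp only [qnorm] at hn
  linarith [hsq 0, hsq 1, hsq 2, hsq 3]


end J12

end AdTorus
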