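import Pool.Agent.AdTorus.Defs2

set_option autoImplicit false

noncomputable section

namespace AdTorus

open Topology Filter RestrictedProduct MeasureTheory

namespace J13



instance D1_countable : Countable (D1 ℚ) :=
  Function.Injective.countable (f := D1.val) (fun _ _ h => D1.ext' fun j => congrFun h j)

theorem tR_add (m : ℕ) (a b : ℝ) : tR m (a + b) = tR m a * tR m b := by
  have h1 : (Real.sqrt (m ^ 2 + 1)) ^ 2 = (m : ℝ) ^ 2 + 1 := Real.sq_sqrt (by positivity)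
  have h2 : Real.sqrt ((m : ℝ) ^ 2 + 1) ≠ 0 := (Real.sqrt_pos.2 (by positivity)).ne'
  have h5 : ((m : ℝ) ^ 2 + 1) ≠ 0 := by positivity
  have h4 : (Real.sin a / Real.sqrt ((m : ℝ) ^ 2 + 1)) * (Real.sin b / Real.sqrt ((m : ℝ) ^ 2 + 1)) * ((m : ℝ) ^ 2 + 1) =
      Real.sin a * Real.sin b := by
    rw [div_mul_div_comm, ← pow_two (Real.sqrt _), h1, div_mul_cancel₀ _ h5]
  ext j
  simp only [D1.mul_val, qmul, tR]
  fin_cases j
  · simp [Real.cos_add]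
    linear_combination h4
  · simp [Real.sin_add]
    ring
  · simp [Real.sin_add]
    ring
  · simp
    ring

theorem tR_comm (m : ℕ) (a b : ℝ) : tR m a * tR m b = tR m b * tR m a := by
  rw [← tR_add, ← tR_add, add_comm]

theorem tR_mem (m : ℕ) (a : ℝ) : tR m a ∈ torus m ℝ := ⟨rfl, rfl⟩

/-- the adele with real component `T θ` -/
def tA (m n : ℕ) (θ : ℝ) : GA := ((tR m θ, 1), ((tR m θ) ^ n, 1))

theorem tA_mem (m n : ℕ) (θ : ℝ) : tA m n θ ∈ TA m n := by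
  simp only [TA, Subgroup.mem_inf, Subgroup.mem_iInf, Subgroup.mem_comap]
  refine ⟨⟨tR_mem m θ, rfl⟩, fun p => ?_⟩
  have : compP p (tA m n θ) = 1 := rfl
  rw [this]; exact one_mem _

theorem zeroSet_map (S : Set (MvPolynomial (Fin 4 ⊕ Fin 4) ℚ)) (x : D1 ℝ × D1 ℝ) (hx : x ∈ zeroSet S ℝ) :
    (D1.map Complex.ofRealHom x.1, D1.map Complex.ofRealHom x.2) ∈ zeroSet S ℂ := by
  intro f hf
  have h := hx f hf
  have e : (Sum.elim (D1.map Complex.ofRealHom x.1).val (D1.map Complex.ofRealHom x.2).val : Fin 4 ⊕ Fin 4 → ℂ)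
      = fun i => (Algebra.algHom ℚ ℝ ℂ) ((Sum.elim x.1.val x.2.val : Fin 4 ⊕ Fin 4 → ℝ) i) := by
    funext i
    rcases i with i | i <;> rfl
  show MvPolynomial.aeval (Sum.elim (D1.map Complex.ofRealHom x.1).val (D1.map Complex.ofRealHom x.2).val) f = 0
  rw [e, ← MvPolynomial.comp_aeval_apply, h, map_zero]

theorem map_rat (g : D1 ℚ) : D1.map Complex.ofRealHom (D1.map (algebraMap ℚ ℝ) g) = D1.map (algebraMap ℚ ℂ) g := by
  ext j
  rw [D1.map_val, D1.map_val, D1.map_val]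
  simp

theorem stageA (m n : ℕ) (S : Set (MvPolynomial (Fin 4 ⊕ Fin 4) ℚ)) (hS : IsQSubgroup S) (h : GA)
    (hsub : orbitSet 1 (TA m n) ⊆ orbitSet h (adelic fun R _ _ => zeroSet S R)) :
    ∃ γ : D1 ℚ × D1 ℚ, ∃ Θ : Set ℝ, Θ.Infinite ∧ Θ ⊆ Set.Ioo (-1) 1 ∧ ∀ θ ∈ Θ,
      ((D1.map (algebraMap ℚ ℂ) γ.1, D1.map (algebraMap ℚ ℂ) γ.2) : D1 ℂ × D1 ℂ) *
        (D1.map Complex.ofRealHom (tR m θ), (D1.map Complex.ofRealHom (tR m θ)) ^ n) *
        ((D1.map (algebraMap ℚ ℂ) γ.1, D1.map (algebraMap ℚ ℂ) γ.2) : D1 ℂ × D1 ℂ)⁻¹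
        ∈ zeroSet S ℂ := by
  obtain ⟨H, hH⟩ := hS
  have key : ∀ θ : ℝ, ∃ (x : D1 ℝ × D1 ℝ) (γ : D1 ℚ × D1 ℚ), x ∈ zeroSet S ℝ ∧
      ((tR m θ, (tR m θ) ^ n) : D1 ℝ × D1 ℝ) = compR h * x * (D1.map (algebraMap ℚ ℝ) γ.1, D1.map (algebraMap ℚ ℝ) γ.2) := by
    intro θ
    have h1 : (QuotientGroup.mk (1 * tA m n θ) : X) ∈ orbitSet 1 (TA m n) := ⟨tA m n θ, tA_mem m n θ, rfl⟩
    obtain ⟨x, hx, hxe⟩ := hsub h1
    have h2 : (h * x)⁻¹ * (1 * tA m n θ) ∈ GQ := QuotientGroup.eq.1 hxe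
    obtain ⟨γ, hγ⟩ := h2
    refine ⟨compR x, γ, hx.1, ?_⟩
    have h3 : tA m n θ = h * x * (dg.prodMap dg) γ := by
      rw [hγ]; group
    have h4 := congrArg compR h3
    rw [map_mul, map_mul] at h4
    exact h4
  choose x γ hx hγ using key
  -- an infinite fibre
  have hfib : ∃ γ0, {θ ∈ Set.Ioo (0:ℝ) 1 | γ θ = γ0}.Infinite := by
    by_contra hcon
    push Not at hcon
    have hfin : ∀ γ0, {θ ∈ Set.Ioo (0:ℝ) 1 | γ θ = γ0}.Finite := hcon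
    have hcount : (Set.Ioo (0:ℝ) 1).Countable := by
      have : Set.Ioo (0:ℝ) 1 = ⋃ γ0, {θ ∈ Set.Ioo (0:ℝ) 1 | γ θ = γ0} := by
        ext θ
        simp only [Set.mem_iUnion, Set.mem_ofPred_eq]
        constructor
        · intro hθ; exact ⟨γ θ, hθ, rfl⟩
        · rintro ⟨_, hθ, _⟩; exact hθ
      rw [this]
      exact Set.countable_iUnion (fun γ0 => (hfin γ0).countable)
    have h1 := Cardinal.mk_Ioo_real (show (0:ℝ) < 1 by norm_num)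
    have h2 := Cardinal.le_aleph0_iff_set_countable.2 hcount
    rw [h1] at h2
    exact absurd h2 (not_le.2 Cardinal.aleph0_lt_continuum)
  obtain ⟨γ0, hinf⟩ := hfib
  obtain ⟨θ0, hθ0, hγθ0⟩ := hinf.nonempty
  refine ⟨γ0, (fun θ => θ - θ0) '' {θ ∈ Set.Ioo (0:ℝ) 1 | γ θ = γ0}, ?_, ?_, ?_⟩
  · apply hinf.image
    intro a _ b _ hab
    simpa using hab
  · rintro _ ⟨θ, ⟨hθ, _⟩, rfl⟩
    simp only [Set.mem_Ioo] at hθ hθ0 ⊢
    constructor <;> linarith [hθ.1, hθ.2, hθ0.1, hθ0.2]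
  · rintro _ ⟨θ, ⟨hθ, hγθ⟩, rfl⟩
    show _ ∈ zeroSet S ℂ
    have e1 := hγ θ
    have e0 := hγ θ0
    rw [hγθ] at e1
    rw [hγθ0] at e0
    set G : D1 ℝ × D1 ℝ := (D1.map (algebraMap ℚ ℝ) γ0.1, D1.map (algebraMap ℚ ℝ) γ0.2) with hG
    have e2 : ((tR m θ, (tR m θ) ^ n) : D1 ℝ × D1 ℝ) =
        (tR m θ0, (tR m θ0) ^ n) * (tR m (θ - θ0), (tR m (θ - θ0)) ^ n) := by
      have ha : tR m θ = tR m θ0 * tR m (θ - θ0) := by
        rw [← tR_add]; congr 1; ring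
      refine Prod.ext ha ?_
      have hc : Commute (tR m θ0) (tR m (θ - θ0)) := tR_comm m _ _
      show (tR m θ) ^ n = (tR m θ0) ^ n * (tR m (θ - θ0)) ^ n
      rw [← hc.mul_pow, ← ha]
    have e3 : G * ((tR m (θ - θ0), (tR m (θ - θ0)) ^ n) : D1 ℝ × D1 ℝ) * G⁻¹ = (x θ0)⁻¹ * x θ := by
      rw [e1, e0] at e2
      have : ((tR m (θ - θ0), (tR m (θ - θ0)) ^ n) : D1 ℝ × D1 ℝ) = (compR h * x θ0 * G)⁻¹ * (compR h * x θ * G) := by
        rw [e2]; group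
      rw [this]; group
    let φ : D1 ℝ × D1 ℝ →* D1 ℂ × D1 ℂ := (D1.map Complex.ofRealHom).prodMap (D1.map Complex.ofRealHom)
    have hmem : ∀ y ∈ zeroSet S ℝ, φ y ∈ H := by
      intro y hy
      have := zeroSet_map S y hy
      rw [← hH] at this
      exact this
    have e4 : φ (G * ((tR m (θ - θ0), (tR m (θ - θ0)) ^ n) : D1 ℝ × D1 ℝ) * G⁻¹) ∈ H := by
      rw [e3, map_mul, map_inv]
      exact mul_mem (inv_mem (hmem _ (hx θ0))) (hmem _ (hx θ))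
    rw [map_mul, map_mul, map_inv] at e4
    have hφG : φ G = ((D1.map (algebraMap ℚ ℂ) γ0.1, D1.map (algebraMap ℚ ℂ) γ0.2) : D1 ℂ × D1 ℂ) := by
      refine Prod.ext ?_ ?_
      · exact map_rat _
      · exact map_rat _
    have hφT : φ ((tR m (θ - θ0), (tR m (θ - θ0)) ^ n) : D1 ℝ × D1 ℝ) =
        (D1.map Complex.ofRealHom (tR m (θ - θ0)), (D1.map Complex.ofRealHom (tR m (θ - θ0))) ^ n) := by
      refine Prod.ext rfl ?_
      exact map_pow (D1.map Complex.ofRealHom) _ _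
    rw [hφG, hφT] at e4
    rw [← hH]
    exact e4


end J13

end AdTorus
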