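import Pool.Agent.AdTorus.Defs2

set_option autoImplicit false

noncomputable section

namespace AdTorus

open Topology Filter RestrictedProduct MeasureTheory

namespace J14



theorem laurent_shift (e d d1 : ℕ) (h : d1 ≤ d) (P : Polynomial ℂ) (hP : P.natDegree ≤ 2 * (e * d1)) :
    (Polynomial.X ^ (e * (d - d1)) * P).natDegree ≤ 2 * (e * d) := by
  refine Polynomial.natDegree_mul_le.trans ?_
  rw [Polynomial.natDegree_X_pow]
  obtain ⟨k, rfl⟩ := Nat.exists_eq_add_of_le h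
  rw [Nat.add_sub_cancel_left]
  calc e * k + P.natDegree ≤ e * k + 2 * (e * d1) := Nat.add_le_add_left hP _
    _ ≤ 2 * (e * k) + 2 * (e * d1) := by omega
    _ = 2 * (e * (d1 + k)) := by ring

/-- Polynomials in Laurent polynomials are Laurent polynomials, with a degree bound. -/
theorem laurent (f : MvPolynomial (Fin 4 ⊕ Fin 4) ℚ) :
    ∃ d : ℕ, ∀ (e : ℕ) (x : Fin 4 ⊕ Fin 4 → ℂ → ℂ),
      (∀ i, ∃ P : Polynomial ℂ, P.natDegree ≤ 2 * e ∧ ∀ s : ℂ, s ≠ 0 → s ^ e * x i s = P.eval s) →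
      ∃ P : Polynomial ℂ, P.natDegree ≤ 2 * (e * d) ∧
        ∀ s : ℂ, s ≠ 0 → s ^ (e * d) * MvPolynomial.aeval (fun i => x i s) f = P.eval s := by
  induction f using MvPolynomial.induction_on with
  | C a =>
    refine ⟨0, fun e x _ => ⟨Polynomial.C (algebraMap ℚ ℂ a), ?_, fun s _ => ?_⟩⟩
    · rw [Polynomial.natDegree_C]; exact Nat.zero_le _
    · rw [MvPolynomial.aeval_C, Polynomial.eval_C, mul_zero, pow_zero, one_mul]
  | add f g hf hg =>
    obtain ⟨d1, h1⟩ := hf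
    obtain ⟨d2, h2⟩ := hg
    refine ⟨max d1 d2, fun e x hx => ?_⟩
    obtain ⟨P1, hP1, he1⟩ := h1 e x hx
    obtain ⟨P2, hP2, he2⟩ := h2 e x hx
    refine ⟨Polynomial.X ^ (e * (max d1 d2 - d1)) * P1 + Polynomial.X ^ (e * (max d1 d2 - d2)) * P2,
      ?_, fun s hs => ?_⟩
    · refine (Polynomial.natDegree_add_le _ _).trans (max_le ?_ ?_)
      · exact laurent_shift e _ d1 (le_max_left _ _) P1 hP1
      · exact laurent_shift e _ d2 (le_max_right _ _) P2 hP2
    · rw [Polynomial.eval_add, Polynomial.eval_mul, Polynomial.eval_mul, Polynomial.eval_pow,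
        Polynomial.eval_pow, Polynomial.eval_X, ← he1 s hs, ← he2 s hs, ← mul_assoc, ← mul_assoc,
        ← pow_add, ← pow_add, ← Nat.mul_add, ← Nat.mul_add,
        Nat.sub_add_cancel (le_max_left d1 d2), Nat.sub_add_cancel (le_max_right d1 d2), map_add,
        mul_add]
  | mul_X f i hf =>
    obtain ⟨d1, h1⟩ := hf
    refine ⟨d1 + 1, fun e x hx => ?_⟩
    obtain ⟨P1, hP1, he1⟩ := h1 e x hx
    obtain ⟨P2, hP2, he2⟩ := hx i
    refine ⟨P1 * P2, ?_, fun s hs => ?_⟩
    · refine Polynomial.natDegree_mul_le.trans ?_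
      calc P1.natDegree + P2.natDegree ≤ 2 * (e * d1) + 2 * e := Nat.add_le_add hP1 hP2
        _ = 2 * (e * (d1 + 1)) := by ring
    · rw [Polynomial.eval_mul, ← he1 s hs, ← he2 s hs, map_mul, MvPolynomial.aeval_X]
      ring


end J14

end AdTorus
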