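import Pool.Agent.AdTorus.Defs2

set_option autoImplicit false

noncomputable section

namespace AdTorus

open Topology Filter RestrictedProduct MeasureTheory

namespace J15




/-- coordinates of the torus element, as functions on `ℂ` -/
def stageA2_tauv (m : ℕ) (t : ℂ) : Fin 4 → ℂ :=
  ![(t + t⁻¹) / 2, m * ((t - t⁻¹) / (2 * Complex.I * (Real.sqrt (m ^ 2 + 1) : ℂ))),
    (t - t⁻¹) / (2 * Complex.I * (Real.sqrt (m ^ 2 + 1) : ℂ)), 0]

theorem stageA2_tau_val (m : ℕ) (s : ℂˣ) : (tau m s).val = stageA2_tauv m (s : ℂ) := rfl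

theorem stageA2_tau_one (m : ℕ) : tau m 1 = 1 := by
  ext j
  rw [stageA2_tau_val, D1.one_val]
  fin_cases j <;> simp [stageA2_tauv]

theorem stageA2_tau_mul (m : ℕ) (s t : ℂˣ) : tau m (s * t) = tau m s * tau m t := by
  have h1 : ((Real.sqrt ((m : ℝ) ^ 2 + 1) : ℝ) : ℂ) ^ 2 = (m : ℂ) ^ 2 + 1 := by
    rw [← Complex.ofReal_pow, Real.sq_sqrt (by positivity)]; push_cast; ring
  have h2 : ((Real.sqrt ((m : ℝ) ^ 2 + 1) : ℝ) : ℂ) ≠ 0 := by
    rw [Ne, Complex.ofReal_eq_zero]; exact (Real.sqrt_pos.2 (by positivity)).ne'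
  have hs : (s : ℂ) ≠ 0 := s.ne_zero
  have ht : (t : ℂ) ≠ 0 := t.ne_zero
  ext j
  rw [D1.mul_val, stageA2_tau_val, stageA2_tau_val, stageA2_tau_val]
  simp only [Units.val_mul, mul_inv]
  unfold stageA2_tauv
  set c : ℂ := ((Real.sqrt ((m : ℝ) ^ 2 + 1) : ℝ) : ℂ) with hc
  set S : ℂ := (s : ℂ) with hS
  set T : ℂ := (t : ℂ) with hT
  set a : ℂ := (2 * Complex.I * c)⁻¹ with ha
  have ha2 : a ^ 2 * ((m : ℂ) ^ 2 + 1) = -(1 / 4) := by
    rw [ha, ← h1, inv_pow, mul_pow, mul_pow, Complex.I_sq]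
    field_simp
    norm_num
  simp only [div_eq_mul_inv, ← ha]
  clear_value a
  fin_cases j
  · simp [qmul]
    linear_combination ((S - S⁻¹) * (T - T⁻¹)) * ha2
  · simp [qmul]
    ring
  · simp [qmul]
    ring
  · simp [qmul]
    ring

theorem stageA2_tau_pow (m : ℕ) (s : ℂˣ) (n : ℕ) : (tau m s) ^ n = tau m (s ^ n) := by
  induction n with
  | zero => rw [pow_zero, pow_zero, stageA2_tau_one]
  | succ k ih => rw [pow_succ, pow_succ, ih, stageA2_tau_mul]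

theorem stageA2_tR (m : ℕ) (θ : ℝ) : D1.map Complex.ofRealHom (tR m θ) =
    tau m (Units.mk0 (Complex.exp (θ * Complex.I)) (Complex.exp_ne_zero _)) := by
  have h2 : ((Real.sqrt ((m : ℝ) ^ 2 + 1) : ℝ) : ℂ) ≠ 0 := by
    rw [Ne, Complex.ofReal_eq_zero]; exact (Real.sqrt_pos.2 (by positivity)).ne'
  have hinv : (Complex.exp (θ * Complex.I))⁻¹ = Complex.exp (-θ * Complex.I) := by
    rw [← Complex.exp_neg]; congr 1; ring
  have hcos : (Complex.exp (θ * Complex.I) + (Complex.exp (θ * Complex.I))⁻¹) / 2 =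
      ((Real.cos θ : ℝ) : ℂ) := by
    rw [hinv, Complex.ofReal_cos, Complex.cos]
  have hsin : (Complex.exp (θ * Complex.I) - (Complex.exp (θ * Complex.I))⁻¹) /
      (2 * Complex.I * ((Real.sqrt ((m : ℝ) ^ 2 + 1) : ℝ) : ℂ)) =
      ((Real.sin θ : ℝ) : ℂ) / ((Real.sqrt ((m : ℝ) ^ 2 + 1) : ℝ) : ℂ) := by
    rw [hinv, Complex.ofReal_sin, Complex.sin]
    have hI : Complex.I ≠ 0 := Complex.I_ne_zero
    field_simp
    rw [Complex.I_sq]
    ring
  ext j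
  rw [D1.map_val, stageA2_tau_val]
  unfold stageA2_tauv
  rw [Units.val_mk0, hcos, hsin]
  fin_cases j <;> simp [tR]

theorem stageA2_lin (a b : Fin 4 → ℂ) (m : ℕ) (j : Fin 4) : ∃ A B : ℂ, ∀ t : ℂ,
    qmul (qmul a (stageA2_tauv m t)) b j = A * t + B * t⁻¹ := by
  set c : ℂ := ((Real.sqrt ((m : ℝ) ^ 2 + 1) : ℝ) : ℂ) with hc
  set r : ℂ := (2 * Complex.I * c)⁻¹ with hr
  refine ⟨qmul (qmul a ![1 / 2, m * r, r, 0]) b j, qmul (qmul a ![1 / 2, -(m * r), -r, 0]) b j,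
    fun t => ?_⟩
  unfold stageA2_tauv
  simp only [div_eq_mul_inv, ← hc, ← hr]
  fin_cases j <;> simp [qmul] <;> ring

theorem stageA2_poly (n k : ℕ) (hk : k ≤ n + 1) (A B : ℂ) : ∃ P : Polynomial ℂ,
    P.natDegree ≤ 2 * (n + 1) ∧
      ∀ s : ℂ, s ≠ 0 → s ^ (n + 1) * (A * s ^ k + B * (s ^ k)⁻¹) = P.eval s := by
  refine ⟨Polynomial.C A * Polynomial.X ^ (n + 1 + k) + Polynomial.C B * Polynomial.X ^ (n + 1 - k),
    ?_, fun s hs => ?_⟩
  · refine (Polynomial.natDegree_add_le _ _).trans (max_le ?_ ?_)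
    · exact (Polynomial.natDegree_C_mul_X_pow_le _ _).trans (by omega)
    · exact (Polynomial.natDegree_C_mul_X_pow_le _ _).trans (by omega)
  · simp only [Polynomial.eval_add, Polynomial.eval_mul, Polynomial.eval_C, Polynomial.eval_pow,
      Polynomial.eval_X]
    have h1 : s ^ (n + 1) = s ^ (n + 1 - k) * s ^ k := by
      rw [← pow_add, Nat.sub_add_cancel hk]
    have h2 : s ^ k ≠ 0 := pow_ne_zero _ hs
    have e1 : s ^ (n + 1 + k) = s ^ (n + 1) * s ^ k := pow_add _ _ _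
    have e2 : s ^ (n + 1) * (s ^ k)⁻¹ = s ^ (n + 1 - k) := by
      rw [h1, mul_assoc, mul_inv_cancel₀ h2, mul_one]
    rw [e1]
    linear_combination B * e2



theorem stageA2
    (laurent : ∀ f : MvPolynomial (Fin 4 ⊕ Fin 4) ℚ,
      ∃ d : ℕ, ∀ (e : ℕ) (x : Fin 4 ⊕ Fin 4 → ℂ → ℂ),
      (∀ i, ∃ P : Polynomial ℂ, P.natDegree ≤ 2 * e ∧ ∀ s : ℂ, s ≠ 0 → s ^ e * x i s = P.eval s) →
      ∃ P : Polynomial ℂ, P.natDegree ≤ 2 * (e * d) ∧
        ∀ s : ℂ, s ≠ 0 → s ^ (e * d) * MvPolynomial.aeval (fun i => x i s) f = P.eval s)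
    (m n : ℕ) (S : Set (MvPolynomial (Fin 4 ⊕ Fin 4) ℚ)) (γ : D1 ℂ × D1 ℂ) (Θ : Set ℝ)
    (hinf : Θ.Infinite) (hΘ : Θ ⊆ Set.Ioo (-1) 1)
    (h : ∀ θ ∈ Θ, γ * (D1.map Complex.ofRealHom (tR m θ),
      (D1.map Complex.ofRealHom (tR m θ)) ^ n) * γ⁻¹ ∈ zeroSet S ℂ) :
    ∀ s : ℂˣ, γ * (tau m s, (tau m s) ^ n) * γ⁻¹ ∈ zeroSet S ℂ := by
  classical
  let x : Fin 4 ⊕ Fin 4 → ℂ → ℂ := fun i s =>
    Sum.elim (qmul (qmul γ.1.val (stageA2_tauv m s)) (qconj γ.1.val))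
      (qmul (qmul γ.2.val (stageA2_tauv m (s ^ n))) (qconj γ.2.val)) i
  have hx : ∀ i, ∃ P : Polynomial ℂ, P.natDegree ≤ 2 * (n + 1) ∧
      ∀ s : ℂ, s ≠ 0 → s ^ (n + 1) * x i s = P.eval s := by
    rintro (j | j)
    · obtain ⟨A, B, hAB⟩ := stageA2_lin γ.1.val (qconj γ.1.val) m j
      obtain ⟨P, hP1, hP2⟩ := stageA2_poly n 1 (by omega) A B
      refine ⟨P, hP1, fun s hs => ?_⟩
      rw [← hP2 s hs, pow_one, ← hAB s]
      rfl
    · obtain ⟨A, B, hAB⟩ := stageA2_lin γ.2.val (qconj γ.2.val) m j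
      obtain ⟨P, hP1, hP2⟩ := stageA2_poly n n (by omega) A B
      refine ⟨P, hP1, fun s hs => ?_⟩
      rw [← hP2 s hs, ← hAB (s ^ n)]
      rfl
  have hxs : ∀ s : ℂˣ, (fun i => x i (s : ℂ)) =
      Sum.elim (γ * (tau m s, (tau m s) ^ n) * γ⁻¹).1.val
        (γ * (tau m s, (tau m s) ^ n) * γ⁻¹).2.val := by
    intro s
    rw [stageA2_tau_pow]
    funext i
    rcases i with j | j
    · rfl
    · show qmul (qmul γ.2.val (stageA2_tauv m ((s : ℂ) ^ n))) (qconj γ.2.val) j =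
        qmul (qmul γ.2.val (stageA2_tauv m ((s ^ n : ℂˣ) : ℂ))) (qconj γ.2.val) j
      rw [Units.val_pow_eq_pow_val]
  intro s f hf
  obtain ⟨d, hd⟩ := laurent f
  obtain ⟨P, _, hP⟩ := hd (n + 1) x hx
  have hroot : ∀ θ ∈ Θ, P.IsRoot (Complex.exp (θ * Complex.I)) := by
    intro θ hθ
    have h1 := h θ hθ f hf
    rw [stageA2_tR, ← hxs] at h1
    have h2 := hP (Complex.exp (θ * Complex.I)) (Complex.exp_ne_zero _)
    rw [Units.val_mk0] at h1
    rw [h1, mul_zero] at h2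
    exact h2.symm
  have hinj : Set.InjOn (fun θ : ℝ => Complex.exp (θ * Complex.I)) Θ := by
    intro a ha b hb hab
    have h1 : (Complex.exp (a * Complex.I)).im = (Complex.exp (b * Complex.I)).im :=
      congrArg Complex.im hab
    rw [Complex.exp_ofReal_mul_I_im, Complex.exp_ofReal_mul_I_im] at h1
    have hpi : (1 : ℝ) < Real.pi / 2 := by linarith [Real.pi_gt_three]
    have ha' := hΘ ha
    have hb' := hΘ hb
    exact Real.injOn_sin ⟨by linarith [ha'.1], by linarith [ha'.2]⟩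
      ⟨by linarith [hb'.1], by linarith [hb'.2]⟩ h1
  have hP0 : P = 0 := by
    refine Polynomial.eq_zero_of_infinite_isRoot P ?_
    refine (hinf.image hinj).mono ?_
    rintro _ ⟨θ, hθ, rfl⟩
    exact hroot θ hθ
  have h3 := hP (s : ℂ) s.ne_zero
  rw [hP0, Polynomial.eval_zero, hxs s] at h3
  exact (mul_eq_zero.1 h3).resolve_left (pow_ne_zero _ s.ne_zero)


end J15

end AdTorus
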