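import Pool.Agent.AdTorus.Defs2

set_option autoImplicit false

noncomputable section

namespace AdTorus

open Topology Filter RestrictedProduct MeasureTheory

namespace J16



theorem tau_mul (m : ℕ) (s t : ℂˣ) : tau m (s * t) = tau m s * tau m t := by
  have h1 : ((Real.sqrt (m ^ 2 + 1) : ℂ)) ^ 2 = (m : ℂ) ^ 2 + 1 := by
    rw [← Complex.ofReal_pow, Real.sq_sqrt (by positivity)]; push_cast; ring
  have h2 : ((Real.sqrt (m ^ 2 + 1) : ℂ)) ≠ 0 := by
    rw [Ne, Complex.ofReal_eq_zero]; exact (Real.sqrt_pos.2 (by positivity)).ne'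
  have hs : (s : ℂ) ≠ 0 := s.ne_zero
  have ht : (t : ℂ) ≠ 0 := t.ne_zero
  set c : ℂ := (Real.sqrt (m ^ 2 + 1) : ℂ) with hc
  have key : ((((s : ℂ) - (s : ℂ)⁻¹) / (2 * Complex.I * c)) *
      (((t : ℂ) - (t : ℂ)⁻¹) / (2 * Complex.I * c))) * ((m : ℂ) ^ 2 + 1) =
        - (((s : ℂ) - (s : ℂ)⁻¹) / 2) * (((t : ℂ) - (t : ℂ)⁻¹) / 2) := by
    rw [← h1]
    have : Complex.I * Complex.I = -1 := Complex.I_mul_I
    field_simp
    rw [show Complex.I ^ 2 = -1 from Complex.I_sq]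
    ring
  ext j
  fin_cases j
  · simp only [D1.mul_val, qmul, tau, Units.val_mul, Fin.zero_eta, Matrix.cons_val_zero,
      Matrix.cons_val_one, Matrix.cons_val, mul_inv]
    linear_combination key
  · simp only [D1.mul_val, qmul, tau, Units.val_mul, Fin.mk_one, Matrix.cons_val_zero,
      Matrix.cons_val_one, Matrix.cons_val, mul_inv]
    ring
  · simp only [D1.mul_val, qmul, tau, Units.val_mul, Fin.reduceFinMk, Matrix.cons_val_zero,
      Matrix.cons_val_one, Matrix.cons_val, mul_inv]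
    ring
  · simp only [D1.mul_val, qmul, tau, Units.val_mul, Fin.reduceFinMk, Matrix.cons_val_zero,
      Matrix.cons_val_one, Matrix.cons_val, mul_inv]
    ring

theorem tau_one (m : ℕ) : tau m 1 = 1 := by
  ext j
  fin_cases j <;> simp [tau, D1.one_val]

theorem tau_pow (m : ℕ) (s : ℂˣ) (n : ℕ) : tau m (s ^ n) = (tau m s) ^ n := by
  induction n with
  | zero => simp [tau_one]
  | succ k ih => rw [pow_succ, pow_succ, tau_mul, ih]

theorem stageA3
    (laurent : ∀ f : MvPolynomial (Fin 4 ⊕ Fin 4) ℚ,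
      ∃ d : ℕ, ∀ (e : ℕ) (x : Fin 4 ⊕ Fin 4 → ℂ → ℂ),
      (∀ i, ∃ P : Polynomial ℂ, P.natDegree ≤ 2 * e ∧ ∀ s : ℂ, s ≠ 0 → s ^ e * x i s = P.eval s) →
      ∃ P : Polynomial ℂ, P.natDegree ≤ 2 * (e * d) ∧
        ∀ s : ℂ, s ≠ 0 → s ^ (e * d) * MvPolynomial.aeval (fun i => x i s) f = P.eval s)
    (S : Set (MvPolynomial (Fin 4 ⊕ Fin 4) ℚ)) (hS : IsQSubgroup S) :
    ∃ N : ℕ, ∀ n ≥ N, ∀ (m : ℕ) (γ : D1 ℂ × D1 ℂ),
      (∀ s : ℂˣ, γ * (tau m s, (tau m s) ^ n) * γ⁻¹ ∈ zeroSet S ℂ) →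
      ∀ s : ℂˣ, γ * (tau m s, 1) * γ⁻¹ ∈ zeroSet S ℂ ∧ γ * (1, tau m s) * γ⁻¹ ∈ zeroSet S ℂ := by
  classical
  obtain ⟨H, hH⟩ := hS
  obtain ⟨S', hS'sub, hS'span⟩ := (Submodule.fg_span_iff_fg_span_finset_subset
    (R := MvPolynomial (Fin 4 ⊕ Fin 4) ℚ) S).1 (IsNoetherian.noetherian _)
  have hz : ∀ x : D1 ℂ × D1 ℂ, (∀ f ∈ S', MvPolynomial.aeval (Sum.elim x.1.val x.2.val) f = 0) →
      x ∈ zeroSet S ℂ := by
    intro x hx f hf
    have h1 : f ∈ Submodule.span (MvPolynomial (Fin 4 ⊕ Fin 4) ℚ) (S' : Set _) := by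
      rw [← hS'span]; exact Submodule.subset_span hf
    have h2 : Submodule.span (MvPolynomial (Fin 4 ⊕ Fin 4) ℚ) (S' : Set _) ≤
        RingHom.ker (MvPolynomial.aeval (R := ℚ) (Sum.elim x.1.val x.2.val)) := by
      rw [Submodule.span_le]
      intro g hg
      exact (RingHom.mem_ker).2 (hx g hg)
    exact (RingHom.mem_ker).1 (h2 h1)
  choose d hd using laurent
  refine ⟨2 * (S'.sup d) + 1, ?_⟩
  intro n hn m γ hγ
  have hn0 : 0 < n := by omega
  set c : ℂ := (Real.sqrt (m ^ 2 + 1) : ℂ) with hc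
  -- the coordinates
  let tv : ℂ → Fin 4 → ℂ := fun s => ![(s + s⁻¹) / 2, m * ((s - s⁻¹) / (2 * Complex.I * c)),
    (s - s⁻¹) / (2 * Complex.I * c), 0]
  let x : Fin 4 ⊕ Fin 4 → ℂ → ℂ := fun i s =>
    Sum.elim (qmul (qmul γ.1.val (tv s)) (qconj γ.1.val))
      (qmul (qmul γ.2.val ![1, 0, 0, 0]) (qconj γ.2.val)) i
  have hx1 : ∀ i, ∃ P : Polynomial ℂ, P.natDegree ≤ 2 * 1 ∧
      ∀ s : ℂ, s ≠ 0 → s ^ 1 * x i s = P.eval s := by
    have hlin : ∀ (y : ℂ → ℂ) (a b k : ℂ), (∀ s : ℂ, s ≠ 0 → y s = a * s + b * s⁻¹ + k) →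
        ∃ P : Polynomial ℂ, P.natDegree ≤ 2 * 1 ∧ ∀ s : ℂ, s ≠ 0 → s ^ 1 * y s = P.eval s := by
      intro y a b k hy
      refine ⟨Polynomial.C a * Polynomial.X ^ 2 + Polynomial.C k * Polynomial.X +
        Polynomial.C b, ?_, ?_⟩
      · exact (Polynomial.natDegree_quadratic_le).trans (by norm_num)
      · intro s hs
        rw [hy s hs]
        simp only [Polynomial.eval_add, Polynomial.eval_mul, Polynomial.eval_C,
          Polynomial.eval_pow, Polynomial.eval_X]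
        field_simp
        ring
    rintro (j | j)
    · let av : Fin 4 → ℂ := ![1 / 2, m * (1 / (2 * Complex.I * c)), 1 / (2 * Complex.I * c), 0]
      let bv : Fin 4 → ℂ := ![1 / 2, - (m * (1 / (2 * Complex.I * c))),
        - (1 / (2 * Complex.I * c)), 0]
      apply hlin _ (qmul (qmul γ.1.val av) (qconj γ.1.val) j)
        (qmul (qmul γ.1.val bv) (qconj γ.1.val) j) 0
      intro s hs
      simp only [x, Sum.elim_inl]
      fin_cases j <;>
        simp only [tv, av, bv, qmul, qconj, Fin.zero_eta, Fin.mk_one, Fin.reduceFinMk,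
          Matrix.cons_val_zero, Matrix.cons_val_one, Matrix.cons_val] <;> ring
    · apply hlin _ 0 0 (qmul (qmul γ.2.val ![1, 0, 0, 0]) (qconj γ.2.val) j)
      intro s hs
      simp only [x, Sum.elim_inr]
      ring
  have hcoord : ∀ s : ℂˣ, (fun i => x i (s : ℂ)) =
      Sum.elim (γ * (tau m s, 1) * γ⁻¹).1.val (γ * (tau m s, 1) * γ⁻¹).2.val := by
    intro s
    funext i
    rcases i with j | j <;> rfl
  have hA : ∀ s : ℂˣ, γ * (tau m s, 1) * γ⁻¹ ∈ zeroSet S ℂ := by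
    intro s
    apply hz
    intro f hf
    obtain ⟨P, hPdeg, hP⟩ := hd f 1 x hx1
    have hdf : d f ≤ S'.sup d := Finset.le_sup hf
    have hP0 : P = 0 := by
      apply Polynomial.eq_zero_of_natDegree_lt_card_of_eval_eq_zero' P
        (Polynomial.nthRootsFinset n (1 : ℂ))
      · intro z hzz
        rw [Polynomial.mem_nthRootsFinset hn0] at hzz
        have hz0 : z ≠ 0 := by
          rintro rfl
          rw [zero_pow hn0.ne'] at hzz
          exact zero_ne_one hzz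
        have h3 := hγ (Units.mk0 z hz0) 
        have h4 : (tau m (Units.mk0 z hz0)) ^ n = 1 := by
          rw [← tau_pow]
          have : (Units.mk0 z hz0) ^ n = 1 := by
            ext; simpa using hzz
          rw [this, tau_one]
        rw [h4] at h3
        have h5 := h3 f (hS'sub hf)
        rw [← hcoord (Units.mk0 z hz0)] at h5
        rw [← hP z hz0]
        have h6 : (MvPolynomial.aeval fun i => x i z) f = 0 := h5
        rw [h6, mul_zero]
      · rw [(Complex.isPrimitiveRoot_exp n hn0.ne').card_nthRootsFinset]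
        omega
    have h7 := hP (s : ℂ) s.ne_zero
    rw [hP0, Polynomial.eval_zero, hcoord s] at h7
    rcases mul_eq_zero.1 h7 with h8 | h8
    · exact absurd h8 (pow_ne_zero _ s.ne_zero)
    · exact h8
  intro s
  refine ⟨hA s, ?_⟩
  obtain ⟨r, hr⟩ := IsAlgClosed.exists_pow_nat_eq (s : ℂ) hn0
  have hr0 : r ≠ 0 := by
    rintro rfl
    rw [zero_pow hn0.ne'] at hr
    exact s.ne_zero hr.symm
  have hrs : (Units.mk0 r hr0) ^ n = s := by
    ext; simpa using hr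
  have e1 : γ * (tau m (Units.mk0 r hr0), 1) * γ⁻¹ ∈ H := by
    rw [← SetLike.mem_coe, hH]; exact hA _
  have e2 : γ * (tau m (Units.mk0 r hr0), (tau m (Units.mk0 r hr0)) ^ n) * γ⁻¹ ∈ H := by
    rw [← SetLike.mem_coe, hH]; exact hγ _
  have e3 := H.mul_mem (H.inv_mem e1) e2
  have e4 : (γ * (tau m (Units.mk0 r hr0), 1) * γ⁻¹)⁻¹ *
      (γ * (tau m (Units.mk0 r hr0), (tau m (Units.mk0 r hr0)) ^ n) * γ⁻¹) =
      γ * (1, tau m s) * γ⁻¹ := by
    rw [← tau_pow, hrs]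
    have : ((1, tau m s) : D1 ℂ × D1 ℂ) =
        (tau m (Units.mk0 r hr0), 1)⁻¹ * (tau m (Units.mk0 r hr0), tau m s) := by
      ext1 <;> simp
    rw [this]
    group
  rw [e4, ← SetLike.mem_coe, hH] at e3
  exact e3


end J16

end AdTorus
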