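import Pool.Agent.AdTorus.Defs2

set_option autoImplicit false

noncomputable section

namespace AdTorus

open Topology Filter RestrictedProduct MeasureTheory

namespace J1b


theorem r408_dvd_qmul (d : ℤ) (z w : Fin 4 → ℤ) (hz : ∀ j, d ∣ z j) : ∀ j, d ∣ qmul z w j := by
  choose k hk using hz
  intro j
  refine ⟨qmul k w j, ?_⟩
  fin_cases j <;> simp [qmul, hk] <;> ring

/-- if `t • b = w' a` in the sense that `t conj b = conj a w` -/
theorem r408_step (p : ℕ) (hp : p.Prime) (t : ℕ) (ht : ¬ p ∣ t) (y a b w : Fin 4 → ℤ)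
    (hya : ∀ j, (p : ℤ) ∣ qmul y (qconj a) j)
    (e0 : (t:ℤ) * b 0 = a 0 * w 0 + a 1 * w 1 + a 2 * w 2 + a 3 * w 3)
    (e1 : (t:ℤ) * (- b 1) = a 0 * w 1 - a 1 * w 0 - a 2 * w 3 + a 3 * w 2)
    (e2 : (t:ℤ) * (- b 2) = a 0 * w 2 + a 1 * w 3 - a 2 * w 0 - a 3 * w 1)
    (e3 : (t:ℤ) * (- b 3) = a 0 * w 3 - a 1 * w 2 + a 2 * w 1 - a 3 * w 0) :
    ∀ j, (p : ℤ) ∣ qmul y (qconj b) j := by
  intro j
  have h1 := r408_dvd_qmul (p:ℤ) (qmul y (qconj a)) w hya j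
  have h2 : (t:ℤ) * qmul y (qconj b) j = qmul (qmul y (qconj a)) w j := by
    fin_cases j
    · simp [qmul, qconj]
      linear_combination (y 0) * e0 - (y 1) * e1 - (y 2) * e2 - (y 3) * e3
    · simp [qmul, qconj]
      linear_combination (y 0) * e1 + (y 1) * e0 + (y 2) * e3 - (y 3) * e2
    · simp [qmul, qconj]
      linear_combination (y 0) * e2 - (y 1) * e3 + (y 2) * e0 + (y 3) * e1
    · simp [qmul, qconj]
      linear_combination (y 0) * e3 + (y 1) * e2 - (y 2) * e1 + (y 3) * e0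
  rw [← h2] at h1
  have hpi : Prime (p:ℤ) := Nat.prime_iff_prime_int.mp hp
  rcases hpi.dvd_or_dvd h1 with h | h
  · exact absurd (Int.natCast_dvd_natCast.mp h) ht
  · exact h

/-- Reduction from norm `p`, `2p`, `3p` to norm exactly `p`. -/
theorem reduce_to_p (p : ℕ) (hp : p.Prime) (hodd : p ≠ 2) (y a : Fin 4 → ℤ) (ha0 : a ≠ 0)
    (hya : ∀ j, (p : ℤ) ∣ qmul y (qconj a) j) (hpa : (p : ℤ) ∣ qnorm a)
    (hlt : qnorm a < 4 * p) (h3 : p = 3 → qnorm a < 9) :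
    ∃ b : Fin 4 → ℤ, qnorm b = p ∧ ∀ j, (p : ℤ) ∣ qmul y (qconj b) j := by
  have hp0 : (0:ℤ) < p := by exact_mod_cast hp.pos
  have hpos : 0 < qnorm a := by
    have : ∃ i, a i ≠ 0 := by
      by_contra hcon
      push Not at hcon
      exact ha0 (funext hcon)
    obtain ⟨i, hi⟩ := this
    have hi2 : 0 < (a i)^2 := by positivity
    unfold qnorm
    fin_cases i <;> simp at hi2 hi <;> nlinarith [sq_nonneg (a 0), sq_nonneg (a 1), sq_nonneg (a 2), sq_nonneg (a 3)]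
  obtain ⟨m, hm⟩ := hpa
  have hm1 : 1 ≤ m := by
    by_contra hcon
    push Not at hcon
    have : m ≤ 0 := by omega
    nlinarith
  have hm3 : m ≤ 3 := by
    by_contra hcon
    push Not at hcon
    nlinarith
  have hm' : m = 1 ∨ m = 2 ∨ m = 3 := by omega
  have hN : a 0 ^ 2 + a 1 ^ 2 + a 2 ^ 2 + a 3 ^ 2 = p * m := by rw [← hm]; rfl
  have ht2 : ¬ p ∣ 2 := by
    intro h
    exact hodd ((Nat.prime_dvd_prime_iff_eq hp Nat.prime_two).mp h)
  rcases hm' with h1 | h2 | h3'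
  · refine ⟨a, ?_, hya⟩
    rw [hm, h1, mul_one]
  · subst h2
    have par : (a 0 + a 1 + a 2 + a 3) % 2 = 0 := by
      have h : (a 0 ^ 2 + a 1 ^ 2 + a 2 ^ 2 + a 3 ^ 2) % 2 = 0 := by rw [hN]; omega
      have s : ∀ x : ℤ, x^2 % 2 = x % 2 := by
        intro x
        rcases Int.emod_two_eq_zero_or_one x with h | h <;> simp [pow_two, Int.mul_emod, h]
      have s0 := s (a 0)
      have s1 := s (a 1)
      have s2 := s (a 2)
      have s3 := s (a 3)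
      omega
    have cases3 : ((a 0 + a 1) % 2 = 0 ∧ (a 2 + a 3) % 2 = 0) ∨ ((a 0 + a 2) % 2 = 0 ∧ (a 1 + a 3) % 2 = 0)
        ∨ ((a 0 + a 3) % 2 = 0 ∧ (a 1 + a 2) % 2 = 0) := by omega
    rcases cases3 with ⟨c1, c2⟩ | ⟨c1, c2⟩ | ⟨c1, c2⟩
    · obtain ⟨s, hs⟩ : ∃ s, a 0 + a 1 = 2 * s := ⟨(a 0 + a 1)/2, by omega⟩
      obtain ⟨t, ht⟩ : ∃ t, a 2 + a 3 = 2 * t := ⟨(a 2 + a 3)/2, by omega⟩
      refine ⟨![s, s - a 0, t, t - a 2], ?_, ?_⟩
      · have h4 : 4 * qnorm ![s, s - a 0, t, t - a 2] = 4 * p := by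
          simp [qnorm]
          have e1 : a 1 = 2 * s - a 0 := by linarith
          have e3 : a 3 = 2 * t - a 2 := by linarith
          rw [e1, e3] at hN
          nlinarith [hN]
        linarith
      · apply r408_step p hp 2 ht2 y a _ ![1, 1, 0, 0] hya <;> simp <;> linarith
    · obtain ⟨s, hs⟩ : ∃ s, a 0 + a 2 = 2 * s := ⟨(a 0 + a 2)/2, by omega⟩
      obtain ⟨t, ht⟩ : ∃ t, a 1 + a 3 = 2 * t := ⟨(a 1 + a 3)/2, by omega⟩
      refine ⟨![s, a 1 - t, s - a 0, t], ?_, ?_⟩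
      · have h4 : 4 * qnorm ![s, a 1 - t, s - a 0, t] = 4 * p := by
          simp [qnorm]
          have e1 : a 2 = 2 * s - a 0 := by linarith
          have e3 : a 3 = 2 * t - a 1 := by linarith
          rw [e1, e3] at hN
          nlinarith [hN]
        linarith
      · apply r408_step p hp 2 ht2 y a _ ![1, 0, 1, 0] hya <;> simp <;> linarith
    · obtain ⟨s, hs⟩ : ∃ s, a 0 + a 3 = 2 * s := ⟨(a 0 + a 3)/2, by omega⟩
      obtain ⟨t, ht⟩ : ∃ t, a 1 + a 2 = 2 * t := ⟨(a 1 + a 2)/2, by omega⟩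
      refine ⟨![s, t, t - a 1, s - a 0], ?_, ?_⟩
      · have h4 : 4 * qnorm ![s, t, t - a 1, s - a 0] = 4 * p := by
          simp [qnorm]
          have e1 : a 3 = 2 * s - a 0 := by linarith
          have e3 : a 2 = 2 * t - a 1 := by linarith
          rw [e1, e3] at hN
          nlinarith [hN]
        linarith
      · apply r408_step p hp 2 ht2 y a _ ![1, 0, 0, 1] hya <;> simp <;> linarith
  · subst h3'
    have hp3 : p ≠ 3 := by
      intro h
      have := h3 h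
      rw [hm, h] at this
      norm_num at this
    have ht3 : ¬ p ∣ 3 := by
      intro h
      exact hp3 ((Nat.prime_dvd_prime_iff_eq hp Nat.prime_three).mp h)
    have red : ∀ x : ℤ, ∃ be c : ℤ, x = be + 3 * c ∧ (be = 0 ∨ be = 1 ∨ be = -1) := by
      intro x
      have : x % 3 = 0 ∨ x % 3 = 1 ∨ x % 3 = 2 := by omega
      rcases this with h | h | h
      · exact ⟨0, x/3, by omega, by simp⟩
      · exact ⟨1, x/3, by omega, by simp⟩
      · exact ⟨-1, x/3 + 1, by omega, by simp⟩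
    obtain ⟨b0, c0, h0, r0⟩ := red (a 0)
    obtain ⟨b1, c1, h1, r1⟩ := red (a 1)
    obtain ⟨b2, c2, h2, r2⟩ := red (a 2)
    obtain ⟨b3, c3, h3a, r3⟩ := red (a 3)
    have hdv : (3:ℤ) ∣ b0^2 + b1^2 + b2^2 + b3^2 := by
      refine ⟨p - (2 * b0 * c0 + 3 * c0^2 + 2 * b1 * c1 + 3 * c1^2 + 2 * b2 * c2 + 3 * c2^2 + 2 * b3 * c3 + 3 * c3^2), ?_⟩
      rw [h0, h1, h2, h3a] at hN
      linear_combination hN
    have q0 : b0^2 = 0 ∨ b0^2 = 1 := by rcases r0 with h | h | h <;> simp [h]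
    have q1 : b1^2 = 0 ∨ b1^2 = 1 := by rcases r1 with h | h | h <;> simp [h]
    have q2 : b2^2 = 0 ∨ b2^2 = 1 := by rcases r2 with h | h | h <;> simp [h]
    have q3 : b3^2 = 0 ∨ b3^2 = 1 := by rcases r3 with h | h | h <;> simp [h]
    have hcase : (b0^2 = 0 ∧ b1^2 = 0 ∧ b2^2 = 0 ∧ b3^2 = 0) ∨ b0^2 + b1^2 + b2^2 + b3^2 = 3 := by omega
    rcases hcase with ⟨z0, z1, z2, z3⟩ | hb
    · exfalso
      have z0' : b0 = 0 := by simpa using z0
      have z1' : b1 = 0 := by simpa using z1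
      have z2' : b2 = 0 := by simpa using z2
      have z3' : b3 = 0 := by simpa using z3
      rw [h0, h1, h2, h3a, z0', z1', z2', z3'] at hN
      have hd : (3:ℤ) ∣ (p:ℤ) := ⟨c0^2 + c1^2 + c2^2 + c3^2, by linarith⟩
      have hd' : 3 ∣ p := by exact_mod_cast hd
      exact hp3 ((Nat.prime_dvd_prime_iff_eq Nat.prime_three hp).mp hd').symm
    · obtain ⟨B0, hB0⟩ : ∃ B0, B0 = 1 + (b0 * c0 + b1 * c1 + b2 * c2 + b3 * c3) := ⟨_, rfl⟩
      obtain ⟨B1, hB1⟩ : ∃ B1, B1 = b0 * c1 - b1 * c0 - b2 * c3 + b3 * c2 := ⟨_, rfl⟩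
      obtain ⟨B2, hB2⟩ : ∃ B2, B2 = b0 * c2 + b1 * c3 - b2 * c0 - b3 * c1 := ⟨_, rfl⟩
      obtain ⟨B3, hB3⟩ : ∃ B3, B3 = b0 * c3 - b1 * c2 + b2 * c1 - b3 * c0 := ⟨_, rfl⟩
      have e0 : 3 * B0 = b0 * a 0 + b1 * a 1 + b2 * a 2 + b3 * a 3 := by
        rw [hB0, h0, h1, h2, h3a]; linear_combination -hb
      have e1 : 3 * B1 = b0 * a 1 - b1 * a 0 - b2 * a 3 + b3 * a 2 := by
        rw [hB1, h0, h1, h2, h3a]; ring
      have e2 : 3 * B2 = b0 * a 2 + b1 * a 3 - b2 * a 0 - b3 * a 1 := by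
        rw [hB2, h0, h1, h2, h3a]; ring
      have e3 : 3 * B3 = b0 * a 3 - b1 * a 2 + b2 * a 1 - b3 * a 0 := by
        rw [hB3, h0, h1, h2, h3a]; ring
      refine ⟨![B0, B1, B2, B3], ?_, ?_⟩
      · have h9 : 9 * qnorm ![B0, B1, B2, B3] = 9 * p := by
          have : 9 * qnorm ![B0, B1, B2, B3] = (3*B0)^2 + (3*B1)^2 + (3*B2)^2 + (3*B3)^2 := by
            simp [qnorm]; ring
          rw [this, e0, e1, e2, e3]
          linear_combination (b0^2 + b1^2 + b2^2 + b3^2) * hN + (p:ℤ) * 3 * hb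
        linarith
      · apply r408_step p hp 3 ht3 y a _ ![b0, b1, b2, b3] hya <;> simp <;> linarith


end J1b

end AdTorus
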