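import Pool.Agent.AdTorus.Defs2

set_option autoImplicit false

noncomputable section

namespace AdTorus

open Topology Filter RestrictedProduct MeasureTheory

namespace J2



theorem qnorm_qmul' {R : Type} [CommRing R] (x y : Fin 4 → R) :
    qnorm (qmul x y) = qnorm x * qnorm y := by
  simp only [qnorm, qmul, Matrix.cons_val_zero, Matrix.cons_val_one, Matrix.cons_val]
  ring

theorem qnorm_qconj' {R : Type} [CommRing R] (x : Fin 4 → R) :
    qnorm (qconj x) = qnorm x := by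
  simp only [qnorm, qconj, Matrix.cons_val_zero, Matrix.cons_val_one, Matrix.cons_val]
  ring

theorem qnorm_smul' {R : Type} [CommRing R] (c : R) (x : Fin 4 → R) :
    qnorm (fun j => c * x j) = c ^ 2 * qnorm x := by
  simp only [qnorm]
  ring

theorem qmul_smul_left' {R : Type} [CommRing R] (c : R) (x y : Fin 4 → R) (j : Fin 4) :
    qmul (fun j => c * x j) y j = c * qmul x y j := by
  simp only [qmul]
  fin_cases j <;> simp <;> ring

theorem qmul_conj_assoc' {R : Type} [CommRing R] (y a b : Fin 4 → R) :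
    qmul y (qconj (qmul a b)) = qmul (qmul y (qconj b)) (qconj a) := by
  funext j
  simp only [qmul, qconj]
  fin_cases j <;> simp <;> ring

theorem qmul_map' {R S : Type} [CommRing R] [CommRing S] (f : R →+* S) (x y : Fin 4 → R)
    (j : Fin 4) : qmul (fun i => f (x i)) (fun i => f (y i)) j = f (qmul x y j) := by
  simp only [qmul]
  fin_cases j <;> simp

theorem qconj_map' {R S : Type} [CommRing R] [CommRing S] (f : R →+* S) (x : Fin 4 → R) :
    qconj (fun i => f (x i)) = fun i => f (qconj x i) := by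
  funext j
  simp only [qconj]
  fin_cases j <;> simp

theorem qnorm_map' {R S : Type} [CommRing R] [CommRing S] (f : R →+* S) (x : Fin 4 → R) :
    qnorm (fun i => f (x i)) = f (qnorm x) := by
  simp only [qnorm, map_add, map_pow]

theorem qmul_dvd_left' {R : Type} [CommRing R] (c : R) (x y : Fin 4 → R)
    (h : ∀ j, c ∣ x j) (j : Fin 4) : c ∣ qmul x y j := by
  choose z hz using h
  have : x = fun j => c * z j := funext hz
  rw [this, qmul_smul_left']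
  exact Dvd.intro _ rfl

theorem padic_key
    (J1 : ∀ (p : ℕ), p.Prime → p ≠ 2 → ∀ (y : Fin 4 → ℤ), (p : ℤ) ∣ qnorm y →
      ∃ b : Fin 4 → ℤ, qnorm b = p ∧ ∀ j, (p : ℤ) ∣ qmul y (qconj b) j)
    (p : ℕ) [hp : Fact p.Prime] (hodd : p ≠ 2) (c : ℤ_[p]) (n : ℕ) :
    ∀ y : Fin 4 → ℤ_[p], qnorm y = (p : ℤ_[p]) ^ n * c →
      ∃ a : Fin 4 → ℤ, qnorm a = (p : ℤ) ^ n ∧
        ∀ j, (p : ℤ_[p]) ^ n ∣ qmul y (qconj (fun i => ((a i : ℤ) : ℤ_[p]))) j := by
  induction n with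
  | zero =>
    intro y hy
    refine ⟨![1, 0, 0, 0], by simp [qnorm], fun j => ?_⟩
    rw [pow_zero]
    exact one_dvd _
  | succ n ih =>
    intro y hy
    have hp0 : (p : ℤ_[p]) ≠ 0 := by
      exact_mod_cast hp.out.ne_zero
    -- integer approximation
    have happ : ∀ j, ∃ m : ℤ, (p : ℤ_[p]) ∣ y j - (m : ℤ_[p]) := by
      intro j
      refine ⟨((y j).appr 1 : ℕ), ?_⟩
      have := PadicInt.appr_spec 1 (y j)
      rw [pow_one, Ideal.mem_span_singleton] at this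
      simpa using this
    choose y' hy' using happ
    choose z hz using hy'
    have hyz : y = fun j => ((y' j : ℤ) : ℤ_[p]) + p * z j := by
      funext j
      rw [← hz j]; ring
    have hcastn : qnorm (fun j => ((y' j : ℤ) : ℤ_[p])) = ((qnorm y' : ℤ) : ℤ_[p]) :=
      qnorm_map' (Int.castRingHom ℤ_[p]) y'
    have hdiv : (p : ℤ) ∣ qnorm y' := by
      have h1 : (p : ℤ_[p]) ∣ ((qnorm y' : ℤ) : ℤ_[p]) := by
        rw [← hcastn]
        have h2 : qnorm y = qnorm (fun j => ((y' j : ℤ) : ℤ_[p])) +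
            p * (2 * ((y' 0 : ℤ_[p]) * z 0 + y' 1 * z 1 + y' 2 * z 2 + y' 3 * z 3)
              + p * (z 0 ^ 2 + z 1 ^ 2 + z 2 ^ 2 + z 3 ^ 2)) := by
          rw [hyz]; simp only [qnorm]; ring
        have h3 : qnorm (fun j => ((y' j : ℤ) : ℤ_[p])) =
            p * (p ^ n * c - (2 * ((y' 0 : ℤ_[p]) * z 0 + y' 1 * z 1 + y' 2 * z 2 + y' 3 * z 3)
              + p * (z 0 ^ 2 + z 1 ^ 2 + z 2 ^ 2 + z 3 ^ 2))) := by
          rw [hy] at h2
          linear_combination -h2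
        rw [h3]
        exact Dvd.intro _ rfl
      have h4 : ‖((qnorm y' : ℤ) : ℤ_[p])‖ < 1 := (PadicInt.norm_lt_one_iff_dvd _).2 h1
      exact (PadicInt.norm_int_lt_one_iff_dvd _).1 h4
    obtain ⟨b, hb1, hb2⟩ := J1 p hp.out hodd y' hdiv
    have hdb : ∀ j, (p : ℤ_[p]) ∣ qmul y (qconj (fun i => ((b i : ℤ) : ℤ_[p]))) j := by
      intro j
      have e1 : qmul y (qconj (fun i => ((b i : ℤ) : ℤ_[p]))) j =
          qmul (fun j => ((y' j : ℤ) : ℤ_[p])) (qconj (fun i => ((b i : ℤ) : ℤ_[p]))) j +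
          qmul (fun j => (p : ℤ_[p]) * z j) (qconj (fun i => ((b i : ℤ) : ℤ_[p]))) j := by
        rw [hyz]
        simp only [qmul]
        fin_cases j <;> simp <;> ring
      rw [e1]
      refine dvd_add ?_ (by rw [qmul_smul_left']; exact Dvd.intro _ rfl)
      have e2 : qconj (fun i => ((b i : ℤ) : ℤ_[p])) = fun i => ((qconj b i : ℤ) : ℤ_[p]) :=
        qconj_map' (Int.castRingHom ℤ_[p]) b
      have e3 : qmul (fun j => ((y' j : ℤ) : ℤ_[p])) (fun i => ((qconj b i : ℤ) : ℤ_[p])) j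
          = ((qmul y' (qconj b) j : ℤ) : ℤ_[p]) :=
        qmul_map' (Int.castRingHom ℤ_[p]) y' (qconj b) j
      rw [e2, e3]
      obtain ⟨w, hw⟩ := hb2 j
      rw [hw]
      refine ⟨(w : ℤ_[p]), by push_cast; ring⟩
    choose y1 hy1 using hdb
    have hy1' : qmul y (qconj (fun i => ((b i : ℤ) : ℤ_[p]))) = fun j => (p : ℤ_[p]) * y1 j :=
      funext hy1
    have hbn : qnorm (fun i => ((b i : ℤ) : ℤ_[p])) = (p : ℤ_[p]) := by
      have := qnorm_map' (Int.castRingHom ℤ_[p]) b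
      rw [hb1] at this
      simpa using this
    have hn1 : qnorm y1 = (p : ℤ_[p]) ^ n * c := by
      have h1 := qnorm_qmul' y (qconj (fun i => ((b i : ℤ) : ℤ_[p])))
      rw [hy1', qnorm_smul', qnorm_qconj', hbn, hy] at h1
      have h2 : (p : ℤ_[p]) ^ 2 ≠ 0 := pow_ne_zero _ hp0
      apply mul_left_cancel₀ h2
      rw [h1]; ring
    obtain ⟨a1, ha1, ha2⟩ := ih y1 hn1
    refine ⟨qmul a1 b, by rw [qnorm_qmul', ha1, hb1]; ring, fun j => ?_⟩
    have e4 : (fun i => ((qmul a1 b i : ℤ) : ℤ_[p])) =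
        qmul (fun i => ((a1 i : ℤ) : ℤ_[p])) (fun i => ((b i : ℤ) : ℤ_[p])) := by
      funext i
      exact (qmul_map' (Int.castRingHom ℤ_[p]) a1 b i).symm
    rw [e4, qmul_conj_assoc', hy1', qmul_smul_left', pow_succ, mul_comm ((p : ℤ_[p]) ^ n)]
    exact mul_dvd_mul_left _ (ha2 j)

/-- Local descent at an odd prime. -/
theorem padic_descent
    (J1 : ∀ (p : ℕ), p.Prime → p ≠ 2 → ∀ (y : Fin 4 → ℤ), (p : ℤ) ∣ qnorm y →
      ∃ b : Fin 4 → ℤ, qnorm b = p ∧ ∀ j, (p : ℤ) ∣ qmul y (qconj b) j)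
    (p : ℕ) [Fact p.Prime] (hodd : p ≠ 2) (x : D1 ℚ_[p]) :
    ∃ γ : D1 ℚ, (∀ (q : ℕ) [Fact q.Prime], q ≠ p → D1.map (algebraMap ℚ ℚ_[q]) γ ∈ Kp q) ∧
      x * (D1.map (algebraMap ℚ ℚ_[p]) γ)⁻¹ ∈ Kp p := by
  have hp : p.Prime := Fact.out
  have hp0 : (p : ℚ_[p]) ≠ 0 := by exact_mod_cast hp.ne_zero
  have hpQ : (p : ℚ) ≠ 0 := by exact_mod_cast hp.ne_zero
  -- a common power
  obtain ⟨k, hk⟩ : ∃ k : ℕ, ∀ j, ‖(p : ℚ_[p]) ^ k * x.val j‖ ≤ 1 := by
    have h1 : ∀ j, ∃ k : ℕ, ‖(p : ℚ_[p]) ^ k * x.val j‖ ≤ 1 := by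
      intro j
      have htend : Tendsto (fun k : ℕ => ‖(p : ℚ_[p])‖ ^ k * ‖x.val j‖) atTop (𝓝 (0 * ‖x.val j‖)) :=
        (tendsto_pow_atTop_nhds_zero_of_lt_one (norm_nonneg _) (Padic.norm_p_lt_one)).mul_const _
      rw [zero_mul] at htend
      obtain ⟨k, hk⟩ := (htend.eventually (gt_mem_nhds (zero_lt_one))).exists
      exact ⟨k, by rw [norm_mul, norm_pow]; exact hk.le⟩
    choose K hK using h1
    refine ⟨∑ j, K j, fun j => ?_⟩
    have hle : K j ≤ ∑ j, K j := Finset.single_le_sum (f := K) (fun _ _ => Nat.zero_le _)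
      (Finset.mem_univ j)
    obtain ⟨m, hm⟩ := Nat.exists_eq_add_of_le hle
    rw [hm, pow_add, mul_comm ((p : ℚ_[p]) ^ K j), mul_assoc, norm_mul, norm_pow]
    exact mul_le_one₀ (pow_le_one₀ (norm_nonneg _) (Padic.norm_p_lt_one).le) (norm_nonneg _) (hK j)
  let y : Fin 4 → ℤ_[p] := fun j => ⟨(p : ℚ_[p]) ^ k * x.val j, hk j⟩
  have hyc : ∀ j, ((y j : ℤ_[p]) : ℚ_[p]) = (p : ℚ_[p]) ^ k * x.val j := fun j => rfl
  have hyn : qnorm y = (p : ℤ_[p]) ^ (2 * k) * 1 := by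
    apply Subtype.val_injective
    have h1 : ((qnorm y : ℤ_[p]) : ℚ_[p]) = qnorm (fun j => ((y j : ℤ_[p]) : ℚ_[p])) :=
      (qnorm_map' (PadicInt.Coe.ringHom (p := p)) y).symm
    rw [h1]
    simp only [hyc]
    rw [qnorm_smul', x.nrm]
    push_cast
    ring
  obtain ⟨a, ha1, ha2⟩ := padic_key J1 p hodd 1 (2 * k) y hyn
  let γ : D1 ℚ := ⟨fun j => ((p : ℚ) ^ k)⁻¹ * (a j : ℚ), by
    rw [qnorm_smul']
    have h1 : qnorm (fun j => ((a j : ℤ) : ℚ)) = ((qnorm a : ℤ) : ℚ) :=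
      qnorm_map' (Int.castRingHom ℚ) a
    rw [h1, ha1]
    push_cast
    rw [inv_pow, ← pow_mul, mul_comm k 2]
    exact inv_mul_cancel₀ (pow_ne_zero _ hpQ)⟩
  refine ⟨γ, ?_, ?_⟩
  · intro q hq hqp j
    have h1 : (D1.map (algebraMap ℚ ℚ_[q]) γ).val j =
        (((p : ℚ_[q]) ^ k)⁻¹) * ((a j : ℤ) : ℚ_[q]) := by
      rw [D1.map_val]
      simp [γ]
    show ‖(D1.map (algebraMap ℚ ℚ_[q]) γ).val j‖ ≤ 1
    rw [h1, norm_mul, norm_inv, norm_pow]
    have h2 : ‖(p : ℚ_[q])‖ = 1 := by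
      have h3 : ¬ (q : ℤ) ∣ (p : ℤ) := by
        intro h
        have h4 : q ∣ p := by exact_mod_cast h
        exact hqp ((Nat.prime_dvd_prime_iff_eq hq.out hp).1 h4)
      have h5 : ¬ ‖((p : ℤ) : ℚ_[q])‖ < 1 := fun h => h3 (Padic.norm_intCast_lt_one_iff.1 h)
      have h6 : ‖((p : ℤ) : ℚ_[q])‖ ≤ 1 := Padic.norm_int_le_one _
      have h7 : ‖((p : ℤ) : ℚ_[q])‖ = 1 := le_antisymm h6 (not_lt.1 h5)
      simpa using h7
    rw [h2, one_pow, inv_one, one_mul]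
    exact Padic.norm_int_le_one _
  · intro j
    have h1 : (D1.map (algebraMap ℚ ℚ_[p]) γ).val =
        fun j => (((p : ℚ_[p]) ^ k)⁻¹) * ((a j : ℤ) : ℚ_[p]) := by
      funext j
      rw [D1.map_val]
      simp [γ]
    have hx : x.val = fun j => (((p : ℚ_[p]) ^ k)⁻¹) * ((y j : ℤ_[p]) : ℚ_[p]) := by
      funext j
      rw [hyc, inv_mul_cancel_left₀ (pow_ne_zero _ hp0)]
    obtain ⟨w, hw⟩ := ha2 j
    have h2 : (x * (D1.map (algebraMap ℚ ℚ_[p]) γ)⁻¹).val j = ((w : ℤ_[p]) : ℚ_[p]) := by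
      rw [D1.mul_val, D1.inv_val, h1, hx]
      have h3 : qmul (fun j => (((p : ℚ_[p]) ^ k)⁻¹) * ((y j : ℤ_[p]) : ℚ_[p]))
          (qconj (fun j => (((p : ℚ_[p]) ^ k)⁻¹) * ((a j : ℤ) : ℚ_[p]))) j =
          (((p : ℚ_[p]) ^ k)⁻¹) ^ 2 * qmul (fun j => ((y j : ℤ_[p]) : ℚ_[p]))
            (qconj (fun j => ((a j : ℤ) : ℚ_[p]))) j := by
        simp only [qmul, qconj]
        fin_cases j <;> simp <;> ring
      rw [h3]
      have h4 : qmul (fun j => ((y j : ℤ_[p]) : ℚ_[p])) (qconj (fun j => ((a j : ℤ) : ℚ_[p]))) j =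
          ((qmul y (qconj (fun i => ((a i : ℤ) : ℤ_[p]))) j : ℤ_[p]) : ℚ_[p]) := by
        have h5 := qmul_map' (PadicInt.Coe.ringHom (p := p)) y
          (qconj (fun i => ((a i : ℤ) : ℤ_[p]))) j
        have h6 := qconj_map' (PadicInt.Coe.ringHom (p := p)) (fun i => ((a i : ℤ) : ℤ_[p]))
        rw [← h6] at h5
        refine Eq.trans ?_ h5
        simp [PadicInt.Coe.ringHom]
        rfl
      rw [h4, hw]
      push_cast
      rw [inv_pow, ← pow_mul, mul_comm k 2]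
      exact inv_mul_cancel_left₀ (pow_ne_zero _ hp0) _
    rw [h2]
    exact w.2


end J2

end AdTorus
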