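import Pool.Agent.AdTorus.Defs2

set_option autoImplicit false

noncomputable section

namespace AdTorus

open Topology Filter RestrictedProduct MeasureTheory

namespace J3



theorem two_adic_dec0 : ∀ a b c d : ZMod 8, a ^ 2 + b ^ 2 + c ^ 2 + d ^ 2 = 0 →
    4 * a = 0 ∧ 4 * b = 0 ∧ 4 * c = 0 ∧ 4 * d = 0 := by
  decide +kernel

theorem two_adic_dec4 : ∀ a b c d : ZMod 8, a ^ 2 + b ^ 2 + c ^ 2 + d ^ 2 = 4 →
    (4 * a = 0 ∧ 4 * b = 0 ∧ 4 * c = 0 ∧ 4 * d = 0) ∨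
    (2 * (a + b + c + d) = 0 ∧ 2 * (a - b + c - d) = 0 ∧ 2 * (a - b - c + d) = 0 ∧
      2 * (a + b - c - d) = 0) ∨
    (2 * (-a + b + c + d) = 0 ∧ 2 * (-a - b - c + d) = 0 ∧ 2 * (-a + b - c - d) = 0 ∧
      2 * (-a - b + c - d) = 0) := by
  decide +kernel

/-- reduction modulo eight -/
def two_adic_phi : ℤ_[2] →+* ZMod 8 := PadicInt.toZModPow 3

theorem two_adic_dvd (s : ℤ_[2]) (h : two_adic_phi s = 0) : (8 : ℤ_[2]) ∣ s := by
  have h1 : s ∈ RingHom.ker (PadicInt.toZModPow 3 : ℤ_[2] →+* ZMod (2 ^ 3)) := h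
  rw [PadicInt.ker_toZModPow, Ideal.mem_span_singleton] at h1
  have h2 : ((2 : ℕ) : ℤ_[2]) ^ 3 = 8 := by norm_num
  rwa [h2] at h1

theorem two_adic_dvd4 (s : ℤ_[2]) (h : 4 * two_adic_phi s = 0) : ∃ t, s = 2 * t := by
  have h1 : two_adic_phi (4 * s) = 0 := by rw [map_mul, map_ofNat]; exact h
  obtain ⟨t, ht⟩ := two_adic_dvd _ h1
  refine ⟨t, ?_⟩
  have h4 : (4 : ℤ_[2]) ≠ 0 := by norm_num
  apply mul_left_cancel₀ h4
  rw [ht]
  ring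

theorem two_adic_dvd2 (s : ℤ_[2]) (h : 2 * two_adic_phi s = 0) : ∃ t, s = 4 * t := by
  have h1 : two_adic_phi (2 * s) = 0 := by rw [map_mul, map_ofNat]; exact h
  obtain ⟨t, ht⟩ := two_adic_dvd _ h1
  refine ⟨t, ?_⟩
  have h4 : (2 : ℤ_[2]) ≠ 0 := by norm_num
  apply mul_left_cancel₀ h4
  rw [ht]
  ring

theorem two_adic_desc (k : ℕ) : ∀ u : Fin 4 → ℤ_[2],
    u 0 ^ 2 + u 1 ^ 2 + u 2 ^ 2 + u 3 ^ 2 = 4 ^ (k + 1) →
    ∃ v : Fin 4 → ℤ_[2], ∀ j, u j = 2 ^ k * v j := by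
  induction k with
  | zero =>
    intro u _
    exact ⟨u, fun j => by simp⟩
  | succ k ih =>
    intro u hu
    have h1 := congrArg two_adic_phi hu
    simp only [map_add, map_pow, map_ofNat] at h1
    have h2 : (4 : ZMod 8) ^ (k + 1 + 1) = 0 := by
      rw [pow_succ, pow_succ, mul_assoc]
      have : (4 : ZMod 8) * 4 = 0 := by decide
      rw [this, mul_zero]
    rw [h2] at h1
    obtain ⟨e0, e1, e2, e3⟩ := two_adic_dec0 _ _ _ _ h1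
    obtain ⟨t0, h0⟩ := two_adic_dvd4 _ e0
    obtain ⟨t1, h1'⟩ := two_adic_dvd4 _ e1
    obtain ⟨t2, h2'⟩ := two_adic_dvd4 _ e2
    obtain ⟨t3, h3'⟩ := two_adic_dvd4 _ e3
    have hs : (![t0, t1, t2, t3] : Fin 4 → ℤ_[2]) 0 ^ 2 + (![t0, t1, t2, t3] : Fin 4 → ℤ_[2]) 1 ^ 2 +
        (![t0, t1, t2, t3] : Fin 4 → ℤ_[2]) 2 ^ 2 + (![t0, t1, t2, t3] : Fin 4 → ℤ_[2]) 3 ^ 2 =
        4 ^ (k + 1) := by
      show t0 ^ 2 + t1 ^ 2 + t2 ^ 2 + t3 ^ 2 = 4 ^ (k + 1)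
      have h4 : (4 : ℤ_[2]) ≠ 0 := by norm_num
      apply mul_left_cancel₀ h4
      rw [h0, h1', h2', h3'] at hu
      rw [pow_succ 4 (k + 1)] at hu
      linear_combination hu
    obtain ⟨v, hv⟩ := ih _ hs
    refine ⟨v, fun j => ?_⟩
    have hj := hv j
    fin_cases j
    · change t0 = 2 ^ k * v 0 at hj
      show u 0 = 2 ^ (k + 1) * v 0
      rw [h0, hj]; ring
    · change t1 = 2 ^ k * v 1 at hj
      show u 1 = 2 ^ (k + 1) * v 1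
      rw [h1', hj]; ring
    · change t2 = 2 ^ k * v 2 at hj
      show u 2 = 2 ^ (k + 1) * v 2
      rw [h2', hj]; ring
    · change t3 = 2 ^ k * v 3 at hj
      show u 3 = 2 ^ (k + 1) * v 3
      rw [h3', hj]; ring

theorem two_adic_c2 : ((2 : ℤ_[2]) : ℚ_[2]) = 2 := rfl

theorem two_adic_c4 : ((4 : ℤ_[2]) : ℚ_[2]) = 4 := rfl

theorem two_adic_half (x : D1 ℚ_[2]) : ∃ v : Fin 4 → ℤ_[2], (∀ j, x.val j = (v j : ℚ_[2]) / 2) ∧
    v 0 ^ 2 + v 1 ^ 2 + v 2 ^ 2 + v 3 ^ 2 = 4 := by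
  have hx := x.nrm
  simp only [qnorm] at hx
  obtain ⟨K, hK⟩ : ∃ K : ℕ, ∀ j, ‖x.val j‖ ≤ (2:ℝ) ^ K := by
    obtain ⟨K, hK⟩ := pow_unbounded_of_one_lt (∑ j, ‖x.val j‖) (one_lt_two : (1:ℝ) < 2)
    refine ⟨K, fun j => le_trans ?_ hK.le⟩
    exact Finset.single_le_sum (f := fun j => ‖x.val j‖) (fun i _ => norm_nonneg _) (Finset.mem_univ j)
  have hn2 : ‖(2 : ℚ_[2])‖ = 2⁻¹ := by
    have := Padic.norm_p (p := 2)
    simpa using this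
  have hint : ∀ j, ‖(2 : ℚ_[2]) ^ (K + 1) * x.val j‖ ≤ 1 := by
    intro j
    rw [norm_mul, norm_pow, hn2, inv_pow, inv_mul_le_iff₀ (by positivity), mul_one]
    refine (hK j).trans ?_
    exact pow_le_pow_right₀ (by norm_num) (Nat.le_succ K)
  obtain ⟨u, hu⟩ : ∃ u : Fin 4 → ℤ_[2], ∀ j, (u j : ℚ_[2]) = 2 ^ (K + 1) * x.val j :=
    ⟨fun j => ⟨_, hint j⟩, fun j => rfl⟩
  have hsq : u 0 ^ 2 + u 1 ^ 2 + u 2 ^ 2 + u 3 ^ 2 = 4 ^ (K + 1) := by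
    apply Subtype.ext
    have h4 : (4 : ℚ_[2]) ^ (K + 1) = (2 ^ (K + 1)) ^ 2 := by
      rw [← pow_mul, mul_comm (K + 1) 2, pow_mul]
      norm_num
    have h4' : ((4 ^ (K + 1) : ℤ_[2]) : ℚ_[2]) = (4 : ℚ_[2]) ^ (K + 1) := by
      rw [PadicInt.coe_pow, two_adic_c4]
    show ((u 0 ^ 2 + u 1 ^ 2 + u 2 ^ 2 + u 3 ^ 2 : ℤ_[2]) : ℚ_[2]) = ((4 ^ (K + 1) : ℤ_[2]) : ℚ_[2])
    rw [h4', h4]
    simp only [PadicInt.coe_add, PadicInt.coe_pow, hu]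
    linear_combination ((2 : ℚ_[2]) ^ (K + 1)) ^ 2 * hx
  obtain ⟨v, hv⟩ := two_adic_desc K u hsq
  have h2K : (2 : ℚ_[2]) ^ K ≠ 0 := pow_ne_zero _ two_ne_zero
  have hxv : ∀ j, x.val j = (v j : ℚ_[2]) / 2 := by
    intro j
    have h1 := congrArg (fun z : ℤ_[2] => (z : ℚ_[2])) (hv j)
    simp only [PadicInt.coe_mul, PadicInt.coe_pow, hu, two_adic_c2] at h1
    apply mul_left_cancel₀ h2K
    rw [pow_succ] at h1
    linear_combination h1 / 2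
  refine ⟨v, hxv, ?_⟩
  apply Subtype.ext
  rw [hxv 0, hxv 1, hxv 2, hxv 3] at hx
  show (v 0 : ℚ_[2]) ^ 2 + (v 1 : ℚ_[2]) ^ 2 + (v 2 : ℚ_[2]) ^ 2 + (v 3 : ℚ_[2]) ^ 2 = 4
  linear_combination 4 * hx

/-- the two units of order three -/
def two_adic_g1 : D1 ℚ where
  val := ![-(1 / 2), -(1 / 2), -(1 / 2), -(1 / 2)]
  nrm := by
    simp only [qnorm, Matrix.cons_val_zero, Matrix.cons_val_one, Matrix.cons_val]
    norm_num

def two_adic_g2 : D1 ℚ where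
  val := ![-(1 / 2), 1 / 2, 1 / 2, 1 / 2]
  nrm := by
    simp only [qnorm, Matrix.cons_val_zero, Matrix.cons_val_one, Matrix.cons_val]
    norm_num

theorem two_adic_inv2 (q : ℕ) [Fact q.Prime] (hq : q ≠ 2) : ‖algebraMap ℚ ℚ_[q] (1 / 2)‖ ≤ 1 := by
  rw [eq_ratCast]
  apply Padic.norm_rat_le_one
  have h1 : (1 / 2 : ℚ).den = 2 := by norm_num
  rw [h1]
  intro h
  exact hq ((Nat.prime_dvd_prime_iff_eq (Fact.out : q.Prime) Nat.prime_two).1 h)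

theorem two_adic_Kp (q : ℕ) [Fact q.Prime] (hq : q ≠ 2) (g : D1 ℚ)
    (hg : ∀ j, g.val j = 1 / 2 ∨ g.val j = -(1 / 2)) : D1.map (algebraMap ℚ ℚ_[q]) g ∈ Kp q := by
  intro j
  rw [D1.map_val]
  rcases hg j with h | h
  · rw [h]
    exact two_adic_inv2 q hq
  · rw [h, map_neg, norm_neg]
    exact two_adic_inv2 q hq

theorem two_adic_coord (y : D1 ℚ_[2]) (t : Fin 4 → ℤ_[2]) (h : ∀ j, y.val j = (t j : ℚ_[2])) :
    y ∈ Kp 2 := by
  intro j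
  rw [h j]
  exact (t j).2

/-- Local descent at two. -/
theorem two_adic (x : D1 ℚ_[2]) :
    ∃ γ : D1 ℚ, (∀ (q : ℕ) [Fact q.Prime], q ≠ 2 → D1.map (algebraMap ℚ ℚ_[q]) γ ∈ Kp q) ∧
      x * (D1.map (algebraMap ℚ ℚ_[2]) γ)⁻¹ ∈ Kp 2 := by
  obtain ⟨v, hv, hs⟩ := two_adic_half x
  have h1 := congrArg two_adic_phi hs
  simp only [map_add, map_pow, map_ofNat] at h1
  have hhalf : algebraMap ℚ ℚ_[2] (1 / 2) = (1 / 2 : ℚ_[2]) := by
    rw [eq_ratCast]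
    push_cast
    rfl
  rcases two_adic_dec4 _ _ _ _ h1 with ⟨e0, e1, e2, e3⟩ | ⟨e0, e1, e2, e3⟩ | ⟨e0, e1, e2, e3⟩
  · refine ⟨1, fun q _ _ => by rw [map_one]; exact one_mem _, ?_⟩
    rw [map_one, inv_one, mul_one]
    obtain ⟨t0, h0⟩ := two_adic_dvd4 _ e0
    obtain ⟨t1, h1'⟩ := two_adic_dvd4 _ e1
    obtain ⟨t2, h2'⟩ := two_adic_dvd4 _ e2
    obtain ⟨t3, h3'⟩ := two_adic_dvd4 _ e3
    apply two_adic_coord x ![t0, t1, t2, t3]
    intro j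
    rw [hv j]
    fin_cases j
    · show (v 0 : ℚ_[2]) / 2 = (t0 : ℚ_[2])
      rw [h0, PadicInt.coe_mul, two_adic_c2]; ring
    · show (v 1 : ℚ_[2]) / 2 = (t1 : ℚ_[2])
      rw [h1', PadicInt.coe_mul, two_adic_c2]; ring
    · show (v 2 : ℚ_[2]) / 2 = (t2 : ℚ_[2])
      rw [h2', PadicInt.coe_mul, two_adic_c2]; ring
    · show (v 3 : ℚ_[2]) / 2 = (t3 : ℚ_[2])
      rw [h3', PadicInt.coe_mul, two_adic_c2]; ring
  · refine ⟨two_adic_g1, fun q _ hq => two_adic_Kp q hq _ ?_, ?_⟩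
    · intro j
      right
      fin_cases j <;> rfl
    simp only [← map_add, ← map_sub] at e0 e1 e2 e3
    obtain ⟨t0, h0⟩ := two_adic_dvd2 _ e0
    obtain ⟨t1, h1'⟩ := two_adic_dvd2 _ e1
    obtain ⟨t2, h2'⟩ := two_adic_dvd2 _ e2
    obtain ⟨t3, h3'⟩ := two_adic_dvd2 _ e3
    have c0 := congrArg (fun z : ℤ_[2] => (z : ℚ_[2])) h0
    have c1 := congrArg (fun z : ℤ_[2] => (z : ℚ_[2])) h1'
    have c2 := congrArg (fun z : ℤ_[2] => (z : ℚ_[2])) h2'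
    have c3 := congrArg (fun z : ℤ_[2] => (z : ℚ_[2])) h3'
    push_cast at c0 c1 c2 c3
    simp only [two_adic_c4, two_adic_c2] at c0 c1 c2 c3
    apply two_adic_coord _ ![-t0, t1, t2, t3]
    intro j
    rw [D1.mul_val, D1.inv_val]
    simp only [qmul, qconj, D1.map_val, two_adic_g1, hv]
    fin_cases j
    · simp [hhalf, -one_div, -div_eq_inv_mul]
      linear_combination (-1 / 4 : ℚ_[2]) * c0
    · simp [hhalf, -one_div, -div_eq_inv_mul]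
      linear_combination (1 / 4 : ℚ_[2]) * c1
    · simp [hhalf, -one_div, -div_eq_inv_mul]
      linear_combination (1 / 4 : ℚ_[2]) * c2
    · simp [hhalf, -one_div, -div_eq_inv_mul]
      linear_combination (1 / 4 : ℚ_[2]) * c3
  · refine ⟨two_adic_g2, fun q _ hq => two_adic_Kp q hq _ ?_, ?_⟩
    · intro j
      fin_cases j
      · right; rfl
      · left; rfl
      · left; rfl
      · left; rfl
    simp only [← map_add, ← map_sub, ← map_neg] at e0 e1 e2 e3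
    obtain ⟨t0, h0⟩ := two_adic_dvd2 _ e0
    obtain ⟨t1, h1'⟩ := two_adic_dvd2 _ e1
    obtain ⟨t2, h2'⟩ := two_adic_dvd2 _ e2
    obtain ⟨t3, h3'⟩ := two_adic_dvd2 _ e3
    have c0 := congrArg (fun z : ℤ_[2] => (z : ℚ_[2])) h0
    have c1 := congrArg (fun z : ℤ_[2] => (z : ℚ_[2])) h1'
    have c2 := congrArg (fun z : ℤ_[2] => (z : ℚ_[2])) h2'
    have c3 := congrArg (fun z : ℤ_[2] => (z : ℚ_[2])) h3'
    push_cast at c0 c1 c2 c3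
    simp only [two_adic_c4, two_adic_c2] at c0 c1 c2 c3
    apply two_adic_coord _ ![t0, t1, t2, t3]
    intro j
    rw [D1.mul_val, D1.inv_val]
    simp only [qmul, qconj, D1.map_val, two_adic_g2, hv]
    fin_cases j
    · simp [hhalf, -one_div, -div_eq_inv_mul]
      linear_combination (1 / 4 : ℚ_[2]) * c0
    · simp [hhalf, -one_div, -div_eq_inv_mul]
      linear_combination (1 / 4 : ℚ_[2]) * c1
    · simp [hhalf, -one_div, -div_eq_inv_mul]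
      linear_combination (1 / 4 : ℚ_[2]) * c2
    · simp [hhalf, -one_div, -div_eq_inv_mul]
      linear_combination (1 / 4 : ℚ_[2]) * c3


end J3

end AdTorus
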