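import Pool.Agent.AdTorus.Defs2

set_option autoImplicit false

noncomputable section

namespace AdTorus

open Topology Filter RestrictedProduct MeasureTheory

namespace J4



theorem class_one_aux_J4
    (J2 : ∀ (p : ℕ) [Fact p.Prime] (x : D1 ℚ_[p]), ∃ γ : D1 ℚ,
      (∀ (q : ℕ) [Fact q.Prime], q ≠ p → D1.map (algebraMap ℚ ℚ_[q]) γ ∈ Kp q) ∧
      x * (D1.map (algebraMap ℚ ℚ_[p]) γ)⁻¹ ∈ Kp p)
    (s : Finset Nat.Primes) : ∀ x : D1A, (∀ p : Nat.Primes, p ∉ s → x.2 p ∈ Kp p) →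
      ∃ γ : D1 ℚ, x * (dg γ)⁻¹ ∈ KA := by
  classical
  induction s using Finset.induction with
  | empty =>
    intro x hx
    refine ⟨1, ?_⟩
    rw [map_one, inv_one, mul_one]
    exact mem_KA.2 fun p => hx p (by simp)
  | insert p s hps ih =>
    intro x hx
    obtain ⟨γ1, h1, h2⟩ := J2 p (x.2 p)
    have key : ∀ q : Nat.Primes,
        (x * (dg γ1)⁻¹).2 q = x.2 q * (D1.map (algebraMap ℚ ℚ_[q]) γ1)⁻¹ := by
      intro q
      have h := map_mul (comp1 q) x (dg γ1)⁻¹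
      rw [map_inv] at h
      exact h
    obtain ⟨γ2, h3⟩ := ih (x * (dg γ1)⁻¹) (by
      intro q hq
      rw [key]
      by_cases hqp : q = p
      · subst hqp; exact h2
      · refine mul_mem (hx q (by simp [hqp, hq])) (inv_mem (h1 q ?_))
        intro h; apply hqp; exact Subtype.ext h)
    refine ⟨γ2 * γ1, ?_⟩
    rw [map_mul, mul_inv_rev, ← mul_assoc]
    exact h3

/-- Class number one. -/
theorem class_one
    (J2 : ∀ (p : ℕ) [Fact p.Prime] (x : D1 ℚ_[p]), ∃ γ : D1 ℚ,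
      (∀ (q : ℕ) [Fact q.Prime], q ≠ p → D1.map (algebraMap ℚ ℚ_[q]) γ ∈ Kp q) ∧
      x * (D1.map (algebraMap ℚ ℚ_[p]) γ)⁻¹ ∈ Kp p)
    (x : D1A) : ∃ k ∈ KA, ∃ γ : D1 ℚ, x = k * dg γ := by
  have hfin : {p : Nat.Primes | ¬ (x.2 p ∈ Kp p)}.Finite := x.2.2
  obtain ⟨γ, hγ⟩ := class_one_aux_J4 J2 hfin.toFinset x (by
    intro p hp
    by_contra hc
    exact hp (hfin.mem_toFinset.2 hc))
  exact ⟨x * (dg γ)⁻¹, hγ, γ, by rw [inv_mul_cancel_right]⟩


end J4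

end AdTorus
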