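import Pool.Agent.AdTorus.Defs2

set_option autoImplicit false

noncomputable section

namespace AdTorus

open Topology Filter RestrictedProduct MeasureTheory

namespace J5a



theorem fi_den_one (q : ℚ) (h : ∀ p : Nat.Primes, ‖(q : ℚ_[p])‖ ≤ 1) : q.den = 1 := by
  by_contra hd
  have hp : (Nat.minFac q.den).Prime := Nat.minFac_prime hd
  have hdv : Nat.minFac q.den ∣ q.den := Nat.minFac_dvd _
  obtain ⟨p, hpe⟩ : ∃ p : Nat.Primes, (p : ℕ) = Nat.minFac q.den := ⟨⟨_, hp⟩, rfl⟩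
  rw [← hpe] at hdv
  have h1 := h p
  have h2 : ((q.num : ℤ) : ℚ_[p]) = (q : ℚ_[p]) * ((q.den : ℕ) : ℚ_[p]) := by
    have h3 : (q.num : ℚ) = q * q.den := (Rat.mul_den_eq_num q).symm
    exact_mod_cast congrArg (fun r : ℚ => (r : ℚ_[p])) h3
  have h4 : ‖((q.den : ℕ) : ℚ_[p])‖ < 1 := Padic.norm_natCast_lt_one_iff.2 hdv
  have h5 : ‖((q.num : ℤ) : ℚ_[p])‖ < 1 := by
    rw [h2, norm_mul]
    calc ‖(q : ℚ_[p])‖ * ‖((q.den : ℕ) : ℚ_[p])‖ ≤ 1 * ‖((q.den : ℕ) : ℚ_[p])‖ :=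
          mul_le_mul_of_nonneg_right h1 (norm_nonneg _)
      _ < 1 := by rw [one_mul]; exact h4
  have h6 : ((p : ℕ) : ℤ) ∣ q.num := Padic.norm_intCast_lt_one_iff.1 h5
  have h7 : (p : ℕ) ∣ q.num.natAbs := Int.natCast_dvd.1 h6
  have h8 : (p : ℕ) ∣ Nat.gcd q.num.natAbs q.den := Nat.dvd_gcd h7 hdv
  rw [q.reduced] at h8
  exact p.2.one_lt.ne' (Nat.dvd_one.1 h8)

theorem fi_coord (γ : D1 ℚ) (h : dg γ ∈ KA) (j : Fin 4) : γ.val j ∈ ({-1, 0, 1} : Set ℚ) := by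
  have hden : ∀ j, (γ.val j).den = 1 := fun j => fi_den_one _ fun p => by
    have h1 := mem_KA.1 h p j
    have h2 : ((dg γ).2 p).val j = ((γ.val j : ℚ) : ℚ_[p]) := by
      change algebraMap ℚ ℚ_[p] (γ.val j) = _
      rw [eq_ratCast]
    rwa [h2] at h1
  have hint : ∀ j, γ.val j = ((γ.val j).num : ℚ) := fun j => ((Rat.den_eq_one_iff _).1 (hden j)).symm
  have hn := γ.nrm
  simp only [qnorm] at hn
  rw [hint 0, hint 1, hint 2, hint 3] at hn
  have hn' : (γ.val 0).num ^ 2 + (γ.val 1).num ^ 2 + (γ.val 2).num ^ 2 + (γ.val 3).num ^ 2 = 1 := by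
    exact_mod_cast hn
  have hj : (γ.val j).num ^ 2 ≤ 1 := by
    fin_cases j <;> simp only [Fin.zero_eta, Fin.mk_one, Fin.reduceFinMk] <;>
      nlinarith [sq_nonneg (γ.val 0).num, sq_nonneg (γ.val 1).num, sq_nonneg (γ.val 2).num,
        sq_nonneg (γ.val 3).num]
  have h1 : -1 ≤ (γ.val j).num := by nlinarith
  have h2 : (γ.val j).num ≤ 1 := by nlinarith
  rw [hint j]
  have h3 : (γ.val j).num = -1 ∨ (γ.val j).num = 0 ∨ (γ.val j).num = 1 := by omega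
  rcases h3 with h3 | h3 | h3 <;> rw [h3] <;> simp

/-- Only finitely many rational points are everywhere integral. -/
theorem finite_integral : {γ : D1 ℚ | dg γ ∈ KA}.Finite := by
  refine Set.Finite.of_finite_image (f := fun γ : D1 ℚ => γ.val) ?_ ?_
  · have hf : (Set.pi Set.univ (fun _ : Fin 4 => ({-1, 0, 1} : Set ℚ))).Finite :=
      Set.Finite.pi fun _ => Set.toFinite _
    refine hf.subset ?_
    rintro _ ⟨γ, hγ, rfl⟩ j _
    exact fi_coord γ hγ j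
  · intro γ _ δ _ h
    exact D1.ext' fun j => congrFun h j


end J5a

end AdTorus
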