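import Pool.Agent.AdTorus.Defs2

set_option autoImplicit false

noncomputable section

namespace AdTorus

open Topology Filter RestrictedProduct MeasureTheory

namespace J5b




theorem coe_KA833 : (KA : Set D1A) = (Set.univ : Set (D1 ℝ)) ×ˢ
    {f : Πʳ p : Nat.Primes, [D1 ℚ_[p], Kp p] | ∀ p : Nat.Primes, f.1 p ∈ (Kp p : Set (D1 ℚ_[p]))} := by
  ext x
  rw [SetLike.mem_coe, mem_KA]
  constructor
  · intro h
    exact ⟨trivial, h⟩
  · intro h
    exact h.2

theorem continuous_qnorm833 {R : Type} [CommRing R] [TopologicalSpace R] [IsTopologicalRing R] :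
    Continuous (qnorm : (Fin 4 → R) → R) := by
  have h : ∀ k : Fin 4, Continuous (fun x : Fin 4 → R => x k) := fun k => continuous_apply k
  show Continuous (fun x : Fin 4 → R => x 0 ^ 2 + x 1 ^ 2 + x 2 ^ 2 + x 3 ^ 2)
  exact ((((h 0).pow 2).add ((h 1).pow 2)).add ((h 2).pow 2)).add ((h 3).pow 2)

theorem isOpen_Kp3_833 : IsOpen (Kp3 : Set (D1 ℚ_[3])) := by
  have h : ∀ k : Fin 4, Continuous (fun x : D1 ℚ_[3] => x.val k) := fun k => D1.continuous_coord k
  have e : (Kp3 : Set (D1 ℚ_[3])) = (Kp 3 : Set (D1 ℚ_[3])) ∩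
      ({q | ‖q.val 0 - 1‖ < 1} ∩ ({q | ‖q.val 1‖ < 1} ∩ ({q | ‖q.val 2‖ < 1} ∩ {q | ‖q.val 3‖ < 1}))) := by
    ext q
    rfl
  rw [e]
  refine (isOpen_Kp 3).inter ((isOpen_lt ((h 0).sub continuous_const).norm continuous_const).inter
    ((isOpen_lt (h 1).norm continuous_const).inter
      ((isOpen_lt (h 2).norm continuous_const).inter
        (isOpen_lt (h 3).norm continuous_const))))

theorem compactSpace_D1R833 : CompactSpace (D1 ℝ) := by
  rw [← isCompact_univ_iff, D1.isEmbedding_val.isInducing.isCompact_iff, Set.image_univ]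
  have e : Set.range (D1.val : D1 ℝ → (Fin 4 → ℝ)) = {v | qnorm v = 1} := by
    ext v
    constructor
    · rintro ⟨x, rfl⟩
      exact x.nrm
    · intro hv
      exact ⟨⟨v, hv⟩, rfl⟩
  rw [e]
  have hcl : IsClosed {v : Fin 4 → ℝ | qnorm v = 1} :=
    isClosed_eq continuous_qnorm833 continuous_const
  refine (isCompact_closedBall (0 : Fin 4 → ℝ) 1).of_isClosed_subset hcl ?_
  intro v hv
  have hv' : v 0 ^ 2 + v 1 ^ 2 + v 2 ^ 2 + v 3 ^ 2 = 1 := hv
  rw [mem_closedBall_zero_iff, pi_norm_le_iff_of_nonneg zero_le_one]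
  intro j
  rw [Real.norm_eq_abs, ← sq_le_one_iff_abs_le_one]
  have h0 := sq_nonneg (v 0)
  have h1 := sq_nonneg (v 1)
  have h2 := sq_nonneg (v 2)
  have h3 := sq_nonneg (v 3)
  fin_cases j
  · show v 0 ^ 2 ≤ 1
    linarith
  · show v 1 ^ 2 ≤ 1
    linarith
  · show v 2 ^ 2 ≤ 1
    linarith
  · show v 3 ^ 2 ≤ 1
    linarith

theorem isCompact_Kp833 (p : ℕ) [Fact p.Prime] : IsCompact (Kp p : Set (D1 ℚ_[p])) := by
  rw [D1.isEmbedding_val.isInducing.isCompact_iff]
  have e : D1.val '' (Kp p : Set (D1 ℚ_[p])) =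
      {v | qnorm v = 1} ∩ Metric.closedBall (0 : Fin 4 → ℚ_[p]) 1 := by
    ext v
    rw [Set.mem_inter_iff, mem_closedBall_zero_iff, pi_norm_le_iff_of_nonneg zero_le_one]
    constructor
    · rintro ⟨x, hx, rfl⟩
      exact ⟨x.nrm, hx⟩
    · rintro ⟨hv, hv2⟩
      exact ⟨⟨v, hv⟩, hv2, rfl⟩
  rw [e]
  have hcl : IsClosed {v : Fin 4 → ℚ_[p] | qnorm v = 1} :=
    isClosed_eq continuous_qnorm833 continuous_const
  exact (isCompact_closedBall (0 : Fin 4 → ℚ_[p]) 1).inter_left hcl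

/-- parametrisation of `KA` -/
def PhiKA833 : D1 ℝ × (∀ p : Nat.Primes, (Kp p : Set (D1 ℚ_[p]))) → D1A :=
  Prod.map id (RestrictedProduct.structureMap (fun p : Nat.Primes => D1 ℚ_[p])
    (fun p : Nat.Primes => (Kp p : Set (D1 ℚ_[p]))) cofinite)

theorem PhiKA_emb833 : IsEmbedding PhiKA833 :=
  IsEmbedding.id.prodMap RestrictedProduct.isEmbedding_structureMap

theorem PhiKA_range833 : Set.range PhiKA833 = (KA : Set D1A) := by
  unfold PhiKA833
  rw [Set.range_prodMap, Set.range_id, RestrictedProduct.range_structureMap, coe_KA833]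

theorem isOpen_KA : IsOpen (KA : Set D1A) := by
  rw [coe_KA833]
  exact isOpen_univ.prod (RestrictedProduct.isOpen_forall_mem (fun p => isOpen_Kp p))

theorem isOpen_K3 : IsOpen (K3 : Set D1A) := by
  have hc : Continuous (fun x : D1A => x.2 three) :=
    (RestrictedProduct.continuous_eval three).comp continuous_snd
  have h : (K3 : Set D1A) = (KA : Set D1A) ∩ (fun x : D1A => x.2 three) ⁻¹' (Kp3 : Set (D1 ℚ_[3])) := by
    ext x
    rfl
  rw [h]
  exact isOpen_KA.inter (isOpen_Kp3_833.preimage hc)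

theorem isCompact_KA : IsCompact (KA : Set D1A) := by
  have h1 : CompactSpace (D1 ℝ) := compactSpace_D1R833
  have h2 : ∀ p : Nat.Primes, CompactSpace (Kp p : Set (D1 ℚ_[p])) := fun p =>
    isCompact_iff_compactSpace.mp (isCompact_Kp833 p)
  rw [← PhiKA_range833]
  exact isCompact_range PhiKA_emb833.continuous

theorem secondCountable_KA : SecondCountableTopology KA := by
  have h2 : SecondCountableTopology (Set.range PhiKA833) :=
    PhiKA_emb833.toHomeomorph.symm.isEmbedding.secondCountableTopology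
  rw [PhiKA_range833] at h2
  exact h2


end J5b

end AdTorus
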