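import Pool.Agent.AdTorus.Defs2

set_option autoImplicit false

noncomputable section

namespace AdTorus

open Topology Filter RestrictedProduct MeasureTheory

namespace J6



theorem space_X (class_one : ∀ x : D1A, ∃ k ∈ KA, ∃ γ : D1 ℚ, x = k * dg γ)
    (finite_integral : {γ : D1 ℚ | dg γ ∈ KA}.Finite)
    (isOpen_KA : IsOpen (KA : Set D1A)) (isCompact_KA : IsCompact (KA : Set D1A))
    (secondCountable_KA : SecondCountableTopology KA) :
    CompactSpace X ∧ T2Space X ∧ SecondCountableTopology X := by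
  have hmul : ∀ k : D1A × D1A, ∀ γ1 γ2 : D1 ℚ,
      (QuotientGroup.mk ((k.1 * dg γ1, k.2 * dg γ2) : GA) : X) = QuotientGroup.mk (k : GA) := by
    intro k γ1 γ2
    symm
    refine QuotientGroup.eq.2 ?_
    refine ⟨(γ1, γ2), ?_⟩
    refine Prod.ext ?_ ?_
    · simp [MonoidHom.prodMap]
    · simp [MonoidHom.prodMap]
  have hsurj : ∀ q : X, ∃ k : GA, k.1 ∈ KA ∧ k.2 ∈ KA ∧ (QuotientGroup.mk k : X) = q := by
    intro q
    obtain ⟨x, rfl⟩ := QuotientGroup.mk_surjective q
    obtain ⟨k1, hk1, γ1, h1⟩ := class_one x.1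
    obtain ⟨k2, hk2, γ2, h2⟩ := class_one x.2
    refine ⟨(k1, k2), hk1, hk2, ?_⟩
    rw [← hmul (k1, k2) γ1 γ2]
    congr 1
    exact Prod.ext h1.symm h2.symm
  have hcont : Continuous (QuotientGroup.mk : GA → X) := QuotientGroup.continuous_mk
  have hopen : IsOpenMap (QuotientGroup.mk : GA → X) := QuotientGroup.isOpenMap_coe
  refine ⟨?_, ?_, ?_⟩
  · rw [← isCompact_univ_iff]
    have h : (Set.univ : Set X) = (QuotientGroup.mk : GA → X) '' ((KA : Set D1A) ×ˢ (KA : Set D1A)) := by
      symm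
      rw [Set.eq_univ_iff_forall]
      intro q
      obtain ⟨k, h1, h2, h3⟩ := hsurj q
      exact ⟨k, ⟨h1, h2⟩, h3⟩
    rw [h]
    exact (isCompact_KA.prod isCompact_KA).image hcont
  · have hfin : ((GQ : Set GA) ∩ ((KA : Set D1A) ×ˢ (KA : Set D1A))).Finite := by
      have h1 : (dg '' {γ : D1 ℚ | dg γ ∈ KA}).Finite := finite_integral.image _
      refine (h1.prod h1).subset ?_
      rintro ⟨x1, x2⟩ ⟨⟨⟨γ1, γ2⟩, hγ⟩, hx⟩
      have e1 : dg γ1 = x1 := congrArg Prod.fst hγ
      have e2 : dg γ2 = x2 := congrArg Prod.snd hγ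
      refine ⟨⟨γ1, ?_, e1⟩, ⟨γ2, ?_, e2⟩⟩
      · show dg γ1 ∈ KA
        rw [e1]; exact hx.1
      · show dg γ2 ∈ KA
        rw [e2]; exact hx.2
    have hdisc : DiscreteTopology GQ := by
      apply discreteTopology_of_isOpen_singleton_one
      have hU : IsOpen (((KA : Set D1A) ×ˢ (KA : Set D1A)) \
          (((GQ : Set GA) ∩ ((KA : Set D1A) ×ˢ (KA : Set D1A))) \ {1})) :=
        (isOpen_KA.prod isOpen_KA).sdiff ((hfin.subset Set.sdiff_subset).isClosed)
      rw [isOpen_induced_iff]
      refine ⟨_, hU, ?_⟩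
      ext g
      simp only [Set.mem_preimage, Set.mem_sdiff, Set.mem_inter_iff, Set.mem_singleton_iff,
        SetLike.mem_coe, SetLike.coe_mem, true_and, not_and, not_not]
      constructor
      · rintro ⟨h1, h2⟩
        exact Subtype.ext (h2 h1)
      · rintro rfl
        refine ⟨?_, fun _ => rfl⟩
        exact ⟨KA.one_mem, KA.one_mem⟩
    have hclosed : IsClosed (GQ : Set GA) := by
      have := hdisc
      exact Subgroup.isClosed_of_discrete
    have := hclosed
    exact QuotientGroup.instT2Space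
  · have hf : Continuous (fun k : KA × KA => (QuotientGroup.mk ((k.1 : D1A), (k.2 : D1A)) : X)) :=
      hcont.comp ((continuous_subtype_val.comp continuous_fst).prodMk
        (continuous_subtype_val.comp continuous_snd))
    have hfo : IsOpenMap (fun k : KA × KA => (QuotientGroup.mk ((k.1 : D1A), (k.2 : D1A)) : X)) := by
      have h1 : IsOpenMap (Prod.map (Subtype.val : KA → D1A) (Subtype.val : KA → D1A)) :=
        (isOpen_KA.isOpenMap_subtype_val).prodMap (isOpen_KA.isOpenMap_subtype_val)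
      exact hopen.comp h1
    have hfs : Function.Surjective
        (fun k : KA × KA => (QuotientGroup.mk ((k.1 : D1A), (k.2 : D1A)) : X)) := by
      intro q
      obtain ⟨k, h1, h2, h3⟩ := hsurj q
      exact ⟨(⟨k.1, h1⟩, ⟨k.2, h2⟩), h3⟩
    have := secondCountable_KA
    exact (hfo.isQuotientMap hf hfs).secondCountableTopology hfo


end J6

end AdTorus
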