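import Pool.Agent.AdTorus.Defs2

set_option autoImplicit false

noncomputable section

namespace AdTorus

open Topology Filter RestrictedProduct MeasureTheory

namespace J7



/-- the vector `m i + j` -/
def h74v (m : ℕ) (R : Type) [CommRing R] : Fin 4 → R := ![0, (m : R), 1, 0]

/-- conjugation action -/
def h74c {R : Type} [CommRing R] (x : Fin 4 → R) (v : Fin 4 → R) : Fin 4 → R :=
  qmul (qmul x v) (qconj x)

theorem h74c_mul {R : Type} [CommRing R] (x y : D1 R) (v : Fin 4 → R) :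
    h74c (x * y).val v = h74c x.val (h74c y.val v) := by
  funext j
  simp only [h74c, D1.mul_val, qmul, qconj]
  fin_cases j <;> simp <;> ring

theorem h74c_one {R : Type} [CommRing R] (v : Fin 4 → R) :
    h74c (1 : D1 R).val v = v := by
  funext j
  simp only [h74c, D1.one_val, qmul, qconj]
  fin_cases j <;> simp

theorem h74c_torus {m : ℕ} {R : Type} [CommRing R] (t : D1 R) (ht : t ∈ torus m R) :
    h74c t.val (h74v m R) = h74v m R := by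
  obtain ⟨h3, h1⟩ := ht
  have hn := t.nrm
  simp only [qnorm, h3, h1] at hn
  funext j
  simp only [h74c, h74v, qmul, qconj, h3, h1]
  fin_cases j <;> simp <;> first | ring1 | linear_combination (m : R) * hn | linear_combination hn

theorem h74c_norm {R : Type} [CommRing R] (x : D1 R) (v : Fin 4 → R) :
    qnorm (h74c x.val v) = qnorm v := by
  have e1 : ∀ a b : Fin 4 → R, qnorm (qmul a b) = qnorm a * qnorm b := by
    intro a b
    simp only [qnorm, qmul, Matrix.cons_val_zero, Matrix.cons_val_one, Matrix.cons_val]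
    ring
  have e2 : ∀ a : Fin 4 → R, qnorm (qconj a) = qnorm a := by
    intro a
    simp only [qnorm, qconj, Matrix.cons_val_zero, Matrix.cons_val_one, Matrix.cons_val]
    ring
  rw [h74c, e1, e1, e2, x.nrm]
  ring

theorem h74c_fix {m : ℕ} (d : D1 ℚ) (h : h74c d.val (h74v m ℚ) = h74v m ℚ) :
    d ∈ torus m ℚ := by
  have e1 : ∀ e : Fin 4 → ℚ, qmul (qmul e (qconj d.val)) d.val = e := by
    intro e
    have hn := d.nrm
    simp only [qnorm] at hn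
    funext j
    simp only [qmul, qconj]
    fin_cases j <;> simp
    · linear_combination e 0 * hn
    · linear_combination e 1 * hn
    · linear_combination e 2 * hn
    · linear_combination e 3 * hn
  have e2 : qmul (h74v m ℚ) d.val = qmul d.val (h74v m ℚ) := by
    have h2 := e1 (qmul d.val (h74v m ℚ))
    have h3 : qmul (qmul d.val (h74v m ℚ)) (qconj d.val) = h74v m ℚ := h
    rw [h3] at h2
    exact h2
  have a1 := congrFun e2 1
  have a3 := congrFun e2 3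
  simp [qmul, h74v] at a1 a3
  constructor
  · linarith
  · linarith

theorem h74_int {p : ℕ} [Fact p.Prime] (x y : Fin 4 → ℚ_[p]) (hx : ∀ j, ‖x j‖ ≤ 1)
    (hy : ∀ j, ‖y j‖ ≤ 1) : ∀ j, ‖qmul x y j‖ ≤ 1 := by
  intro j
  have hm : ∀ a b : ℚ_[p], ‖a‖ ≤ 1 → ‖b‖ ≤ 1 → ‖a * b‖ ≤ 1 := fun a b ha hb => by
    rw [norm_mul]; exact mul_le_one₀ ha (norm_nonneg _) hb
  have ha : ∀ a b : ℚ_[p], ‖a‖ ≤ 1 → ‖b‖ ≤ 1 → ‖a + b‖ ≤ 1 := fun a b ha hb =>
    (Padic.nonarchimedean a b).trans (max_le ha hb)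
  have hs : ∀ a b : ℚ_[p], ‖a‖ ≤ 1 → ‖b‖ ≤ 1 → ‖a - b‖ ≤ 1 := fun a b ha' hb => by
    rw [sub_eq_add_neg]; exact ha _ _ ha' (by rwa [norm_neg])
  simp only [qmul]
  fin_cases j <;> simp
  · exact hs _ _ (hs _ _ (hs _ _ (hm _ _ (hx 0) (hy 0)) (hm _ _ (hx 1) (hy 1)))
      (hm _ _ (hx 2) (hy 2))) (hm _ _ (hx 3) (hy 3))
  · exact hs _ _ (ha _ _ (ha _ _ (hm _ _ (hx 0) (hy 1)) (hm _ _ (hx 1) (hy 0)))
      (hm _ _ (hx 2) (hy 3))) (hm _ _ (hx 3) (hy 2))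
  · exact ha _ _ (ha _ _ (hs _ _ (hm _ _ (hx 0) (hy 2)) (hm _ _ (hx 1) (hy 3)))
      (hm _ _ (hx 2) (hy 0))) (hm _ _ (hx 3) (hy 1))
  · exact ha _ _ (hs _ _ (ha _ _ (hm _ _ (hx 0) (hy 3)) (hm _ _ (hx 1) (hy 2)))
      (hm _ _ (hx 2) (hy 1))) (hm _ _ (hx 3) (hy 0))

theorem h74_conj_int {p : ℕ} [Fact p.Prime] (x : Fin 4 → ℚ_[p]) (hx : ∀ j, ‖x j‖ ≤ 1) :
    ∀ j, ‖qconj x j‖ ≤ 1 := by
  intro j
  simp only [qconj]
  fin_cases j
  · simpa using hx 0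
  · simpa using hx 1
  · simpa using hx 2
  · simpa using hx 3

theorem h74_rat_int (q : ℚ) (h : ∀ p : Nat.Primes, ‖(q : ℚ_[p])‖ ≤ 1) : ∃ z : ℤ, (z : ℚ) = q := by
  refine ⟨q.num, ?_⟩
  rw [← Rat.den_eq_one_iff]
  by_contra hden
  obtain ⟨p, hp, hpd⟩ := Nat.exists_prime_and_dvd hden
  have : Fact p.Prime := ⟨hp⟩
  have h1 := h ⟨p, hp⟩
  have h2 : ‖((q.den : ℤ) : ℚ_[p])‖ < 1 := by
    rw [Padic.norm_intCast_lt_one_iff]
    exact_mod_cast hpd
  have h3 : (q : ℚ_[p]) * ((q.den : ℤ) : ℚ_[p]) = ((q.num : ℤ) : ℚ_[p]) := by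
    have h4 : q * q.den = q.num := Rat.mul_den_eq_num q
    exact_mod_cast congrArg (fun r : ℚ => (r : ℚ_[p])) h4
  have h5 : ‖((q.num : ℤ) : ℚ_[p])‖ < 1 := by
    rw [← h3, norm_mul]
    exact mul_lt_one_of_nonneg_of_lt_one_right h1 (norm_nonneg _) h2
  rw [Padic.norm_intCast_lt_one_iff] at h5
  have h6 : p ∣ q.num.natAbs := Int.natCast_dvd.1 h5
  have h7 := Nat.dvd_gcd h6 hpd
  rw [q.reduced] at h7
  exact hp.one_lt.ne' (Nat.dvd_one.1 h7)

theorem h74_cast (m : ℕ) (p : ℕ) [Fact p.Prime] (γ : D1 ℚ) (j : Fin 4) :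
    ((h74c γ.val (h74v m ℚ) j : ℚ) : ℚ_[p]) =
      h74c (D1.map (algebraMap ℚ ℚ_[p]) γ).val (h74v m ℚ_[p]) j := by
  simp only [h74c, h74v, qmul, qconj, D1.map_val]
  fin_cases j <;> simp

theorem h74_key (m : ℕ) (t : D1A) (ht : t ∈ T1A m) (k : D1A) (hk : k ∈ KA) (γ : D1 ℚ)
    (h : t = k * dg γ) (j : Fin 4) : ∃ z : ℤ, (z : ℚ) = h74c γ.val (h74v m ℚ) j := by
  apply h74_rat_int
  intro p
  rw [h74_cast]
  have h1 : comp1 p t ∈ torus m ℚ_[p] := by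
    have h2 := (Subgroup.mem_inf.1 ht).2
    exact (Subgroup.mem_iInf.1 h2) p
  have h3 : comp1 p k ∈ Kp p := mem_KA.1 hk p
  have h4 : comp1 p t = comp1 p k * D1.map (algebraMap ℚ ℚ_[p]) γ := by
    rw [h, map_mul]
    rfl
  have h5 : D1.map (algebraMap ℚ ℚ_[p]) γ = (comp1 p k)⁻¹ * comp1 p t := by
    rw [h4]; group
  rw [h5, h74c_mul, h74c_torus _ h1]
  have h6 : (comp1 p k)⁻¹ ∈ Kp p := inv_mem h3
  have h7 : ∀ j, ‖((comp1 p k)⁻¹).val j‖ ≤ 1 := h6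
  have h8 : ∀ j, ‖h74v m ℚ_[p] j‖ ≤ 1 := by
    intro j
    simp only [h74v]
    fin_cases j
    · simp
    · have := Padic.norm_int_le_one (p := p) (m : ℤ)
      simpa using this
    · simp
    · simp
  exact h74_int _ _ (h74_int _ _ h7 h8) (h74_conj_int _ h7) j

/-- Covering the adelic torus modulo the rational torus. -/
theorem torus_cover (class_one : ∀ x : D1A, ∃ k ∈ KA, ∃ γ : D1 ℚ, x = k * dg γ) (m : ℕ) :
    ∃ F : Finset (D1 ℚ), ∀ t ∈ T1A m, ∃ γ ∈ F, ∃ δ ∈ torus m ℚ,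
      t * (dg δ)⁻¹ * (dg γ)⁻¹ ∈ KA := by
  classical
  set S : Set (D1 ℚ) := {γ | ∃ t ∈ T1A m, ∃ k ∈ KA, t = k * dg γ} with hS
  set w : D1 ℚ → (Fin 4 → ℚ) := fun γ => h74c γ.val (h74v m ℚ) with hw
  have hfin : (w '' S).Finite := by
    have hf : (Set.Icc (fun _ => -((m : ℤ) ^ 2 + 1)) (fun _ => (m : ℤ) ^ 2 + 1) :
        Set (Fin 4 → ℤ)).Finite := Set.finite_Icc _ _
    refine (hf.image (fun z : Fin 4 → ℤ => fun j => (z j : ℚ))).subset ?_
    rintro _ ⟨γ, ⟨t, ht, k, hk, h⟩, rfl⟩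
    have hint := h74_key m t ht k hk γ h
    choose z hz using hint
    refine ⟨z, ?_, funext hz⟩
    have hn := h74c_norm γ (h74v m ℚ)
    have hv : qnorm (h74v m ℚ) = (m : ℚ) ^ 2 + 1 := by
      simp [qnorm, h74v]
    rw [hv] at hn
    have hn2 : (z 0) ^ 2 + (z 1) ^ 2 + (z 2) ^ 2 + (z 3) ^ 2 = (m : ℤ) ^ 2 + 1 := by
      simp only [qnorm, ← hz] at hn
      exact_mod_cast hn
    have hb : ∀ j, (z j) ^ 2 ≤ (m : ℤ) ^ 2 + 1 := by
      intro j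
      fin_cases j <;> simp <;> nlinarith [sq_nonneg (z 0), sq_nonneg (z 1), sq_nonneg (z 2),
        sq_nonneg (z 3)]
    have hb2 : ∀ j, |z j| ≤ (m : ℤ) ^ 2 + 1 := by
      intro j
      have h1 : |z j| ≤ (z j) ^ 2 := by
        rw [← sq_abs]
        nlinarith [abs_nonneg (z j), Int.le_self_sq |z j|]
      exact h1.trans (hb j)
    exact ⟨fun j => (abs_le.1 (hb2 j)).1, fun j => (abs_le.1 (hb2 j)).2⟩
  have hch : ∀ y ∈ w '' S, ∃ γ, w γ = y := fun y hy => by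
    obtain ⟨γ, _, hγ⟩ := hy
    exact ⟨γ, hγ⟩
  choose! g hg using hch
  refine ⟨hfin.toFinset.image g, ?_⟩
  intro t ht
  obtain ⟨k, hk, γ, hγ⟩ := class_one t
  have hγS : γ ∈ S := ⟨t, ht, k, hk, hγ⟩
  have hwS : w γ ∈ w '' S := ⟨γ, hγS, rfl⟩
  have hgw : w (g (w γ)) = w γ := hg _ hwS
  refine ⟨g (w γ), Finset.mem_image_of_mem _ (hfin.mem_toFinset.2 hwS),
    (g (w γ))⁻¹ * γ, ?_, ?_⟩
  · apply h74c_fix
    rw [h74c_mul]
    have h1 : h74c γ.val (h74v m ℚ) = h74c (g (w γ)).val (h74v m ℚ) := hgw.symm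
    rw [h1, ← h74c_mul, inv_mul_cancel, h74c_one]
  · have : t * (dg ((g (w γ))⁻¹ * γ))⁻¹ * (dg (g (w γ)))⁻¹ = k := by
      rw [hγ]
      simp only [map_mul, map_inv]
      group
    rw [this]
    exact hk


end J7

end AdTorus
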