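import Pool.Agent.AdTorus.Defs2

set_option autoImplicit false

noncomputable section

namespace AdTorus

open Topology Filter RestrictedProduct MeasureTheory

namespace J8



theorem cq_mem_T1A {m : ℕ} {t : D1A} : t ∈ T1A m ↔ t.1 ∈ torus m ℝ ∧
    ∀ p : Nat.Primes, t.2 p ∈ torus m ℚ_[p] := by
  simp only [T1A, Subgroup.mem_inf, Subgroup.mem_comap, Subgroup.mem_iInf]
  rfl

theorem cq_ext {a b : D1A} (h1 : a.1 = b.1) (h2 : ∀ p : Nat.Primes, a.2 p = b.2 p) : a = b := by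
  refine Prod.ext h1 ?_
  apply Subtype.ext
  funext p
  exact h2 p

theorem cq_pow (a : D1A) (n : ℕ) (p : Nat.Primes) : (a ^ n).2 p = (a.2 p) ^ n :=
  map_pow (comp1 p) a n

theorem cq_pow1 (a : D1A) (n : ℕ) : (a ^ n).1 = a.1 ^ n :=
  map_pow (MonoidHom.fst (D1 ℝ) (Πʳ p : Nat.Primes, [D1 ℚ_[p], Kp p])) a n

theorem cq_mem_TA {m n : ℕ} {x : GA} : x ∈ TA m n ↔ x.1 ∈ T1A m ∧ x.2 = x.1 ^ n := by
  rw [cq_mem_T1A]
  have h1 : x ∈ TA m n ↔ (x.1.1 ∈ torus m ℝ ∧ x.2.1 = x.1.1 ^ n) ∧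
      ∀ p : Nat.Primes, (x.1.2 p ∈ torus m ℚ_[p] ∧ x.2.2 p = (x.1.2 p) ^ n) := by
    simp only [TA, Subgroup.mem_inf, Subgroup.mem_comap, Subgroup.mem_iInf]
    rfl
  rw [h1]
  constructor
  · rintro ⟨⟨a1, a2⟩, a3⟩
    refine ⟨⟨a1, fun p => (a3 p).1⟩, cq_ext ?_ ?_⟩
    · rw [cq_pow1]
      exact a2
    · intro p
      rw [cq_pow]
      exact (a3 p).2
  · rintro ⟨⟨a1, a2⟩, a3⟩
    refine ⟨⟨a1, ?_⟩, fun p => ⟨a2 p, ?_⟩⟩
    · rw [a3, cq_pow1]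
    · rw [a3, cq_pow]

theorem cq_comm {m : ℕ} {a b : D1A} (ha : a ∈ T1A m) (hb : b ∈ T1A m) : a * b = b * a := by
  rw [cq_mem_T1A] at ha hb
  refine cq_ext (torus_comm ha.1 hb.1) fun p => ?_
  have h1 : (a * b).2 p = a.2 p * b.2 p := map_mul (comp1 p) a b
  have h2 : (b * a).2 p = b.2 p * a.2 p := map_mul (comp1 p) b a
  rw [h1, h2]
  exact torus_comm (ha.2 p) (hb.2 p)

theorem cq_map {m : ℕ} {R S : Type} [CommRing R] [CommRing S] (f : R →+* S) {a : D1 R}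
    (ha : a ∈ torus m R) : D1.map f a ∈ torus m S := by
  obtain ⟨h3, h1⟩ := ha
  constructor
  · rw [D1.map_val, h3, map_zero]
  · rw [D1.map_val, D1.map_val, h1, map_mul, map_natCast]

theorem cq_dg {m : ℕ} {a : D1 ℚ} (ha : a ∈ torus m ℚ) : dg a ∈ T1A m := by
  rw [cq_mem_T1A]
  exact ⟨cq_map _ ha, fun p => cq_map _ ha⟩

theorem cq_closed_torus (m : ℕ) (R : Type) [CommRing R] [TopologicalSpace R]
    [IsTopologicalRing R] [T2Space R] : IsClosed (torus m R : Set (D1 R)) := by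
  have h1 : IsClosed {t : D1 R | t.val 3 = 0} := isClosed_eq (D1.continuous_coord 3) continuous_const
  have h2 : IsClosed {t : D1 R | t.val 1 = m * t.val 2} :=
    isClosed_eq (D1.continuous_coord 1) (continuous_const.mul (D1.continuous_coord 2))
  exact h1.inter h2

theorem cq_closed (m : ℕ) : IsClosed (T1A m : Set D1A) := by
  have h1 : (T1A m : Set D1A) = {t : D1A | t.1 ∈ torus m ℝ} ∩
      ⋂ p : Nat.Primes, {t : D1A | t.2 p ∈ torus m ℚ_[p]} := by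
    ext t
    rw [SetLike.mem_coe, cq_mem_T1A, Set.mem_inter_iff, Set.mem_iInter]
    rfl
  rw [h1]
  refine IsClosed.inter ?_ (isClosed_iInter fun p => ?_)
  · exact (cq_closed_torus m ℝ).preimage continuous_fst
  · have h2 : Continuous (fun t : D1A => t.2 p) :=
      (RestrictedProduct.continuous_eval p).comp continuous_snd
    exact (cq_closed_torus m ℚ_[p]).preimage h2

theorem compact_quot (isCompact_KA : IsCompact (KA : Set D1A)) (m n : ℕ)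
    (torus_cover : ∃ F : Finset (D1 ℚ), ∀ t ∈ T1A m, ∃ γ ∈ F, ∃ δ ∈ torus m ℚ,
      t * (dg δ)⁻¹ * (dg γ)⁻¹ ∈ KA) :
    CompactSpace (TA m n ⧸ GQ.subgroupOf (TA m n)) := by
  obtain ⟨F, hF⟩ := torus_cover
  have hφ : ∀ t : T1A m, ((t : D1A), (t : D1A) ^ n) ∈ TA m n := fun t =>
    cq_mem_TA.2 ⟨t.2, rfl⟩
  obtain ⟨φ, hφdef⟩ : ∃ φ : T1A m → TA m n, φ = fun t => ⟨((t : D1A), (t : D1A) ^ n), hφ t⟩ :=
    ⟨_, rfl⟩
  have hφc : Continuous φ := by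
    rw [hφdef]
    exact (continuous_subtype_val.prodMk (continuous_subtype_val.pow n)).subtype_mk _
  obtain ⟨π, hπ⟩ : ∃ π : TA m n → (TA m n ⧸ GQ.subgroupOf (TA m n)), π = QuotientGroup.mk :=
    ⟨_, rfl⟩
  have hπc : Continuous π := by
    rw [hπ]
    exact continuous_quotient_mk'
  have hC : ∀ γ : D1 ℚ, IsCompact
      ((Subtype.val : T1A m → D1A) ⁻¹' ((fun t : D1A => t * dg γ) '' (KA : Set D1A))) := by
    intro γ
    have h1 : IsCompact ((fun t : D1A => t * dg γ) '' (KA : Set D1A)) :=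
      isCompact_KA.image (continuous_mul_const (dg γ))
    exact (cq_closed m).isClosedEmbedding_subtypeVal.isCompact_preimage h1
  have hU : IsCompact (⋃ γ ∈ F, (π ∘ φ) '' ((Subtype.val : T1A m → D1A) ⁻¹'
      ((fun t : D1A => t * dg γ) '' (KA : Set D1A)))) :=
    F.finite_toSet.isCompact_biUnion fun γ _ => (hC γ).image (hπc.comp hφc)
  have huniv : (Set.univ : Set (TA m n ⧸ GQ.subgroupOf (TA m n))) = ⋃ γ ∈ F,
      (π ∘ φ) '' ((Subtype.val : T1A m → D1A) ⁻¹'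
      ((fun t : D1A => t * dg γ) '' (KA : Set D1A))) := by
    symm
    rw [Set.eq_univ_iff_forall]
    intro q
    obtain ⟨⟨x, hx⟩, rfl⟩ := QuotientGroup.mk_surjective q
    obtain ⟨hx1, hx2⟩ := cq_mem_TA.1 hx
    obtain ⟨γ, hγ, δ, hδ, hK⟩ := hF x.1 hx1
    have hδ' := cq_dg hδ
    have ht' : x.1 * (dg δ)⁻¹ ∈ T1A m := mul_mem hx1 (inv_mem hδ')
    rw [Set.mem_iUnion₂]
    refine ⟨γ, hγ, ⟨x.1 * (dg δ)⁻¹, ht'⟩, ?_, ?_⟩
    · refine ⟨x.1 * (dg δ)⁻¹ * (dg γ)⁻¹, hK, ?_⟩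
      show x.1 * (dg δ)⁻¹ * (dg γ)⁻¹ * dg γ = x.1 * (dg δ)⁻¹
      rw [inv_mul_cancel_right]
    · rw [Function.comp_apply, hπ]
      refine QuotientGroup.eq.2 ?_
      rw [Subgroup.mem_subgroupOf, hφdef]
      show (x.1 * (dg δ)⁻¹, (x.1 * (dg δ)⁻¹) ^ n)⁻¹ * x ∈ GQ
      refine ⟨(δ, δ ^ n), ?_⟩
      have hcm : Commute x.1 ((dg δ)⁻¹) := cq_comm hx1 (inv_mem hδ')
      refine Prod.ext ?_ ?_
      · show dg δ = (x.1 * (dg δ)⁻¹)⁻¹ * x.1
        rw [mul_inv_rev, inv_inv, inv_mul_cancel_right]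
      · show dg (δ ^ n) = ((x.1 * (dg δ)⁻¹) ^ n)⁻¹ * x.2
        rw [hx2, hcm.mul_pow, mul_inv_rev, inv_pow, inv_inv, inv_mul_cancel_right, map_pow]
  exact ⟨huniv ▸ hU⟩


end J8

end AdTorus
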