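import Pool.Agent.AdTorus.Defs2

set_option autoImplicit false

noncomputable section

namespace AdTorus

open Topology Filter RestrictedProduct MeasureTheory

namespace J9



theorem pow_level_mem {m : ℕ} {a : D1A} : a ∈ T1A m ↔
    a.1 ∈ torus m ℝ ∧ ∀ p : Nat.Primes, comp1 p a ∈ torus m ℚ_[p] := by
  simp only [T1A, Subgroup.mem_inf, Subgroup.mem_iInf, Subgroup.mem_comap]
  rfl

theorem pow_level_comm {m : ℕ} {a b : D1A} (ha : a ∈ T1A m) (hb : b ∈ T1A m) :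
    a * b = b * a := by
  rw [pow_level_mem] at ha hb
  refine Prod.ext (torus_comm ha.1 hb.1) ?_
  apply Subtype.ext
  funext p
  have h1 : comp1 p (a * b) = comp1 p (b * a) := by
    rw [map_mul, map_mul]
    exact torus_comm (ha.2 p) (hb.2 p)
  exact h1

theorem pow_level_map {m : ℕ} {R S : Type} [CommRing R] [CommRing S] (f : R →+* S) {x : D1 R}
    (hx : x ∈ torus m R) : D1.map f x ∈ torus m S := by
  obtain ⟨h1, h2⟩ := hx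
  refine ⟨?_, ?_⟩
  · rw [D1.map_val, h1, map_zero]
  · rw [D1.map_val, D1.map_val, h2, map_mul, map_natCast]

theorem pow_level_dg {m : ℕ} {x : D1 ℚ} (hx : x ∈ torus m ℚ) : dg x ∈ T1A m := by
  rw [pow_level_mem]
  exact ⟨pow_level_map _ hx, fun p => pow_level_map _ hx⟩

theorem pow_level_cover (isCompact_KA : IsCompact (KA : Set D1A))
    (isOpen_K3 : IsOpen (K3 : Set D1A)) :
    ∃ S : Finset D1A, ∀ u ∈ KA, ∃ c ∈ S, u * c⁻¹ ∈ K3 := by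
  have hop : ∀ c : D1A, IsOpen {u : D1A | u * c⁻¹ ∈ (K3 : Set D1A)} := by
    intro c
    exact isOpen_K3.preimage (continuous_mul_const c⁻¹)
  obtain ⟨S, hS⟩ := isCompact_KA.elim_finite_subcover
    (fun c : D1A => {u : D1A | u * c⁻¹ ∈ (K3 : Set D1A)}) hop (by
      intro u _
      rw [Set.mem_iUnion]
      refine ⟨u, ?_⟩
      change u * u⁻¹ ∈ K3
      rw [mul_inv_cancel]
      exact one_mem _)
  refine ⟨S, fun u hu => ?_⟩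
  have h := hS hu
  simp only [Set.mem_iUnion] at h
  obtain ⟨c, hc, hcu⟩ := h
  exact ⟨c, hc, hcu⟩

theorem pow_level (isCompact_KA : IsCompact (KA : Set D1A)) (isOpen_K3 : IsOpen (K3 : Set D1A))
    (m : ℕ)
    (torus_cover : ∃ F : Finset (D1 ℚ), ∀ t ∈ T1A m, ∃ γ ∈ F, ∃ δ ∈ torus m ℚ,
      t * (dg δ)⁻¹ * (dg γ)⁻¹ ∈ KA) :
    ∃ n : ℕ, 0 < n ∧ ∀ j : ℕ, ∀ t ∈ T1A m, ∃ k ∈ K3, ∃ γ : D1 ℚ, t ^ (n * j) = k * dg γ := by
  classical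
  obtain ⟨F, hF⟩ := torus_cover
  obtain ⟨S, hS⟩ := pow_level_cover isCompact_KA isOpen_K3
  have hcls : ∀ t : D1A, t ∈ T1A m → ∃ z : D1 ℚ × D1A, z ∈ F ×ˢ S ∧ ∃ δ ∈ torus m ℚ,
      t * (dg δ)⁻¹ * (dg z.1)⁻¹ * z.2⁻¹ ∈ K3 := by
    intro t ht
    obtain ⟨γ, hγ, δ, hδ, h⟩ := hF t ht
    obtain ⟨c, hc, h2⟩ := hS _ h
    exact ⟨(γ, c), Finset.mem_product.2 ⟨hγ, hc⟩, δ, hδ, h2⟩
  choose! Z hZ1 hZ2 using hcls
  set N : ℕ := (F ×ˢ S).card with hN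
  refine ⟨N.factorial, Nat.factorial_pos N, ?_⟩
  intro j t ht
  obtain ⟨i, hi, i', hi', hne, heq⟩ := Finset.exists_ne_map_eq_of_card_lt_of_maps_to
    (s := Finset.range (N + 1)) (t := F ×ˢ S) (f := fun i => Z (t ^ i))
    (by rw [Finset.card_range]; omega)
    (fun i _ => hZ1 (t ^ i) (pow_mem ht i))
  have key : ∀ a b : ℕ, a < b → b < N + 1 → Z (t ^ a) = Z (t ^ b) →
      ∃ d : ℕ, 0 < d ∧ d ≤ N ∧ ∃ k ∈ K3, k ∈ T1A m ∧ ∃ δ ∈ torus m ℚ, t ^ d = k * dg δ := by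
    intro a b hab hb hz
    obtain ⟨δ, hδ, h1⟩ := hZ2 (t ^ b) (pow_mem ht b)
    obtain ⟨δ', hδ', h2⟩ := hZ2 (t ^ a) (pow_mem ht a)
    rw [hz] at h2
    have h3 := mul_mem h1 (inv_mem h2)
    have e3 : (t ^ b * (dg δ)⁻¹ * (dg (Z (t ^ b)).1)⁻¹ * (Z (t ^ b)).2⁻¹) *
        (t ^ a * (dg δ')⁻¹ * (dg (Z (t ^ b)).1)⁻¹ * (Z (t ^ b)).2⁻¹)⁻¹
        = t ^ b * (dg δ)⁻¹ * dg δ' * (t ^ a)⁻¹ := by group
    rw [e3] at h3
    have m1 : dg δ ∈ T1A m := pow_level_dg hδ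
    have m2 : dg δ' ∈ T1A m := pow_level_dg hδ'
    have m3 : t ^ a ∈ T1A m := pow_mem ht a
    have m4 : t ^ b ∈ T1A m := pow_mem ht b
    refine ⟨b - a, by omega, by omega, _, h3,
      mul_mem (mul_mem (mul_mem m4 (inv_mem m1)) m2) (inv_mem m3), δ'⁻¹ * δ,
      mul_mem (inv_mem hδ') hδ, ?_⟩
    rw [map_mul, map_inv]
    have c1 : (t ^ a)⁻¹ * ((dg δ')⁻¹ * dg δ) = ((dg δ')⁻¹ * dg δ) * (t ^ a)⁻¹ :=
      pow_level_comm (inv_mem m3) (mul_mem (inv_mem m2) m1)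
    have c2 : t ^ b * (dg δ)⁻¹ * dg δ' * (t ^ a)⁻¹ * ((dg δ')⁻¹ * dg δ)
        = t ^ b * ((dg δ)⁻¹ * dg δ * (dg δ')⁻¹ * dg δ') * (t ^ a)⁻¹ := by
      have c3 : dg δ' * ((dg δ')⁻¹ * dg δ) = dg δ * (dg δ')⁻¹ * dg δ' := by group
      calc t ^ b * (dg δ)⁻¹ * dg δ' * (t ^ a)⁻¹ * ((dg δ')⁻¹ * dg δ)
          = t ^ b * (dg δ)⁻¹ * dg δ' * ((t ^ a)⁻¹ * ((dg δ')⁻¹ * dg δ)) := by group
        _ = t ^ b * (dg δ)⁻¹ * dg δ' * (((dg δ')⁻¹ * dg δ) * (t ^ a)⁻¹) := by rw [c1]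
        _ = _ := by group
    rw [c2]
    have c4 : t ^ b * ((dg δ)⁻¹ * dg δ * (dg δ')⁻¹ * dg δ') * (t ^ a)⁻¹
        = t ^ b * (t ^ a)⁻¹ := by group
    rw [c4, ← pow_sub t hab.le]
  have key2 : ∃ d : ℕ, 0 < d ∧ d ≤ N ∧ ∃ k ∈ K3, k ∈ T1A m ∧ ∃ δ ∈ torus m ℚ,
      t ^ d = k * dg δ := by
    have hi2 := Finset.mem_range.1 hi
    have hi2' := Finset.mem_range.1 hi'
    rcases lt_or_gt_of_ne hne with h | h
    · exact key i i' h hi2' heq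
    · exact key i' i h hi2 heq.symm
  obtain ⟨d, hd0, hdN, k, hk, hkT, δ, hδ, hd⟩ := key2
  obtain ⟨q, hq⟩ := Nat.dvd_factorial hd0 hdN
  refine ⟨k ^ (q * j), pow_mem hk _, δ ^ (q * j), ?_⟩
  have hcomm : Commute k (dg δ) := pow_level_comm hkT (pow_level_dg hδ)
  rw [hq, mul_assoc, pow_mul, hd, hcomm.mul_pow, map_pow]


end J9

end AdTorus
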