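import Pool.Agent.AdTorus.MJ1
import Pool.Agent.AdTorus.MJ1b
import Pool.Agent.AdTorus.MJ2
import Pool.Agent.AdTorus.MJ3
import Pool.Agent.AdTorus.MJ4
import Pool.Agent.AdTorus.MJ5a
import Pool.Agent.AdTorus.MJ5b
import Pool.Agent.AdTorus.MJ6
import Pool.Agent.AdTorus.MJ7
import Pool.Agent.AdTorus.MJ8
import Pool.Agent.AdTorus.MJ9
import Pool.Agent.AdTorus.MJ10
import Pool.Agent.AdTorus.MJ11
import Pool.Agent.AdTorus.MJ12
import Pool.Agent.AdTorus.MJ13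
import Pool.Agent.AdTorus.MJ14
import Pool.Agent.AdTorus.MJ15
import Pool.Agent.AdTorus.MJ16
import Pool.Agent.AdTorus.MB1
import Pool.Agent.AdTorus.MB2
import Pool.Agent.AdTorus.MB3
import Pool.Agent.AdTorus.MB4
import Pool.Agent.AdTorus.Iso

set_option autoImplicit false

noncomputable section

namespace AdTorus

open Topology Filter RestrictedProduct MeasureTheory

theorem exists_norm_p (p : ℕ) (hp : p.Prime) (hodd : p ≠ 2) (y : Fin 4 → ℤ)
    (hy : (p : ℤ) ∣ qnorm y) :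
    ∃ b : Fin 4 → ℤ, qnorm b = p ∧ ∀ j, (p : ℤ) ∣ qmul y (qconj b) j := by
  by_cases hprim : ∃ j, ¬ (p : ℤ) ∣ y j
  · obtain ⟨a, ha0, hya, hpa, hle⟩ := J1.exists_small p hp hodd y hy hprim
    have hsq : ((Nat.sqrt p : ℕ) : ℤ) ^ 2 ≤ p := by
      have := Nat.sqrt_le' p
      exact_mod_cast this
    have hne : ((Nat.sqrt p : ℕ) : ℤ) ^ 2 ≠ p := by
      intro h
      have h' : (Nat.sqrt p) ^ 2 = p := by exact_mod_cast h
      rw [← h'] at hp
      exact (Nat.Prime.not_prime_pow le_rfl) hp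
    have hlt : ((Nat.sqrt p : ℕ) : ℤ) ^ 2 < p := lt_of_le_of_ne hsq hne
    refine J1b.reduce_to_p p hp hodd y a ha0 hya hpa (by linarith) ?_
    intro h3
    subst h3
    have : Nat.sqrt 3 = 1 := (Nat.eq_sqrt'.2 ⟨by norm_num, by norm_num⟩).symm
    rw [this] at hle
    norm_num at hle ⊢
    linarith
  · push Not at hprim
    obtain ⟨a, b, c, d, h⟩ := Nat.sum_four_squares p
    refine ⟨![a, b, c, d], ?_, ?_⟩
    · simp only [qnorm, Matrix.cons_val_zero, Matrix.cons_val_one, Matrix.cons_val]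
      exact_mod_cast h
    · intro j
      have h0 := hprim 0
      have h1 := hprim 1
      have h2 := hprim 2
      have h3 := hprim 3
      simp only [qmul, qconj]
      fin_cases j <;> simp only [Fin.zero_eta, Fin.mk_one, Fin.reduceFinMk, Matrix.cons_val_zero,
        Matrix.cons_val_one, Matrix.cons_val]
      all_goals
        repeat' first
          | exact h0.mul_right _
          | exact h1.mul_right _
          | exact h2.mul_right _
          | exact h3.mul_right _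
          | apply dvd_sub
          | apply dvd_add

theorem local_descent (p : ℕ) [hp : Fact p.Prime] (x : D1 ℚ_[p]) : ∃ γ : D1 ℚ,
    (∀ (q : ℕ) [Fact q.Prime], q ≠ p → D1.map (algebraMap ℚ ℚ_[q]) γ ∈ Kp q) ∧
    x * (D1.map (algebraMap ℚ ℚ_[p]) γ)⁻¹ ∈ Kp p := by
  by_cases h : p = 2
  · subst h
    have : hp = ⟨Nat.prime_two⟩ := rfl
    exact J3.two_adic x
  · exact J2.padic_descent exists_norm_p p h x

theorem class_one (x : D1A) : ∃ k ∈ KA, ∃ γ : D1 ℚ, x = k * dg γ :=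
  J4.class_one local_descent x

theorem torus_cover (m : ℕ) : ∃ F : Finset (D1 ℚ), ∀ t ∈ T1A m, ∃ γ ∈ F, ∃ δ ∈ torus m ℚ,
    t * (dg δ)⁻¹ * (dg γ)⁻¹ ∈ KA := J7.torus_cover class_one m

/-- The adelic torus subsets of the tori `T_{m,n}` do not concentrate in a proper subgroup. -/
theorem second_alternative_fails (n : ℕ → ℕ) (hn : ∀ i, i < n i)
    (S : Set (MvPolynomial (Fin 4 ⊕ Fin 4) ℚ)) (hS : IsQSubgroup S)
    (hprop : zeroSet S ℂ ≠ Set.univ) (h : ℕ → GA) :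
    {i | orbitSet 1 (TA (2 ^ 2 ^ i) (n i)) ⊆
      orbitSet (h i) (adelic fun R _ _ => zeroSet S R)}.Finite := by
  by_contra hinf
  rw [← Set.Infinite] at hinf
  obtain ⟨N, hN⟩ := J16.stageA3 J14.laurent S hS
  obtain ⟨H, hH⟩ := hS
  -- for every bad index `i ≥ N` we get tori
  have key : ∀ i ∈ {i | orbitSet 1 (TA (2 ^ 2 ^ i) (n i)) ⊆
      orbitSet (h i) (adelic fun R _ _ => zeroSet S R)}, N ≤ i →
      ∃ γ : D1 ℚ × D1 ℚ, ∀ s : ℂˣ,
        ((D1.map (algebraMap ℚ ℂ) γ.1 * tau (2 ^ 2 ^ i) s * (D1.map (algebraMap ℚ ℂ) γ.1)⁻¹, 1) :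
          D1 ℂ × D1 ℂ) ∈ H ∧
        ((1, D1.map (algebraMap ℚ ℂ) γ.2 * tau (2 ^ 2 ^ i) s * (D1.map (algebraMap ℚ ℂ) γ.2)⁻¹) :
          D1 ℂ × D1 ℂ) ∈ H := by
    intro i hi hNi
    obtain ⟨γ, Θ, hΘ, hΘ1, hγ⟩ := J13.stageA _ (n i) S ⟨H, hH⟩ (h i) hi
    have h2 := J15.stageA2 J14.laurent _ (n i) S _ Θ hΘ hΘ1 hγ
    have h3 := hN (n i) (hNi.trans (hn i).le) _ _ h2
    refine ⟨γ, fun s => ?_⟩
    obtain ⟨ha, hb⟩ := h3 s
    rw [← hH, SetLike.mem_coe] at ha hb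
    constructor
    · convert ha using 1
      simp
    · convert hb using 1
      simp
  have hinf2 : ({i | orbitSet 1 (TA (2 ^ 2 ^ i) (n i)) ⊆
      orbitSet (h i) (adelic fun R _ _ => zeroSet S R)} \ {i | i < N}).Infinite :=
    hinf.diff (Set.finite_lt_nat N)
  obtain ⟨i, hi⟩ := hinf2.nonempty
  obtain ⟨j, hj, hij⟩ := hinf2.exists_gt i
  obtain ⟨γ, hγ⟩ := key i hi.1 (not_lt.1 hi.2)
  obtain ⟨γ', hγ'⟩ := key j hj.1 (not_lt.1 hj.2)
  have hsq := B4.fermat_not_square (i := i) (j := j) (ne_of_lt hij)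
  have e1 : H.comap (MonoidHom.inl (D1 ℂ) (D1 ℂ)) = ⊤ :=
    B3.gen_tau (B2.gen_D1 B1.sl2_gen) _ (2 ^ 2 ^ i) (2 ^ 2 ^ j) γ.1 γ'.1 hsq
      (fun s => (hγ s).1) (fun s => (hγ' s).1)
  have e2 : H.comap (MonoidHom.inr (D1 ℂ) (D1 ℂ)) = ⊤ :=
    B3.gen_tau (B2.gen_D1 B1.sl2_gen) _ (2 ^ 2 ^ i) (2 ^ 2 ^ j) γ.2 γ'.2 hsq
      (fun s => (hγ s).2) (fun s => (hγ' s).2)
  apply hprop
  rw [← hH]
  ext x
  simp only [SetLike.mem_coe, Set.mem_univ, iff_true]
  have a1 : ((x.1, 1) : D1 ℂ × D1 ℂ) ∈ H := by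
    have : x.1 ∈ H.comap (MonoidHom.inl (D1 ℂ) (D1 ℂ)) := by rw [e1]; trivial
    exact this
  have a2 : ((1, x.2) : D1 ℂ × D1 ℂ) ∈ H := by
    have : x.2 ∈ H.comap (MonoidHom.inr (D1 ℂ) (D1 ℂ)) := by rw [e2]; trivial
    exact this
  have := mul_mem a1 a2
  simpa using this

theorem mem_T1A_of_mem_TA {m n : ℕ} {t : GA} (ht : t ∈ TA m n) :
    t.1 ∈ T1A m ∧ t.2 = t.1 ^ n := by
  simp only [TA, Subgroup.mem_inf, Subgroup.mem_comap, Subgroup.mem_iInf] at ht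
  obtain ⟨h1, h2⟩ := ht
  refine ⟨?_, ?_⟩
  · simp only [T1A, Subgroup.mem_inf, Subgroup.mem_comap, Subgroup.mem_iInf]
    exact ⟨h1.1, fun p => (h2 p).1⟩
  · refine Prod.ext ?_ ?_
    · rw [Prod.pow_fst]; exact h1.2
    · apply Subtype.ext
      funext p
      have := (h2 p).2
      have e : comp1 p t.2 = (comp1 p t.1) ^ n := this
      rw [← map_pow] at e
      exact e

/-- **Disproof of the conjectured alternative.** Take `F = ℚ` and the simply connected semisimple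
group `G = D^1 × D^1`, `D^1` the group of norm one Hamilton quaternions. There are anisotropic
tori `T_i = {(t, t^{n_i}) : t ∈ T_{m_i}}`, `m_i = 2^(2^i)`, such that (with `g_i = 1`) the uniform
measures of the adelic torus subsets `[T_i(𝔸)]` have a weak-* limit which is a probability measure
not invariant under `G(𝔸)`, and yet for every proper `ℚ`-subgroup `H` of `G` and every sequence
`h_i` in `G(𝔸)` (bounded or not) the inclusion `[T_i(𝔸)] ⊆ h_i [H(𝔸)]` holds for only finitely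
many `i`. -/
theorem main_result :
    ∃ n : ℕ → ℕ, (∀ i, 0 < n i) ∧
      (∀ i, ∃ e : ℂˣ ≃* torusPow (2 ^ 2 ^ i) (n i) ℂ, ∀ s : ℂˣ,
        ((e s : torusPow (2 ^ 2 ^ i) (n i) ℂ) : D1 ℂ × D1 ℂ) =
          (tau (2 ^ 2 ^ i) s, tau (2 ^ 2 ^ i) s ^ n i)) ∧
      (∀ i, CompactSpace (TQ (TA (2 ^ 2 ^ i) (n i)))) ∧
      (∃ ν : ℕ → Measure X, (∀ i, IsUniformMeasure (TA (2 ^ 2 ^ i) (n i)) 1 (ν i)) ∧
        ∃ μ : Measure X, IsProbabilityMeasure μ ∧ IsWeakLimit ν μ ∧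
          ∃ g : GA, μ.map (fun x => g • x) ≠ μ) ∧
      (∀ S : Set (MvPolynomial (Fin 4 ⊕ Fin 4) ℚ), IsQSubgroup S → zeroSet S ℂ ≠ Set.univ →
        ∀ h : ℕ → GA, {i | orbitSet 1 (TA (2 ^ 2 ^ i) (n i)) ⊆
          orbitSet (h i) (adelic fun R _ _ => zeroSet S R)}.Finite) := by
  have hpl : ∀ i : ℕ, ∃ n : ℕ, 0 < n ∧ ∀ j : ℕ, ∀ t ∈ T1A (2 ^ 2 ^ i), ∃ k ∈ K3, ∃ γ : D1 ℚ,
      t ^ (n * j) = k * dg γ := fun i =>
    J9.pow_level J5b.isCompact_KA J5b.isOpen_K3 _ (torus_cover _)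
  choose n0 hn0 hpow using hpl
  have hcomp : ∀ m n : ℕ, CompactSpace (TA m n ⧸ GQ.subgroupOf (TA m n)) := fun m n =>
    J8.compact_quot J5b.isCompact_KA m n (torus_cover m)
  obtain ⟨hX1, hX2, hX3⟩ := J6.space_X class_one J5a.finite_integral J5b.isOpen_KA
    J5b.isCompact_KA J5b.secondCountable_KA
  have hE : IsClopen E := J12.isClopen_E J5b.isOpen_K3
  choose ν hνp hνu hνB using fun i : ℕ =>
    J10.exists_uniform (2 ^ 2 ^ i) (n0 i * (i + 1)) (hcomp _ _)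
  have hνE : ∀ i, ν i E = 1 := by
    intro i
    refine hνB i E hE.isOpen.measurableSet ?_
    intro t ht
    obtain ⟨ht1, ht2⟩ := mem_T1A_of_mem_TA ht
    obtain ⟨k, hk, γ, e⟩ := hpow i (i + 1) t.1 ht1
    exact ⟨t, rfl, k, hk, γ, by rw [ht2, e]⟩
  obtain ⟨μ, hμp, hμw, hμE⟩ := J11.exists_weak_limit hX1 hX2 hX3 ν hνp E hE hνE
  obtain ⟨g, hg⟩ := J12.exists_shift
  refine ⟨fun i => n0 i * (i + 1), fun i => Nat.mul_pos (hn0 i) (Nat.succ_pos i),
    fun i => torus_iso _ _, fun i => hcomp _ _, ⟨ν, hνu, μ, hμp, hμw, g, ?_⟩, ?_⟩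
  · intro hinv
    have hmeas : Measurable (fun x : X => g • x) := (continuous_const_smul g).measurable
    have h1 : μ ((fun x : X => g • x) ⁻¹' E) = 1 := by
      rw [← Measure.map_apply hmeas hE.isOpen.measurableSet, hinv, hμE]
    have hdisj : Disjoint ((fun x : X => g • x) ⁻¹' E) E := by
      rw [Set.disjoint_left]
      intro x hx hx'
      exact hg x hx' hx
    have h2 := measure_union (μ := μ) hdisj hE.isOpen.measurableSet
    have h3 : μ ((fun x : X => g • x) ⁻¹' E ∪ E) ≤ 1 := prob_le_one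
    rw [h2, h1, hμE] at h3
    norm_num at h3
  · intro S hS hprop h
    refine second_alternative_fails (fun i => n0 i * (i + 1)) (fun i => ?_) S hS hprop h
    have := hn0 i
    nlinarith

end AdTorus
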